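import Mathlib

/-!
Plane multigraphs as dual pairs (Whitney, MacLane): a connected multigraph `a : E → V × V` and a
connected dual multigraph `b : E → F × F` such that every face has even degree at every vertex
and Euler's formula holds. Closure under deletion, contraction, and insertion of an edge in a face.
-/

set_option autoImplicit false

namespace Pool.Agent.Helper1.PG

open scoped Classical in
/-- Indicator of a proposition, modulo 2. -/
noncomputable def ind (p : Prop) : ZMod 2 := if p then 1 else 0

theorem ind_true {p : Prop} (h : p) : ind p = 1 := if_pos h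

theorem ind_false {p : Prop} (h : ¬ p) : ind p = 0 := if_neg h

theorem ind_congr {p q : Prop} (h : p ↔ q) : ind p = ind q := by rw [propext h]

theorem z2_add_self (z : ZMod 2) : z + z = 0 := by
  revert z; decide

/-- Incidence of a vertex with an edge, modulo 2 (loops count 0). -/
noncomputable def st {V E : Type} (a : E → V × V) (v : V) (e : E) : ZMod 2 :=
  ind ((a e).1 = v) + ind ((a e).2 = v)

/-- Two vertices joined by an edge. -/
def Lk {V E : Type} (a : E → V × V) (u v : V) : Prop :=
  ∃ e, (a e).1 = u ∧ (a e).2 = v ∨ (a e).1 = v ∧ (a e).2 = u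

/-- Two vertices joined by an edge satisfying `P`. -/
def LkOn {V E : Type} (a : E → V × V) (P : E → Prop) (u v : V) : Prop :=
  ∃ e, P e ∧ ((a e).1 = u ∧ (a e).2 = v ∨ (a e).1 = v ∧ (a e).2 = u)

/-- Connectedness. -/
def Cn {V E : Type} (a : E → V × V) : Prop := ∀ u v, Relation.ReflTransGen (Lk a) u v

/-- A plane connected multigraph given with its dual. -/
structure IsPlane {V F E : Type} [Fintype V] [Fintype F] [Fintype E]
    (a : E → V × V) (b : E → F × F) : Prop where
  conn : Cn a
  dconn : Cn b
  orth : ∀ v f, ∑ e, st a v e * st b f e = 0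
  euler : Fintype.card V + Fintype.card F = Fintype.card E + 2

section Basic

variable {V F E : Type}

theorem Lk.symm {a : E → V × V} {u v : V} (h : Lk a u v) : Lk a v u := by
  obtain ⟨e, h | h⟩ := h
  · exact ⟨e, Or.inr h⟩
  · exact ⟨e, Or.inl h⟩

theorem LkOn.symm {a : E → V × V} {P : E → Prop} {u v : V} (h : LkOn a P u v) :
    LkOn a P v u := by
  obtain ⟨e, hp, h | h⟩ := h
  · exact ⟨e, hp, Or.inr h⟩
  · exact ⟨e, hp, Or.inl h⟩

theorem rtg_symm {α : Type} {r : α → α → Prop} (hs : ∀ x y, r x y → r y x) {x y : α}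
    (h : Relation.ReflTransGen r x y) : Relation.ReflTransGen r y x := by
  induction h with
  | refl => exact Relation.ReflTransGen.refl
  | tail _ h ih => exact (Relation.ReflTransGen.single (hs _ _ h)).trans ih

theorem exists_step_ne {α : Type} {r : α → α → Prop} {p : α → Prop} {x y : α}
    (h : Relation.ReflTransGen r x y) (hx : p x) (hy : ¬ p y) : ∃ u v, r u v ∧ p u ∧ ¬ p v := by
  induction h with
  | refl => exact absurd hx hy
  | @tail w z _ h2 ih =>
    by_cases hw : p w
    · exact ⟨w, z, h2, hw, hy⟩
    · exact ih hw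

theorem IsPlane.symm [Fintype V] [Fintype F] [Fintype E] {a : E → V × V} {b : E → F × F}
    (h : IsPlane a b) : IsPlane b a where
  conn := h.dconn
  dconn := h.conn
  orth := by
    intro f v
    rw [← h.orth v f]
    exact Finset.sum_congr rfl fun e _ => mul_comm _ _
  euler := by rw [add_comm, h.euler]

/-- A set of vertices closed under the edges satisfying `P`. -/
theorem LkOn.closed {a : E → V × V} {P : E → Prop} {X : Set V} {x y : V}
    (hX : ∀ u v, u ∈ X → LkOn a P u v → v ∈ X) (hx : x ∈ X)
    (h : Relation.ReflTransGen (LkOn a P) x y) : y ∈ X := by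
  induction h with
  | refl => exact hx
  | tail _ h ih => exact hX _ _ ih h

theorem sum_ind [Fintype V] (x : V) (X : Finset V) :
    ∑ v ∈ X, ind (x = v) = ind (x ∈ X) := by
  classical
  by_cases h : x ∈ X
  · rw [Finset.sum_eq_single x, ind_true rfl, ind_true h]
    · intro v _ hv
      exact ind_false (Ne.symm hv)
    · intro h2; exact absurd h h2
  · rw [ind_false h]
    apply Finset.sum_eq_zero
    intro v hv
    apply ind_false
    rintro rfl
    exact h hv

/-- Sum of the stars over a vertex set. -/
theorem sum_st [Fintype V] (a : E → V × V) (X : Finset V) (e : E) :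
    ∑ v ∈ X, st a v e = ind ((a e).1 ∈ X) + ind ((a e).2 ∈ X) := by
  unfold st
  rw [Finset.sum_add_distrib, sum_ind, sum_ind]

theorem sum_st_univ [Fintype V] (a : E → V × V) (e : E) :
    ∑ v, st a v e = 0 := by
  rw [sum_st, ind_true (Finset.mem_univ _), ind_true (Finset.mem_univ _)]
  decide

/-- An edge with different sides is not a bridge. -/
theorem IsPlane.conn_del [Fintype V] [Fintype F] [Fintype E] {a : E → V × V} {b : E → F × F}
    (h : IsPlane a b) {e0 : E} (he : (b e0).1 ≠ (b e0).2) (u v : V) :
    Relation.ReflTransGen (LkOn a (· ≠ e0)) u v := by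
  classical
  set x := (a e0).1 with hx
  set y := (a e0).2 with hy
  have key : Relation.ReflTransGen (LkOn a (· ≠ e0)) x y := by
    by_contra hc
    set X : Finset V :=
      Finset.univ.filter (fun z => Relation.ReflTransGen (LkOn a (· ≠ e0)) x z) with hX
    have hxX : x ∈ X := Finset.mem_filter.2 ⟨Finset.mem_univ _, Relation.ReflTransGen.refl⟩
    have hyX : y ∉ X := fun h1 => hc (Finset.mem_filter.1 h1).2
    have hcl : ∀ e, e ≠ e0 → ((a e).1 ∈ X ↔ (a e).2 ∈ X) := by
      intro e hne
      simp only [hX, Finset.mem_filter, Finset.mem_univ, true_and]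
      constructor
      · intro h1
        exact Relation.ReflTransGen.tail h1 ⟨e, hne, Or.inl ⟨rfl, rfl⟩⟩
      · intro h1
        exact Relation.ReflTransGen.tail h1 ⟨e, hne, Or.inr ⟨rfl, rfl⟩⟩
    have h1 : ∑ v ∈ X, ∑ e, st a v e * st b (b e0).1 e = 0 :=
      Finset.sum_eq_zero fun v _ => h.orth v _
    rw [Finset.sum_comm] at h1
    simp only [← Finset.sum_mul] at h1
    rw [Finset.sum_eq_single e0] at h1
    · rw [sum_st, ← hx, ← hy, ind_true hxX, ind_false hyX] at h1
      unfold st at h1
      rw [ind_true rfl, ind_false (Ne.symm he)] at h1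
      exact absurd h1 (by decide)
    · intro e _ hne
      rw [sum_st, ind_congr (hcl e hne), z2_add_self, zero_mul]
    · intro h2
      exact absurd (Finset.mem_univ _) h2
  have hstep : ∀ u v, Lk a u v → Relation.ReflTransGen (LkOn a (· ≠ e0)) u v := by
    rintro u v ⟨e, he1⟩
    by_cases hee : e = e0
    · subst hee
      rcases he1 with ⟨h1, h2⟩ | ⟨h1, h2⟩
      · rw [← h1, ← h2]; exact key
      · rw [← h1, ← h2]; exact rtg_symm (fun _ _ h => h.symm) key
    · exact Relation.ReflTransGen.single ⟨e, hee, he1⟩
  have := h.conn u v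
  induction this with
  | refl => exact Relation.ReflTransGen.refl
  | tail _ h2 ih => exact ih.trans (hstep _ _ h2)

open scoped Classical in
/-- Identification of `y` with `x`. -/
noncomputable def merge {V : Type} (x y : V) (hxy : x ≠ y) (v : V) : {v : V // v ≠ y} :=
  if h : v = y then ⟨x, hxy⟩ else ⟨v, h⟩

theorem merge_self {x y : V} (hxy : x ≠ y) : merge x y hxy y = ⟨x, hxy⟩ := by
  unfold merge; rw [dif_pos rfl]

theorem merge_of_ne {x y : V} (hxy : x ≠ y) {v : V} (h : v ≠ y) :
    merge x y hxy v = ⟨v, h⟩ := by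
  unfold merge; rw [dif_neg h]

theorem merge_coe {x y : V} (hxy : x ≠ y) (v : {v : V // v ≠ y}) :
    merge x y hxy (v : V) = v := by
  rw [merge_of_ne hxy v.2]

theorem merge_val_eq {x y : V} (hxy : x ≠ y) (v w : V) (hw : w ≠ y) (hwx : w ≠ x) :
    (merge x y hxy v = ⟨w, hw⟩) ↔ v = w := by
  by_cases h : v = y
  · subst h
    rw [merge_self, Subtype.mk.injEq]
    exact ⟨fun h => absurd h.symm hwx, fun h => absurd h.symm hw⟩
  · rw [merge_of_ne hxy h, Subtype.mk.injEq]

theorem merge_eq_x {x y : V} (hxy : x ≠ y) (v : V) :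
    (merge x y hxy v = ⟨x, hxy⟩) ↔ v = x ∨ v = y := by
  by_cases h : v = y
  · subst h
    rw [merge_self]
    simp
  · rw [merge_of_ne hxy h, Subtype.mk.injEq]
    constructor
    · exact Or.inl
    · rintro (h1 | h1)
      · exact h1
      · exact absurd h1 h

/-- Ends after the contraction of `e0`. -/
noncomputable def contr (a : E → V × V) (e0 : E) (h : (a e0).1 ≠ (a e0).2)
    (e : {e : E // e ≠ e0}) : {v : V // v ≠ (a e0).2} × {v : V // v ≠ (a e0).2} :=
  (merge _ _ h (a e).1, merge _ _ h (a e).2)

/-- Ends after the deletion of `e0`. -/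
def del (a : E → V × V) (e0 : E) (e : {e : E // e ≠ e0}) : V × V := a e

theorem st_contr_ne (a : E → V × V) {e0 : E} (h : (a e0).1 ≠ (a e0).2)
    (e : {e : E // e ≠ e0}) (w : V) (hw : w ≠ (a e0).2) (hwx : w ≠ (a e0).1) :
    st (contr a e0 h) ⟨w, hw⟩ e = st a w e := by
  unfold st contr
  congr 1 <;> exact ind_congr (merge_val_eq h _ w hw hwx)

theorem st_contr_x (a : E → V × V) {e0 : E} (h : (a e0).1 ≠ (a e0).2)
    (e : {e : E // e ≠ e0}) :
    st (contr a e0 h) ⟨(a e0).1, h⟩ e = st a (a e0).1 e + st a (a e0).2 e := by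
  have aux : ∀ v : V, ind (merge _ _ h v = ⟨(a e0).1, h⟩) =
      ind (v = (a e0).1) + ind (v = (a e0).2) := by
    intro v
    rw [ind_congr (merge_eq_x h v)]
    by_cases h1 : v = (a e0).1
    · rw [ind_true (Or.inl h1), ind_true h1, ind_false (fun h2 => h (h1.symm.trans h2)), add_zero]
    · by_cases h2 : v = (a e0).2
      · rw [ind_true (Or.inr h2), ind_false h1, ind_true h2, zero_add]
      · rw [ind_false h1, ind_false h2, ind_false (by tauto), add_zero]
  unfold st contr
  rw [aux, aux]
  ring

theorem Cn.contr {a : E → V × V} (h : Cn a) {e0 : E} (h0 : (a e0).1 ≠ (a e0).2) :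
    Cn (contr a e0 h0) := by
  have key : ∀ u v, Relation.ReflTransGen (Lk a) u v →
      Relation.ReflTransGen (Lk (PG.contr a e0 h0)) (merge _ _ h0 u) (merge _ _ h0 v) := by
    intro u v huv
    induction huv with
    | refl => exact Relation.ReflTransGen.refl
    | @tail w z _ hwz ih =>
      refine ih.trans ?_
      obtain ⟨e, he⟩ := hwz
      by_cases hee : e = e0
      · subst hee
        have e1 : merge _ _ h0 (a e).1 = merge _ _ h0 (a e).2 := by
          rw [merge_self, merge_of_ne h0 h0]
        rcases he with ⟨h1, h2⟩ | ⟨h1, h2⟩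
        · rw [← h1, ← h2, e1]
        · rw [← h1, ← h2, e1]
      · apply Relation.ReflTransGen.single
        refine ⟨⟨e, hee⟩, ?_⟩
        rcases he with ⟨h1, h2⟩ | ⟨h1, h2⟩
        · left; exact ⟨by simp only [PG.contr, h1], by simp only [PG.contr, h2]⟩
        · right; exact ⟨by simp only [PG.contr, h1], by simp only [PG.contr, h2]⟩
  intro u v
  have := key u.1 v.1 (h _ _)
  rwa [merge_coe, merge_coe] at this

/-- Contraction of an edge which is not a loop. -/
theorem IsPlane.contract [Fintype V] [Fintype F] [Fintype E] {a : E → V × V} {b : E → F × F}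
    (h : IsPlane a b) {e0 : E} (h0 : (a e0).1 ≠ (a e0).2)
    [Fintype {v : V // v ≠ (a e0).2}] [Fintype {e : E // e ≠ e0}] :
    IsPlane (contr a e0 h0) (del b e0) where
  conn := h.conn.contr h0
  dconn := by
    intro f g
    have := h.symm.conn_del h0 f g
    induction this with
    | refl => exact Relation.ReflTransGen.refl
    | tail _ h2 ih =>
      obtain ⟨e, he, h3⟩ := h2
      exact ih.tail ⟨⟨e, he⟩, h3⟩
  orth := by
    classical
    have key : ∀ (v : V) (f : F), ∑ e : {e : E // e ≠ e0}, st a v e * st b f e =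
        st a v e0 * st b f e0 := by
      intro v f
      have h1 := h.orth v f
      rw [Fintype.sum_eq_add_sum_subtype_ne _ e0] at h1
      have h4 := h1.trans (z2_add_self (st a v e0 * st b f e0)).symm
      have h5 := add_left_cancel h4
      exact (Finset.sum_congr (Finset.ext fun x => by simp only [Finset.mem_univ])
        (fun _ _ => rfl)).trans h5
    rintro ⟨w, hw⟩ f
    have e1 : ∀ e : {e : E // e ≠ e0}, st (del b e0) f e = st b f e := fun e => rfl
    by_cases hwx : w = (a e0).1
    · subst hwx
      simp only [st_contr_x, e1, add_mul]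
      rw [Finset.sum_add_distrib, key, key, ← add_mul]
      have h2 : st a (a e0).1 e0 + st a (a e0).2 e0 = 0 := by
        unfold st
        rw [ind_true rfl, ind_true rfl, ind_false h0, ind_false (Ne.symm h0)]
        decide
      rw [h2, zero_mul]
    · simp only [st_contr_ne a h0 _ w hw hwx, e1]
      rw [key]
      have h2 : st a w e0 = 0 := by
        unfold st
        rw [ind_false (Ne.symm hwx), ind_false (Ne.symm hw), add_zero]
      rw [h2, zero_mul]
  euler := by
    classical
    have h1 := h.euler
    have h2 : Fintype.card {v : V // v ≠ (a e0).2} = Fintype.card V - 1 := by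
      rw [Fintype.card_subtype_compl]
      simp
    have h3 : Fintype.card {e : E // e ≠ e0} = Fintype.card E - 1 := by
      rw [Fintype.card_subtype_compl]
      simp
    have h4 : 0 < Fintype.card V := Fintype.card_pos_iff.2 ⟨(a e0).1⟩
    have h5 : 0 < Fintype.card E := Fintype.card_pos_iff.2 ⟨e0⟩
    omega

/-- Deletion of an edge with different sides. -/
theorem IsPlane.delete [Fintype V] [Fintype F] [Fintype E] {a : E → V × V} {b : E → F × F}
    (h : IsPlane a b) {e0 : E} (h0 : (b e0).1 ≠ (b e0).2)
    [Fintype {f : F // f ≠ (b e0).2}] [Fintype {e : E // e ≠ e0}] :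
    IsPlane (del a e0) (contr b e0 h0) :=
  (h.symm.contract h0).symm

end Basic

end Pool.Agent.Helper1.PG
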