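import Mathlib
import Pool.Agent.Helper1.PG.Core

/-!
Insertion of an edge in a face of a plane multigraph.
-/

set_option autoImplicit false

namespace Pool.Agent.Helper1.PG

variable {V F E : Type}

/-- Ends after inserting a new edge `xy`. -/
def addE (a : E → V × V) (x y : V) : Option E → V × V
  | none => (x, y)
  | some e => a e

open scoped Classical in
/-- Sides after splitting the face `f0`: the sides of `f0` chosen by `A1`, `A2` go to the new face
`none`, the new edge has sides `f0` and `none`. -/
noncomputable def splitF (b : E → F × F) (f0 : F) (A1 A2 : E → Prop) :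
    Option E → Option F × Option F
  | none => (some f0, none)
  | some e => (if (b e).1 = f0 ∧ A1 e then none else some (b e).1,
      if (b e).2 = f0 ∧ A2 e then none else some (b e).2)

theorem splitF_proj (b : E → F × F) (f0 : F) (A1 A2 : E → Prop) (e : E) :
    ((splitF b f0 A1 A2 (some e)).1 = some (b e).1 ∨
      ((splitF b f0 A1 A2 (some e)).1 = none ∧ (b e).1 = f0)) ∧
    ((splitF b f0 A1 A2 (some e)).2 = some (b e).2 ∨
      ((splitF b f0 A1 A2 (some e)).2 = none ∧ (b e).2 = f0)) := by
  unfold splitF
  constructor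
  · by_cases h : (b e).1 = f0 ∧ A1 e
    · right; exact ⟨if_pos h, h.1⟩
    · left; exact if_neg h
  · by_cases h : (b e).2 = f0 ∧ A2 e
    · right; exact ⟨if_pos h, h.1⟩
    · left; exact if_neg h

theorem ind_and_not (p q : Prop) : ind (p ∧ ¬ q) = ind p + ind (p ∧ q) := by
  by_cases hp : p <;> by_cases hq : q
  · rw [ind_false (by tauto), ind_true hp, ind_true ⟨hp, hq⟩]; decide
  · rw [ind_true ⟨hp, hq⟩, ind_true hp, ind_false (by tauto), add_zero]
  · rw [ind_false (by tauto), ind_false hp, ind_false (by tauto), add_zero]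
  · rw [ind_false (by tauto), ind_false hp, ind_false (by tauto), add_zero]

theorem st_split_none (b : E → F × F) (f0 : F) (A1 A2 : E → Prop) (e : E) :
    st (splitF b f0 A1 A2) none (some e) =
      ind ((b e).1 = f0 ∧ A1 e) + ind ((b e).2 = f0 ∧ A2 e) := by
  unfold st splitF
  congr 1
  · apply ind_congr
    dsimp only
    by_cases h : (b e).1 = f0 ∧ A1 e
    · rw [if_pos h]; exact ⟨fun _ => h, fun _ => rfl⟩
    · rw [if_neg h]; exact ⟨fun h2 => by simp at h2, fun h2 => absurd h2 h⟩
  · apply ind_congr
    dsimp only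
    by_cases h : (b e).2 = f0 ∧ A2 e
    · rw [if_pos h]; exact ⟨fun _ => h, fun _ => rfl⟩
    · rw [if_neg h]; exact ⟨fun h2 => by simp at h2, fun h2 => absurd h2 h⟩

theorem st_split_f0 (b : E → F × F) (f0 : F) (A1 A2 : E → Prop) (e : E) :
    st (splitF b f0 A1 A2) (some f0) (some e) =
      st b f0 e + (ind ((b e).1 = f0 ∧ A1 e) + ind ((b e).2 = f0 ∧ A2 e)) := by
  have h1 : st (splitF b f0 A1 A2) (some f0) (some e) =
      ind ((b e).1 = f0 ∧ ¬ A1 e) + ind ((b e).2 = f0 ∧ ¬ A2 e) := by
    unfold st splitF
    congr 1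
    · apply ind_congr
      dsimp only
      by_cases h : (b e).1 = f0 ∧ A1 e
      · rw [if_pos h]
        exact ⟨fun h2 => by simp at h2, fun h2 => absurd h.2 h2.2⟩
      · rw [if_neg h, Option.some_inj]
        exact ⟨fun h2 => ⟨h2, fun h3 => h ⟨h2, h3⟩⟩, fun h2 => h2.1⟩
    · apply ind_congr
      dsimp only
      by_cases h : (b e).2 = f0 ∧ A2 e
      · rw [if_pos h]
        exact ⟨fun h2 => by simp at h2, fun h2 => absurd h.2 h2.2⟩
      · rw [if_neg h, Option.some_inj]
        exact ⟨fun h2 => ⟨h2, fun h3 => h ⟨h2, h3⟩⟩, fun h2 => h2.1⟩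
  rw [h1, ind_and_not, ind_and_not]
  unfold st
  ring

theorem st_split_ne (b : E → F × F) (f0 : F) (A1 A2 : E → Prop) (e : E) {f : F} (hf : f ≠ f0) :
    st (splitF b f0 A1 A2) (some f) (some e) = st b f e := by
  unfold st splitF
  congr 1
  · apply ind_congr
    dsimp only
    by_cases h : (b e).1 = f0 ∧ A1 e
    · rw [if_pos h]
      exact ⟨fun h2 => by simp at h2, fun h2 => absurd (h2.symm.trans h.1) hf⟩
    · rw [if_neg h, Option.some_inj]
  · apply ind_congr
    dsimp only
    by_cases h : (b e).2 = f0 ∧ A2 e
    · rw [if_pos h]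
      exact ⟨fun h2 => by simp at h2, fun h2 => absurd (h2.symm.trans h.1) hf⟩
    · rw [if_neg h, Option.some_inj]

theorem Cn.addE {a : E → V × V} (h : Cn a) (x y : V) : Cn (addE a x y) := by
  intro u v
  have := h u v
  induction this with
  | refl => exact Relation.ReflTransGen.refl
  | tail _ h2 ih =>
    obtain ⟨e, he⟩ := h2
    exact ih.tail ⟨some e, he⟩

theorem Cn.splitF {b : E → F × F} (h : Cn b) (f0 : F) (A1 A2 : E → Prop) :
    Cn (splitF b f0 A1 A2) := by
  set b' := PG.splitF b f0 A1 A2 with hb'
  have h0 : Relation.ReflTransGen (Lk b') (some f0) none :=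
    Relation.ReflTransGen.single ⟨none, Or.inl ⟨rfl, rfl⟩⟩
  have hs : ∀ {p q}, Relation.ReflTransGen (Lk b') p q → Relation.ReflTransGen (Lk b') q p :=
    fun h => rtg_symm (fun _ _ h => h.symm) h
  have hstep : ∀ e, Relation.ReflTransGen (Lk b') (some (b e).1) (some (b e).2) := by
    intro e
    obtain ⟨h1, h2⟩ := splitF_proj b f0 A1 A2 e
    have h3 : Relation.ReflTransGen (Lk b') (some (b e).1) (b' (some e)).1 := by
      rcases h1 with h1 | ⟨h1, h1'⟩
      · rw [hb', h1]
      · rw [hb', h1, h1']; exact h0
    have h4 : Relation.ReflTransGen (Lk b') (b' (some e)).2 (some (b e).2) := by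
      rcases h2 with h2 | ⟨h2, h2'⟩
      · rw [hb', h2]
      · rw [hb', h2, h2']; exact hs h0
    exact (h3.tail ⟨some e, Or.inl ⟨rfl, rfl⟩⟩).trans h4
  have key : ∀ f g, Relation.ReflTransGen (Lk b') (some f) (some g) := by
    intro f g
    have := h f g
    induction this with
    | refl => exact Relation.ReflTransGen.refl
    | tail _ h2 ih =>
      obtain ⟨e, he | he⟩ := h2
      · rw [← he.1] at ih
        rw [← he.2]
        exact ih.trans (hstep e)
      · rw [← he.2] at ih
        rw [← he.1]
        exact ih.trans (hs (hstep e))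
  rintro (_ | f) (_ | g)
  · exact Relation.ReflTransGen.refl
  · exact (hs h0).trans (key _ _)
  · exact (key _ _).trans h0
  · exact key _ _

/-- Insertion of an edge `xy` in the face `f0`; the sides of `f0` given by `A1`, `A2` form a
path system with boundary `x + y`. -/
theorem IsPlane.insert [Fintype V] [Fintype F] [Fintype E] {a : E → V × V} {b : E → F × F}
    (h : IsPlane a b) (x y : V) (f0 : F) (A1 A2 : E → Prop)
    (hA : ∀ v, ∑ e, st a v e * (ind ((b e).1 = f0 ∧ A1 e) + ind ((b e).2 = f0 ∧ A2 e)) =
      ind (x = v) + ind (y = v)) :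
    IsPlane (addE a x y) (splitF b f0 A1 A2) where
  conn := h.conn.addE x y
  dconn := h.dconn.splitF f0 A1 A2
  orth := by
    intro v f
    rw [Fintype.sum_option]
    have e1 : st (addE a x y) v none = ind (x = v) + ind (y = v) := rfl
    have e2 : ∀ e, st (addE a x y) v (some e) = st a v e := fun e => rfl
    simp only [e1, e2]
    rcases f with _ | f
    · have e3 : st (splitF b f0 A1 A2) none none = 1 := by
        unfold st splitF
        rw [ind_false (by simp), ind_true rfl, zero_add]
      simp only [e3, st_split_none, mul_one]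
      rw [hA v, z2_add_self]
    · by_cases hf : f = f0
      · subst hf
        have e3 : st (splitF b f A1 A2) (some f) none = 1 := by
          unfold st splitF
          rw [ind_true rfl, ind_false (by simp), add_zero]
        simp only [e3, st_split_f0, mul_one, mul_add]
        rw [Finset.sum_add_distrib, h.orth v f, zero_add]
        simp only [← mul_add]
        rw [hA v, z2_add_self]
      · have e3 : st (splitF b f0 A1 A2) (some f) none = 0 := by
          unfold st splitF
          rw [ind_false (by rw [Option.some_inj]; exact Ne.symm hf), ind_false (by simp), add_zero]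
        simp only [e3, st_split_ne b f0 A1 A2 _ hf, mul_zero, zero_add]
        exact h.orth v f
  euler := by
    have := h.euler
    rw [Fintype.card_option, Fintype.card_option]
    omega

end Pool.Agent.Helper1.PG
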