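import Mathlib
import Pool.Agent.Helper1.PG.Insert

/-!
Loops, bridges, simple representations and the edge bound of a plane multigraph.
-/

set_option autoImplicit false

namespace Pool.Agent.Helper1.PG

variable {V F E W : Type}

theorem card_ne [Fintype V] (y : V) [Fintype {v : V // v ≠ y}] :
    Fintype.card {v : V // v ≠ y} + 1 = Fintype.card V := by
  classical
  have h1 : Fintype.card {v : V // v ≠ y} = Fintype.card V - 1 := by
    rw [Fintype.card_subtype_compl]
    simp
  have h2 : 0 < Fintype.card V := Fintype.card_pos_iff.2 ⟨y⟩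
  omega

/-- If all edges are loops then there is at most one vertex. -/
theorem Cn.eq_of_loops {a : E → V × V} (h : Cn a) (hl : ∀ e, (a e).1 = (a e).2) (u v : V) :
    u = v := by
  have := h u v
  induction this with
  | refl => rfl
  | tail _ h2 ih =>
    obtain ⟨e, he | he⟩ := h2
    · rw [ih, ← he.1, ← he.2]; exact hl e
    · rw [ih, ← he.1, ← he.2]; exact (hl e).symm

/-- No edge is a loop both in the graph and in the dual. -/
theorem IsPlane.not_double_loop : ∀ (n : ℕ) (V F E : Type) [Fintype V] [Fintype F] [Fintype E]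
    (a : E → V × V) (b : E → F × F), Fintype.card E = n → IsPlane a b →
    ∀ e, (a e).1 = (a e).2 → (b e).1 ≠ (b e).2 := by
  classical
  intro n
  induction n with
  | zero =>
    intro V F E _ _ _ a b hn _ e
    exact absurd hn (Fintype.card_pos_iff.2 ⟨e⟩).ne'
  | succ n ih =>
    intro V F E _ _ _ a b hn hp e ha hb
    by_cases h1 : ∃ e0, (a e0).1 ≠ (a e0).2
    · obtain ⟨e0, h0⟩ := h1
      have hne : e ≠ e0 := fun h => h0 (h ▸ ha)
      have hc := card_ne e0
      refine ih {v : V // v ≠ (a e0).2} F {e : E // e ≠ e0} (contr a e0 h0) (del b e0) (by omega)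
        (hp.contract h0) ⟨e, hne⟩ ?_ hb
      show merge _ _ h0 (a e).1 = merge _ _ h0 (a e).2
      rw [ha]
    · by_cases h2 : ∃ e0, (b e0).1 ≠ (b e0).2
      · obtain ⟨e0, h0⟩ := h2
        have hne : e ≠ e0 := fun h => h0 (h ▸ hb)
        have hc := card_ne e0
        refine ih V {f : F // f ≠ (b e0).2} {e : E // e ≠ e0} (del a e0) (contr b e0 h0) (by omega)
          (hp.delete h0) ⟨e, hne⟩ ha ?_
        show merge _ _ h0 (b e).1 = merge _ _ h0 (b e).2
        rw [hb]
      · push Not at h1 h2
        have h3 : Fintype.card V ≤ 1 :=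
          Fintype.card_le_one_iff.2 fun u v => hp.conn.eq_of_loops h1 u v
        have h4 : Fintype.card F ≤ 1 :=
          Fintype.card_le_one_iff.2 fun u v => hp.dconn.eq_of_loops h2 u v
        have h5 := hp.euler
        omega

theorem IsPlane.dne_of_loop [Fintype V] [Fintype F] [Fintype E] {a : E → V × V} {b : E → F × F}
    (hp : IsPlane a b) {e : E} (h : (a e).1 = (a e).2) : (b e).1 ≠ (b e).2 :=
  IsPlane.not_double_loop _ V F E a b rfl hp e h

theorem IsPlane.ne_of_dloop [Fintype V] [Fintype F] [Fintype E] {a : E → V × V} {b : E → F × F}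
    (hp : IsPlane a b) {e : E} (h : (b e).1 = (b e).2) : (a e).1 ≠ (a e).2 :=
  fun h2 => hp.dne_of_loop h2 h

/-- A dual loop is a bridge. -/
theorem IsPlane.bridge_of_dloop : ∀ (n : ℕ) (V F E : Type) [Fintype V] [Fintype F] [Fintype E]
    (a : E → V × V) (b : E → F × F), Fintype.card V = n → IsPlane a b →
    ∀ e0, (b e0).1 = (b e0).2 →
      ¬ Relation.ReflTransGen (LkOn a (· ≠ e0)) (a e0).1 (a e0).2 := by
  classical
  intro n
  induction n with
  | zero =>
    intro V F E _ _ _ a b hn _ e
    exact absurd hn (Fintype.card_pos_iff.2 ⟨(a e).1⟩).ne'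
  | succ n ih =>
    intro V F E _ _ _ a b hn hp e0 hb hr
    have hne := hp.ne_of_dloop hb
    obtain ⟨p, q, ⟨e1, he1, he⟩, h2, h3⟩ := exists_step_ne (p := fun z => z = (a e0).1) hr rfl
      (fun h => hne h.symm)
    have hpq : p ≠ q := fun h => h3 (h ▸ h2)
    have h0 : (a e1).1 ≠ (a e1).2 := by
      rcases he with ⟨h6, h7⟩ | ⟨h6, h7⟩
      · rw [h6, h7]; exact hpq
      · rw [h6, h7]; exact hpq.symm
    have hc := card_ne (a e1).2
    refine ih {v : V // v ≠ (a e1).2} F {e : E // e ≠ e1} (contr a e1 h0) (del b e1) (by omega)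
      (hp.contract h0) ⟨e0, he1.symm⟩ hb ?_
    have hm : merge _ _ h0 (a e1).1 = merge _ _ h0 (a e1).2 := by rw [merge_self, merge_of_ne h0 h0]
    have key : ∀ u v, Relation.ReflTransGen (LkOn a (· ≠ e0)) u v →
        Relation.ReflTransGen (LkOn (contr a e1 h0) (· ≠ ⟨e0, he1.symm⟩)) (merge _ _ h0 u)
          (merge _ _ h0 v) := by
      intro u v huv
      induction huv with
      | refl => exact Relation.ReflTransGen.refl
      | @tail w z _ hwz ih =>
        obtain ⟨e, hee, hwe⟩ := hwz
        by_cases h8 : e = e1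
        · rw [h8] at hwe
          have h9 : merge _ _ h0 w = merge _ _ h0 z := by
            rcases hwe with ⟨h1, h2⟩ | ⟨h1, h2⟩
            · exact (congrArg (merge _ _ h0) h1).symm.trans (hm.trans (congrArg (merge _ _ h0) h2))
            · exact (congrArg (merge _ _ h0) h2).symm.trans
                (hm.symm.trans (congrArg (merge _ _ h0) h1))
          rw [← h9]; exact ih
        · refine ih.tail ⟨⟨e, h8⟩, fun h => hee (congrArg Subtype.val h), ?_⟩
          rcases hwe with ⟨h1, h2⟩ | ⟨h1, h2⟩
          · left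
            exact ⟨congrArg (merge _ _ h0) h1, congrArg (merge _ _ h0) h2⟩
          · right
            exact ⟨congrArg (merge _ _ h0) h1, congrArg (merge _ _ h0) h2⟩
    exact key _ _ hr

/-- An edge which is not a bridge has different sides. -/
theorem IsPlane.dne_of_conn [Fintype V] [Fintype F] [Fintype E] {a : E → V × V} {b : E → F × F}
    (hp : IsPlane a b) {e0 : E}
    (h : Relation.ReflTransGen (LkOn a (· ≠ e0)) (a e0).1 (a e0).2) : (b e0).1 ≠ (b e0).2 :=
  fun h2 => IsPlane.bridge_of_dloop _ V F E a b rfl hp e0 h2 h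

/-- Two edges with the same ends. -/
def Par (a : E → V × V) (e e' : E) : Prop :=
  ((a e).1 = (a e').1 ∧ (a e).2 = (a e').2) ∨ ((a e).1 = (a e').2 ∧ (a e).2 = (a e').1)

/-- No loops and no parallel edges. -/
structure Simp (a : E → V × V) : Prop where
  noloop : ∀ e, (a e).1 ≠ (a e).2
  nopar : ∀ e e', Par a e e' → e = e'

/-- Dual degree of a face. -/
noncomputable def dg [Fintype E] (b : E → F × F) (f : F) : ℕ := by
  classical
  exact ∑ e, ((if (b e).1 = f then 1 else 0) + (if (b e).2 = f then 1 else 0))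

theorem sum_dg [Fintype E] [Fintype F] (b : E → F × F) : ∑ f, dg b f = 2 * Fintype.card E := by
  classical
  unfold dg
  rw [Finset.sum_comm]
  have h1 : ∀ e, ∑ f, ((if (b e).1 = f then 1 else 0) + (if (b e).2 = f then 1 else 0)) = 2 := by
    intro e
    rw [Finset.sum_add_distrib, Finset.sum_ite_eq, Finset.sum_ite_eq]
    simp
  rw [Finset.sum_congr rfl fun e _ => h1 e]
  simp [mul_comm]

/-- Multiplicity of the face `f` at the edge `e`. -/
noncomputable def mu (b : E → F × F) (f : F) (e : E) : ℕ := by
  classical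
  exact (if (b e).1 = f then 1 else 0) + (if (b e).2 = f then 1 else 0)

theorem dg_eq [Fintype E] (b : E → F × F) (f : F) : dg b f = ∑ e, mu b f e := rfl

theorem mu_cast (b : E → F × F) (f : F) (e : E) : ((mu b f e : ℕ) : ZMod 2) = st b f e := by
  classical
  unfold mu st ind
  push_cast
  rfl

theorem mu_pos {b : E → F × F} {f : F} {e : E} (h : st b f e ≠ 0) : 1 ≤ mu b f e := by
  by_contra h2
  have h3 : mu b f e = 0 := by omega
  rw [← mu_cast, h3] at h
  simp at h

theorem mu_le (b : E → F × F) (f : F) (e : E) : mu b f e ≤ 2 := by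
  classical
  unfold mu
  split_ifs <;> omega

/-- The number of odd edges gives a lower bound for the degree of a face. -/
theorem le_dg [Fintype E] (b : E → F × F) (f : F) (S : Finset E) (h : ∀ e ∈ S, st b f e ≠ 0) :
    S.card ≤ dg b f := by
  rw [dg_eq]
  calc S.card = ∑ e ∈ S, 1 := by simp
    _ ≤ ∑ e ∈ S, mu b f e := Finset.sum_le_sum fun e he => mu_pos (h e he)
    _ ≤ ∑ e, mu b f e := Finset.sum_le_sum_of_subset (Finset.subset_univ _)

theorem z2_cases (z : ZMod 2) : z = 0 ∨ z = 1 := by revert z; decide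

theorem st_ne_zero_iff {a : E → V × V} {v : V} {e : E} (h : (a e).1 ≠ (a e).2) :
    st a v e ≠ 0 ↔ (a e).1 = v ∨ (a e).2 = v := by
  unfold st
  by_cases h1 : (a e).1 = v
  · have h2 : ¬ (a e).2 = v := fun h2 => h (h1.trans h2.symm)
    rw [ind_true h1, ind_false h2]
    simp [h1]
  · by_cases h2 : (a e).2 = v
    · rw [ind_false h1, ind_true h2]
      simp [h2]
    · rw [ind_false h1, ind_false h2]
      simp [h1, h2]

/-- A second odd edge of the face `f` at a vertex of an odd edge. -/
theorem IsPlane.exists_next [Fintype V] [Fintype F] [Fintype E] {a : E → V × V} {b : E → F × F}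
    (hp : IsPlane a b) (hs : ∀ e, (a e).1 ≠ (a e).2) {f : F} {e : E} {v : V} (hf : st b f e ≠ 0)
    (hv : (a e).1 = v ∨ (a e).2 = v) :
    ∃ e', e' ≠ e ∧ st b f e' ≠ 0 ∧ ((a e').1 = v ∨ (a e').2 = v) := by
  by_contra hc
  push Not at hc
  have h1 := hp.orth v f
  rw [Finset.sum_eq_single e] at h1
  · have h2 := (st_ne_zero_iff (hs e)).2 hv
    rcases mul_eq_zero.1 h1 with h3 | h3
    · exact h2 h3
    · exact hf h3
  · intro e' _ hne
    by_cases h3 : st b f e' = 0
    · rw [h3, mul_zero]
    · have h4 := hc e' hne h3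
      have h5 : st a v e' = 0 := by
        by_contra h6
        rcases (st_ne_zero_iff (hs e')).1 h6 with h7 | h7
        · exact h4.1 h7
        · exact h4.2 h7
      rw [h5, zero_mul]
  · intro h2
    exact absurd (Finset.mem_univ _) h2

/-- If the face `f` has no odd edge then it is the only face. -/
theorem IsPlane.eq_of_even [Fintype V] [Fintype F] [Fintype E] {a : E → V × V} {b : E → F × F}
    (hp : IsPlane a b) {f : F} (h : ∀ e, st b f e = 0) (g : F) : g = f := by
  by_contra hne
  obtain ⟨p, q, ⟨e, he⟩, h2, h3⟩ := exists_step_ne (p := fun z => z = f) (hp.dconn f g) rfl hne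
  subst h2
  have h4 := h e
  unfold st at h4
  rcases he with ⟨h5, h6⟩ | ⟨h5, h6⟩
  · rw [ind_true h5, ind_false (by rw [h6]; exact h3)] at h4
    exact absurd h4 (by decide)
  · rw [ind_false (by rw [h5]; exact h3), ind_true h6] at h4
    exact absurd h4 (by decide)

/-- Faces of a simple plane graph with at least three vertices have degree at least three. -/
theorem IsPlane.three_le_dg [Fintype V] [Fintype F] [Fintype E] {a : E → V × V} {b : E → F × F}
    (hp : IsPlane a b) (hs : Simp a) (hV : 3 ≤ Fintype.card V) (f : F) : 3 ≤ dg b f := by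
  classical
  by_cases h : ∃ e, st b f e ≠ 0
  · obtain ⟨e, he⟩ := h
    obtain ⟨e2, h2, h2f, h2v⟩ := hp.exists_next hs.noloop he (Or.inl rfl)
    obtain ⟨e3, h3, h3f, h3v⟩ := hp.exists_next hs.noloop he (Or.inr rfl)
    have h23 : e2 ≠ e3 := by
      rintro rfl
      apply h2
      symm
      apply hs.nopar
      have hn := hs.noloop e
      rcases h2v with h4 | h4 <;> rcases h3v with h5 | h5
      · exact absurd (h4.symm.trans h5) hn
      · exact Or.inl ⟨h4.symm, h5.symm⟩
      · exact Or.inr ⟨h4.symm, h5.symm⟩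
      · exact absurd (h4.symm.trans h5) hn
    have h4 := le_dg b f {e, e2, e3} (by
      intro x hx
      simp only [Finset.mem_insert, Finset.mem_singleton] at hx
      rcases hx with rfl | rfl | rfl
      · exact he
      · exact h2f
      · exact h3f)
    rw [Finset.card_insert_of_notMem (by simp [Ne.symm h2, Ne.symm h3]),
      Finset.card_insert_of_notMem (by simp [h23]), Finset.card_singleton] at h4
    exact h4
  · push Not at h
    have h1 := hp.eq_of_even h
    have h2 : Fintype.card F = 1 := Fintype.card_eq_one_iff.2 ⟨f, h1⟩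
    have h3 := hp.euler
    have h4 := sum_dg b
    have h5 : ∑ g, dg b g = dg b f := by
      rw [Finset.sum_eq_single f]
      · intro g _ hg; exact absurd (h1 g) hg
      · intro h6; exact absurd (Finset.mem_univ _) h6
    omega

/-- Euler's formula as a sum of charges of the faces. -/
theorem IsPlane.charge [Fintype V] [Fintype F] [Fintype E] {a : E → V × V} {b : E → F × F}
    (hp : IsPlane a b) :
    ∑ f, ((dg b f : ℤ) - 3) = 3 * Fintype.card V - 6 - Fintype.card E := by
  have h1 := sum_dg b
  have h2 := hp.euler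
  rw [Finset.sum_sub_distrib, ← Nat.cast_sum, h1]
  simp only [Finset.sum_const, Finset.card_univ, nsmul_eq_mul]
  push_cast
  have h3 : (Fintype.card V : ℤ) + Fintype.card F = Fintype.card E + 2 := by exact_mod_cast h2
  linarith

theorem IsPlane.card_edge_le [Fintype V] [Fintype F] [Fintype E] {a : E → V × V} {b : E → F × F}
    (hp : IsPlane a b) (hs : Simp a) (hV : 3 ≤ Fintype.card V) :
    Fintype.card E + 6 ≤ 3 * Fintype.card V := by
  have h1 := hp.charge
  have h2 : 0 ≤ ∑ f, ((dg b f : ℤ) - 3) := by
    apply Finset.sum_nonneg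
    intro f _
    have := hp.three_le_dg hs hV f
    have h3 : (3 : ℤ) ≤ dg b f := by exact_mod_cast this
    linarith
  rw [h1] at h2
  have h3 : (0 : ℤ) ≤ 3 * Fintype.card V - 6 - Fintype.card E := h2
  omega

end Pool.Agent.Helper1.PG
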