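import Mathlib
import Pool.Agent.Helper1.PG.Euler

/-!
Even edge sets are sums of faces; path sums; faces and stars of 2-connected plane graphs.
-/

set_option autoImplicit false

namespace Pool.Agent.Helper1.PG

variable {V F E W : Type}

/-- `Z` is an even edge set. -/
def EvenZ [Fintype E] (a : E → V × V) (Z : E → ZMod 2) : Prop :=
  ∀ v, ∑ e, st a v e * Z e = 0

theorem EvenZ.add [Fintype E] {a : E → V × V} {Z Z' : E → ZMod 2} (h : EvenZ a Z)
    (h' : EvenZ a Z') : EvenZ a (fun e => Z e + Z' e) := by
  intro v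
  simp only [mul_add]
  rw [Finset.sum_add_distrib, h v, h' v, add_zero]

/-- The boundary of a face is even. -/
theorem IsPlane.even_face [Fintype V] [Fintype F] [Fintype E] {a : E → V × V} {b : E → F × F}
    (hp : IsPlane a b) (f : F) : EvenZ a (st b f) := fun v => hp.orth v f

/-- The sum of the faces with side `s`. -/
def cutZ (b : E → F × F) (s : F → ZMod 2) (e : E) : ZMod 2 := s (b e).1 + s (b e).2

theorem cutZ_eq_sum [Fintype F] (b : E → F × F) (s : F → ZMod 2) (e : E) :
    cutZ b s e = ∑ f, s f * st b f e := by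
  classical
  unfold cutZ st
  simp only [mul_add]
  rw [Finset.sum_add_distrib]
  congr 1
  · rw [Finset.sum_eq_single (b e).1]
    · rw [ind_true rfl, mul_one]
    · intro f _ hf
      rw [ind_false (Ne.symm hf), mul_zero]
    · intro h; exact absurd (Finset.mem_univ _) h
  · rw [Finset.sum_eq_single (b e).2]
    · rw [ind_true rfl, mul_one]
    · intro f _ hf
      rw [ind_false (Ne.symm hf), mul_zero]
    · intro h; exact absurd (Finset.mem_univ _) h

theorem IsPlane.even_cut [Fintype V] [Fintype F] [Fintype E] {a : E → V × V} {b : E → F × F}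
    (hp : IsPlane a b) (s : F → ZMod 2) : EvenZ a (cutZ b s) := by
  intro v
  simp only [cutZ_eq_sum, Finset.mul_sum]
  rw [Finset.sum_comm]
  apply Finset.sum_eq_zero
  intro f _
  have : ∀ e, st a v e * (s f * st b f e) = s f * (st a v e * st b f e) := fun e => by ring
  rw [Finset.sum_congr rfl fun e _ => this e, ← Finset.mul_sum, hp.orth v f, mul_zero]

/-- A bridge does not lie in an even set. -/
theorem EvenZ.bridge [Fintype V] [Fintype E] {a : E → V × V} {Z : E → ZMod 2} (hZ : EvenZ a Z)
    {e0 : E} (h : ¬ Relation.ReflTransGen (LkOn a (· ≠ e0)) (a e0).1 (a e0).2) : Z e0 = 0 := by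
  classical
  set x := (a e0).1 with hx
  set y := (a e0).2 with hy
  set X : Finset V :=
    Finset.univ.filter (fun z => Relation.ReflTransGen (LkOn a (· ≠ e0)) x z) with hX
  have hxX : x ∈ X := Finset.mem_filter.2 ⟨Finset.mem_univ _, Relation.ReflTransGen.refl⟩
  have hyX : y ∉ X := fun h1 => h (Finset.mem_filter.1 h1).2
  have hcl : ∀ e, e ≠ e0 → ((a e).1 ∈ X ↔ (a e).2 ∈ X) := by
    intro e hne
    simp only [hX, Finset.mem_filter, Finset.mem_univ, true_and]
    constructor
    · intro h1
      exact Relation.ReflTransGen.tail h1 ⟨e, hne, Or.inl ⟨rfl, rfl⟩⟩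
    · intro h1
      exact Relation.ReflTransGen.tail h1 ⟨e, hne, Or.inr ⟨rfl, rfl⟩⟩
  have h1 : ∑ v ∈ X, ∑ e, st a v e * Z e = 0 := Finset.sum_eq_zero fun v _ => hZ v
  rw [Finset.sum_comm] at h1
  simp only [← Finset.sum_mul] at h1
  rw [Finset.sum_eq_single e0] at h1
  · rw [sum_st, ← hx, ← hy, ind_true hxX, ind_false hyX, add_zero, one_mul] at h1
    exact h1
  · intro e _ hne
    rw [sum_st, ind_congr (hcl e hne), z2_add_self, zero_mul]
  · intro h2
    exact absurd (Finset.mem_univ _) h2

/-- Jordan: an even edge set is a sum of faces. -/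
theorem IsPlane.jordan : ∀ (n : ℕ) (V F E : Type) [Fintype V] [Fintype F] [Fintype E]
    (a : E → V × V) (b : E → F × F), Fintype.card E = n → IsPlane a b →
    ∀ Z : E → ZMod 2, EvenZ a Z → ∃ s : F → ZMod 2, ∀ e, Z e = cutZ b s e := by
  classical
  intro n
  induction n with
  | zero =>
    intro V F E _ _ _ a b hn hp Z hZ
    exact ⟨fun _ => 0, fun e => absurd hn (Fintype.card_pos_iff.2 ⟨e⟩).ne'⟩
  | succ n ih =>
    intro V F E _ _ _ a b hn hp Z hZ
    by_cases h2 : ∃ e0, (b e0).1 ≠ (b e0).2
    · obtain ⟨e0, h0⟩ := h2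
      -- the case `Z e0 = 0`
      have key : ∀ Z : E → ZMod 2, EvenZ a Z → Z e0 = 0 →
          ∃ s : F → ZMod 2, ∀ e, Z e = cutZ b s e := by
        intro Z hZ hZ0
        have hc := card_ne e0
        obtain ⟨s, hs⟩ := ih V {f : F // f ≠ (b e0).2} {e : E // e ≠ e0} (del a e0)
          (contr b e0 h0) (by omega) (hp.delete h0) (fun e => Z e) (by
            intro v
            have h1 := hZ v
            rw [Fintype.sum_eq_add_sum_subtype_ne _ e0, hZ0, mul_zero, zero_add] at h1
            exact h1)
        refine ⟨fun f => s (merge _ _ h0 f), ?_⟩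
        intro e
        by_cases he : e = e0
        · rw [he, hZ0]
          show 0 = s (merge _ _ h0 (b e0).1) + s (merge _ _ h0 (b e0).2)
          rw [merge_self, merge_of_ne h0 h0, z2_add_self]
        · exact hs ⟨e, he⟩
      rcases z2_cases (Z e0) with h1 | h1
      · exact key Z hZ h1
      · obtain ⟨s, hs⟩ := key (fun e => Z e + st b (b e0).1 e) (hZ.add (hp.even_face _)) (by
          show Z e0 + st b (b e0).1 e0 = 0
          unfold st
          rw [h1, ind_true rfl, ind_false (Ne.symm h0)]
          decide)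
        refine ⟨fun f => s f + ind (f = (b e0).1), ?_⟩
        intro e
        have h3 := hs e
        have h4 : Z e = cutZ b s e + st b (b e0).1 e := by
          rw [← h3]
          show Z e = Z e + st b (b e0).1 e + st b (b e0).1 e
          rw [add_assoc, z2_add_self, add_zero]
        rw [h4]
        unfold cutZ st
        ring
    · push Not at h2
      refine ⟨fun _ => 0, ?_⟩
      intro e
      show Z e = 0 + 0
      rw [add_zero]
      exact hZ.bridge (IsPlane.bridge_of_dloop _ V F E a b rfl hp e (h2 e))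

theorem IsPlane.exists_side [Fintype V] [Fintype F] [Fintype E] {a : E → V × V} {b : E → F × F}
    (hp : IsPlane a b) {Z : E → ZMod 2} (hZ : EvenZ a Z) :
    ∃ s : F → ZMod 2, ∀ e, Z e = cutZ b s e :=
  IsPlane.jordan _ V F E a b rfl hp Z hZ

/-- Path sums. -/
theorem exists_path_sum [Fintype E] {a : E → V × V} {P : E → Prop} {x y : V}
    (h : Relation.ReflTransGen (LkOn a P) x y) :
    ∃ Z : E → ZMod 2, (∀ e, Z e ≠ 0 → P e) ∧
      ∀ v, ∑ e, st a v e * Z e = ind (x = v) + ind (y = v) := by
  classical
  induction h with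
  | refl =>
    refine ⟨fun _ => 0, fun e h => absurd rfl h, fun v => ?_⟩
    rw [z2_add_self]
    simp
  | @tail w z _ h2 ih =>
    obtain ⟨Z, hZ1, hZ2⟩ := ih
    obtain ⟨e, hP, he⟩ := h2
    refine ⟨fun e' => Z e' + ind (e' = e), ?_, ?_⟩
    · intro e' he'
      by_cases h3 : e' = e
      · rw [h3]; exact hP
      · apply hZ1
        intro h4
        apply he'
        show Z e' + ind (e' = e) = 0
        rw [h4, ind_false h3, add_zero]
    · intro v
      simp only [mul_add]
      rw [Finset.sum_add_distrib, hZ2 v, Finset.sum_eq_single e]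
      · rw [ind_true rfl, mul_one]
        have h5 : st a v e = ind (w = v) + ind (z = v) := by
          unfold st
          rcases he with ⟨h6, h7⟩ | ⟨h6, h7⟩
          · rw [h6, h7]
          · rw [h6, h7, add_comm]
        rw [h5]
        have e1 := z2_add_self (ind (w = v))
        linear_combination e1
      · intro e' _ hne
        rw [ind_false hne, mul_zero]
      · intro h6; exact absurd (Finset.mem_univ _) h6

/-- Incidence. -/
def Inc (a : E → V × V) (v : V) (e : E) : Prop := (a e).1 = v ∨ (a e).2 = v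

theorem st_of_not_inc {a : E → V × V} {v : V} {e : E} (h : ¬ Inc a v e) : st a v e = 0 := by
  unfold Inc at h
  push Not at h
  unfold st
  rw [ind_false h.1, ind_false h.2, add_zero]

theorem st_of_inc {a : E → V × V} {v : V} {e : E} (h0 : (a e).1 ≠ (a e).2) (h : Inc a v e) :
    st a v e = 1 := by
  rcases z2_cases (st a v e) with h1 | h1
  · exact absurd h1 ((st_ne_zero_iff h0).2 h)
  · exact h1

theorem inc_of_st {a : E → V × V} {v : V} {e : E} (h : st a v e ≠ 0) : Inc a v e := by
  by_contra h1
  exact h (st_of_not_inc h1)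

/-- A plane graph without loops, connected after the deletion of any vertex, with at least two
edges. -/
structure TwoConn [Fintype V] [Fintype F] [Fintype E] (a : E → V × V) (b : E → F × F) : Prop where
  plane : IsPlane a b
  noloop : ∀ e, (a e).1 ≠ (a e).2
  conn : ∀ v x y, x ≠ v → y ≠ v → Relation.ReflTransGen (LkOn a (fun e => ¬ Inc a v e)) x y
  two : ∀ e : E, ∃ e', e' ≠ e

/-- The other end. -/
theorem exists_other {a : E → V × V} (h0 : ∀ e, (a e).1 ≠ (a e).2) {v : V} {e : E}
    (h : Inc a v e) : ∃ x, x ≠ v ∧ ((a e).1 = v ∧ (a e).2 = x ∨ (a e).1 = x ∧ (a e).2 = v) := by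
  rcases h with h | h
  · exact ⟨(a e).2, fun h1 => h0 e (h.trans h1.symm), Or.inl ⟨h, rfl⟩⟩
  · exact ⟨(a e).1, fun h1 => h0 e (h1.trans h.symm), Or.inr ⟨rfl, h⟩⟩

section Two

variable [Fintype V] [Fintype F] [Fintype E] {a : E → V × V} {b : E → F × F}

/-- In a 2-connected graph two edges at a vertex lie on a cycle. -/
theorem TwoConn.exists_cycle (h : TwoConn a b) {v : V} {e1 e2 : E} (h1 : Inc a v e1)
    (h2 : Inc a v e2) (h12 : e1 ≠ e2) :
    ∃ Z : E → ZMod 2, EvenZ a Z ∧ Z e1 = 1 ∧ Z e2 = 1 ∧
      ∀ e, Inc a v e → e ≠ e1 → e ≠ e2 → Z e = 0 := by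
  classical
  obtain ⟨x, hx, hx'⟩ := exists_other h.noloop h1
  obtain ⟨y, hy, hy'⟩ := exists_other h.noloop h2
  obtain ⟨Z, hZ1, hZ2⟩ := exists_path_sum (h.conn v x y hx hy)
  have hZv : ∀ e, Inc a v e → Z e = 0 := by
    intro e he
    by_contra h3
    exact hZ1 e h3 he
  refine ⟨fun e => Z e + (ind (e = e1) + ind (e = e2)), ?_, ?_, ?_, ?_⟩
  · intro w
    simp only [mul_add]
    rw [Finset.sum_add_distrib, Finset.sum_add_distrib, hZ2 w, Finset.sum_eq_single e1,
      Finset.sum_eq_single e2]
    · rw [ind_true rfl, ind_true rfl, mul_one, mul_one]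
      have h5 : st a w e1 = ind (v = w) + ind (x = w) := by
        unfold st
        rcases hx' with ⟨h6, h7⟩ | ⟨h6, h7⟩
        · rw [h6, h7]
        · rw [h6, h7, add_comm]
      have h6 : st a w e2 = ind (v = w) + ind (y = w) := by
        unfold st
        rcases hy' with ⟨h6, h7⟩ | ⟨h6, h7⟩
        · rw [h6, h7]
        · rw [h6, h7, add_comm]
      rw [h5, h6]
      have e1 := z2_add_self (ind (v = w))
      have e2 := z2_add_self (ind (x = w))
      have e3 := z2_add_self (ind (y = w))
      linear_combination e1 + e2 + e3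
    · intro e _ hne; rw [ind_false hne, mul_zero]
    · intro h6; exact absurd (Finset.mem_univ _) h6
    · intro e _ hne; rw [ind_false hne, mul_zero]
    · intro h6; exact absurd (Finset.mem_univ _) h6
  · show Z e1 + (ind (e1 = e1) + ind (e1 = e2)) = 1
    rw [hZv e1 h1, ind_true rfl, ind_false h12]; decide
  · show Z e2 + (ind (e2 = e1) + ind (e2 = e2)) = 1
    rw [hZv e2 h2, ind_true rfl, ind_false h12.symm]; decide
  · intro e he hne1 hne2
    show Z e + (ind (e = e1) + ind (e = e2)) = 0
    rw [hZv e he, ind_false hne1, ind_false hne2]; decide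

/-- Every vertex of a 2-connected graph with an edge has a second edge. -/
theorem TwoConn.exists_second (h : TwoConn a b) {v : V} {e : E} (he : Inc a v e) :
    ∃ e', e' ≠ e ∧ Inc a v e' := by
  by_contra hc
  push Not at hc
  obtain ⟨x, hx, hx'⟩ := exists_other h.noloop he
  -- any other vertex is `x`
  have hall : ∀ w, w ≠ v → w = x := by
    intro w hw
    by_contra hwx
    obtain ⟨p, q, ⟨e1, he1, he1'⟩, h2, h3⟩ := exists_step_ne (p := fun z => z = v)
      (h.conn x v w (Ne.symm hx) hwx) rfl (fun h => hw h)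
    subst h2
    have hi : Inc a p e1 := by
      rcases he1' with h4 | h4
      · exact Or.inl h4.1
      · exact Or.inr h4.2
    have h5 : e1 = e := by
      by_contra h6
      exact hc e1 h6 hi
    apply he1
    rw [h5]
    rcases hx' with h6 | h6
    · exact Or.inr h6.2
    · exact Or.inl h6.1
  obtain ⟨e', he'⟩ := h.two e
  have h1 := hc e' he'
  unfold Inc at h1
  push Not at h1
  have h2 := hall _ h1.1
  have h3 := hall _ h1.2
  exact h.noloop e' (h2.trans h3.symm)

/-- A 2-connected plane graph has no bridges: every edge has two different sides. -/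
theorem TwoConn.dnoloop (h : TwoConn a b) (e : E) : (b e).1 ≠ (b e).2 := by
  classical
  intro hb
  obtain ⟨e', h1, h2⟩ := h.exists_second (v := (a e).1) (e := e) (Or.inl rfl)
  obtain ⟨Z, hZ, hZ1, _, _⟩ := h.exists_cycle (v := (a e).1) (e1 := e) (e2 := e') (Or.inl rfl) h2
    (Ne.symm h1)
  have h3 := hZ.bridge (IsPlane.bridge_of_dloop _ V F E a b rfl h.plane e hb)
  rw [hZ1] at h3
  exact absurd h3 (by decide)

theorem TwoConn.st_face (h : TwoConn a b) (f : F) (e : E) : st b f e ≠ 0 ↔ Inc b f e :=
  st_ne_zero_iff (h.dnoloop e)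

/-- The boundary of a face has no proper nonempty even subset. -/
theorem TwoConn.face_min (h : TwoConn a b) {f : F} {Z : E → ZMod 2} (hZ : EvenZ a Z)
    (hsub : ∀ e, Z e ≠ 0 → Inc b f e) : (∀ e, Z e = 0) ∨ ∀ e, Z e = st b f e := by
  classical
  obtain ⟨s0, hs0⟩ := h.plane.exists_side hZ
  -- normalise the side of `f`
  set s : F → ZMod 2 := fun g => s0 g + s0 f with hs
  have hsZ : ∀ e, Z e = cutZ b s e := by
    intro e
    rw [hs0 e]
    unfold cutZ
    rw [hs]
    have e1 := z2_add_self (s0 f)
    linear_combination -e1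
  have hsf : s f = 0 := z2_add_self _
  by_contra hc
  push Not at hc
  obtain ⟨⟨e1, he1⟩, e0, he0⟩ := hc
  -- an edge with both sides different from `f` has equal values of `s`
  have hin : ∀ e, (b e).1 ≠ f → (b e).2 ≠ f → s (b e).1 = s (b e).2 := by
    intro e h1 h2
    by_contra h3
    have h4 : Z e ≠ 0 := by
      rw [hsZ e]
      unfold cutZ
      intro h5
      apply h3
      have := z2_add_self (s (b e).2)
      linear_combination h5 - this
    rcases hsub e h4 with h5 | h5
    · exact h1 h5
    · exact h2 h5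
  -- the edges with a side in `s = 1`
  let P : E → Prop := fun e => s (b e).1 = 1 ∨ s (b e).2 = 1
  have hP1 : P e1 := by
    by_contra h1
    have h1' : ¬ (s (b e1).1 = 1 ∨ s (b e1).2 = 1) := h1
    push Not at h1'
    apply he1
    rw [hsZ e1]
    unfold cutZ
    rcases z2_cases (s (b e1).1) with h2 | h2
    · rcases z2_cases (s (b e1).2) with h3 | h3
      · rw [h2, h3]; decide
      · exact absurd h3 h1'.2
    · exact absurd h2 h1'.1
  have hP0 : ¬ P e0 := by
    intro h1
    apply he0
    have hsides : ((b e0).1 = f ∧ (b e0).2 ≠ f ∧ s (b e0).2 = 1) ∨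
        ((b e0).2 = f ∧ (b e0).1 ≠ f ∧ s (b e0).1 = 1) ∨
        ((b e0).1 ≠ f ∧ (b e0).2 ≠ f) := by
      by_cases h2 : (b e0).1 = f
      · left
        refine ⟨h2, fun h3 => h.dnoloop e0 (h2.trans h3.symm), ?_⟩
        rcases h1 with h1 | h1
        · rw [h2, hsf] at h1; exact absurd h1 (by decide)
        · exact h1
      · by_cases h3 : (b e0).2 = f
        · right; left
          refine ⟨h3, h2, ?_⟩
          rcases h1 with h1 | h1
          · exact h1
          · rw [h3, hsf] at h1; exact absurd h1 (by decide)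
        · right; right; exact ⟨h2, h3⟩
    rcases hsides with ⟨h2, h3, h4⟩ | ⟨h2, h3, h4⟩ | ⟨h2, h3⟩
    · rw [hsZ e0]
      unfold cutZ st
      rw [h4, h2, hsf, ind_true rfl, ind_false h3]
      decide
    · rw [hsZ e0]
      unfold cutZ st
      rw [h4, h2, hsf, ind_true rfl, ind_false h3]
      decide
    · rw [hsZ e0]
      unfold cutZ st
      rw [hin e0 h2 h3, z2_add_self, ind_false h2, ind_false h3, add_zero]
  -- the restriction of an even set to `P` is even
  have hres : ∀ Z' : E → ZMod 2, EvenZ a Z' → EvenZ a (fun e => Z' e * ind (P e)) := by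
    intro Z' hZ'
    obtain ⟨t, ht⟩ := h.plane.exists_side hZ'
    have : (fun e => Z' e * ind (P e)) = cutZ b (fun g => if s g = 1 then t g else t f) := by
      funext e
      rw [ht e]
      unfold cutZ
      show (t (b e).1 + t (b e).2) * ind (s (b e).1 = 1 ∨ s (b e).2 = 1) =
        (if s (b e).1 = 1 then t (b e).1 else t f) + (if s (b e).2 = 1 then t (b e).2 else t f)
      by_cases h1 : s (b e).1 = 1
      · by_cases h2 : s (b e).2 = 1
        · rw [ind_true (Or.inl h1), if_pos h1, if_pos h2, mul_one]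
        · have h3 : (b e).2 = f := by
            by_contra h3
            have h4 : (b e).1 ≠ f := by
              intro h5; rw [h5, hsf] at h1; exact absurd h1 (by decide)
            exact h2 ((hin e h4 h3).symm.trans h1)
          rw [ind_true (Or.inl h1), if_pos h1, if_neg h2, mul_one, h3]
      · by_cases h2 : s (b e).2 = 1
        · have h3 : (b e).1 = f := by
            by_contra h3
            have h4 : (b e).2 ≠ f := by
              intro h5; rw [h5, hsf] at h2; exact absurd h2 (by decide)
            exact h1 ((hin e h3 h4).trans h2)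
          rw [ind_true (Or.inr h2), if_neg h1, if_pos h2, mul_one, h3]
        · rw [ind_false (by tauto), if_neg h1, if_neg h2, mul_zero, z2_add_self]
    rw [this]
    exact h.plane.even_cut _
  -- a vertex with an edge in `P` and an edge not in `P`
  have hmix : ∃ v e e', Inc a v e ∧ Inc a v e' ∧ P e ∧ ¬ P e' := by
    by_contra hno
    push Not at hno
    have hstep : ∀ u w, Lk a u w → (∃ e, Inc a u e ∧ P e) → (∃ e, Inc a w e ∧ P e) := by
      rintro u w ⟨e', he'⟩ ⟨e, he, hPe⟩
      have hu : Inc a u e' := by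
        rcases he' with h4 | h4
        · exact Or.inl h4.1
        · exact Or.inr h4.2
      have hw : Inc a w e' := by
        rcases he' with h4 | h4
        · exact Or.inr h4.2
        · exact Or.inl h4.1
      exact ⟨e', hw, hno u e e' he hu hPe⟩
    have hall : ∀ u w, Relation.ReflTransGen (Lk a) u w → (∃ e, Inc a u e ∧ P e) →
        (∃ e, Inc a w e ∧ P e) := by
      intro u w huw hu
      induction huw with
      | refl => exact hu
      | tail _ h2 ih2 => exact hstep _ _ h2 ih2
    obtain ⟨e, he, hPe⟩ := hall (a e1).1 (a e0).1 (h.plane.conn _ _) ⟨e1, Or.inl rfl, hP1⟩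
    exact hP0 (hno (a e0).1 e e0 he (Or.inl rfl) hPe)
  obtain ⟨v, e, e', hve, hve', hPe, hPe'⟩ := hmix
  have hne : e ≠ e' := fun h1 => hPe' (h1 ▸ hPe)
  obtain ⟨C, hC, hC1, hC2, hC3⟩ := h.exists_cycle hve hve' hne
  have h1 := hres C hC v
  rw [Finset.sum_eq_single e] at h1
  · rw [st_of_inc (h.noloop e) hve, one_mul] at h1
    change C e * ind (P e) = 0 at h1
    rw [hC1, ind_true hPe] at h1
    exact absurd h1 (by decide)
  · intro e2 _ hne2
    by_cases h3 : Inc a v e2
    · by_cases h4 : e2 = e'
      · rw [h4]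
        show st a v e' * (C e' * ind (P e')) = 0
        rw [ind_false hPe', mul_zero, mul_zero]
      · show st a v e2 * (C e2 * ind (P e2)) = 0
        rw [hC3 e2 h3 hne2 h4, zero_mul, mul_zero]
    · rw [st_of_not_inc h3, zero_mul]
  · intro h2; exact absurd (Finset.mem_univ _) h2

end Two

section Jn

variable {E : Type} {a : E → V × V}

/-- The edge `e` joins `u` and `v`. -/
def Jn (a : E → V × V) (u v : V) (e : E) : Prop :=
  (a e).1 = u ∧ (a e).2 = v ∨ (a e).1 = v ∧ (a e).2 = u

theorem Jn.symm {u v : V} {e : E} (h : Jn a u v e) : Jn a v u e := by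
  rcases h with h | h
  · exact Or.inr h
  · exact Or.inl h

theorem Jn.inc {u v : V} {e : E} (h : Jn a u v e) : Inc a u e := by
  rcases h with h | h
  · exact Or.inl h.1
  · exact Or.inr h.2

theorem Jn.inc' {u v : V} {e : E} (h : Jn a u v e) : Inc a v e := h.symm.inc

theorem Jn.of_inc {u v : V} {e : E} (h : Inc a u e) (h' : Inc a v e) (hne : u ≠ v) :
    Jn a u v e := by
  rcases h with h | h <;> rcases h' with h' | h'
  · exact absurd (h.symm.trans h') hne
  · exact Or.inl ⟨h, h'⟩
  · exact Or.inr ⟨h', h⟩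
  · exact absurd (h.symm.trans h') hne

theorem Jn.unique (hs : Simp a) {u v : V} {e e' : E} (h : Jn a u v e) (h' : Jn a u v e') :
    e = e' := by
  apply hs.nopar
  rcases h with h | h <;> rcases h' with h' | h'
  · exact Or.inl ⟨h.1.trans h'.1.symm, h.2.trans h'.2.symm⟩
  · exact Or.inr ⟨h.1.trans h'.2.symm, h.2.trans h'.1.symm⟩
  · exact Or.inr ⟨h.1.trans h'.2.symm, h.2.trans h'.1.symm⟩
  · exact Or.inl ⟨h.1.trans h'.1.symm, h.2.trans h'.2.symm⟩

theorem Jn.eq_right (hl : ∀ e, (a e).1 ≠ (a e).2) {u v w : V} {e : E} (h : Jn a u v e)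
    (h' : Jn a u w e) : v = w := by
  rcases h with h | h <;> rcases h' with h' | h'
  · exact h.2.symm.trans h'.2
  · exact absurd (h.1.trans h'.2.symm) (hl e)
  · exact absurd (h'.1.trans h.2.symm) (hl e)
  · exact h.1.symm.trans h'.1

end Jn

end Pool.Agent.Helper1.PG
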