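import Mathlib
import Pool.Agent.Helper1.PG.Jordan

/-!
Plane multigraphs with connected face boundaries.
-/

set_option autoImplicit false

namespace Pool.Agent.Helper1.PG

variable {V F E W : Type}

/-- All face boundaries are connected. -/
def FC (a : E → V × V) (b : E → F × F) : Prop :=
  ∀ f e e', Inc b f e → Inc b f e' →
    Relation.ReflTransGen (LkOn a (Inc b f)) (a e).1 (a e').1

/-- A plane connected multigraph with connected face boundaries. -/
structure IsPl [Fintype V] [Fintype F] [Fintype E] (a : E → V × V) (b : E → F × F) : Prop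
    extends IsPlane a b where
  fc : FC a b

theorem lkOn_self {a : E → V × V} {P : E → Prop} {e : E} (h : P e) :
    LkOn a P (a e).1 (a e).2 := ⟨e, h, Or.inl ⟨rfl, rfl⟩⟩

/-- Connectedness of the stars in the dual. -/
theorem IsPl.fc_dual [Fintype V] [Fintype F] [Fintype E] {a : E → V × V} {b : E → F × F}
    (h : IsPl a b) : FC b a := by
  classical
  intro x e e' he he'
  by_contra hcon
  -- faces reachable from `(b e).1` inside the star of `x`
  set R : F → Prop := fun g => Relation.ReflTransGen (LkOn b (Inc a x)) (b e).1 g with hR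
  have hR0 : R (b e).1 := Relation.ReflTransGen.refl
  have hR1 : ¬ R (b e').1 := hcon
  have hRl : ∀ d, Inc a x d → (R (b d).1 ↔ R (b d).2) := by
    intro d hd
    constructor
    · intro h1; exact Relation.ReflTransGen.tail h1 ⟨d, hd, Or.inl ⟨rfl, rfl⟩⟩
    · intro h1; exact Relation.ReflTransGen.tail h1 ⟨d, hd, Or.inr ⟨rfl, rfl⟩⟩
  have hRg : ∀ d g, Inc a x d → Inc b g d → (R g ↔ R (b d).1) := by
    intro d g hd hg
    rcases hg with hg | hg
    · rw [← hg]
    · rw [← hg]; exact (hRl d hd).symm
  set Z : E → ZMod 2 := fun d => st a x d * ind (R (b d).1) with hZ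
  have hZeven : EvenZ b Z := by
    intro g
    by_cases hg : R g
    · have h1 : ∀ d, st b g d * Z d = st a x d * st b g d := by
        intro d
        by_cases h2 : Inc a x d
        · by_cases h3 : Inc b g d
          · show st b g d * (st a x d * ind (R (b d).1)) = _
            rw [ind_true ((hRg d g h2 h3).1 hg)]
            ring
          · rw [st_of_not_inc h3, zero_mul, mul_zero]
        · show st b g d * (st a x d * ind (R (b d).1)) = _
          rw [st_of_not_inc h2]; ring
      rw [Finset.sum_congr rfl fun d _ => h1 d]
      exact h.orth x g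
    · apply Finset.sum_eq_zero
      intro d _
      by_cases h2 : Inc a x d
      · by_cases h3 : Inc b g d
        · show st b g d * (st a x d * ind (R (b d).1)) = 0
          rw [ind_false (fun h4 => hg ((hRg d g h2 h3).2 h4))]
          ring
        · rw [st_of_not_inc h3, zero_mul]
      · show st b g d * (st a x d * ind (R (b d).1)) = 0
        rw [st_of_not_inc h2]; ring
  obtain ⟨s0, hs0⟩ := h.toIsPlane.symm.exists_side hZeven
  set s : V → ZMod 2 := fun g => s0 g + s0 x with hs
  have hsZ : ∀ d, Z d = s (a d).1 + s (a d).2 := by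
    intro d
    rw [hs0 d]
    unfold cutZ
    rw [hs]
    linear_combination -(z2_add_self (s0 x))
  have hsx : s x = 0 := z2_add_self _
  -- the class of an edge
  set T : E → Prop := fun d => s (a d).1 = 1 ∨ s (a d).2 = 1 ∨
    ((a d).1 = x ∧ (a d).2 = x ∧ R (b d).1) with hT
  -- edges at a vertex `v ≠ x` have class `s v = 1`
  have hTv : ∀ v d, v ≠ x → Inc a v d → (T d ↔ s v = 1) := by
    intro v d hv hd
    have hoff : ∀ y z, (((a d).1 = y ∧ (a d).2 = z) ∨ ((a d).1 = z ∧ (a d).2 = y)) → y ≠ x →
        z ≠ x → s y = s z := by
      intro y z hyz hy hz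
      have h1 : Z d = 0 := by
        show st a x d * ind (R (b d).1) = 0
        rw [st_of_not_inc (by
          rintro (h2 | h2)
          · rcases hyz with h3 | h3
            · exact hy (h3.1.symm.trans h2)
            · exact hz (h3.1.symm.trans h2)
          · rcases hyz with h3 | h3
            · exact hz (h3.2.symm.trans h2)
            · exact hy (h3.2.symm.trans h2)), zero_mul]
      rw [hsZ d] at h1
      rcases hyz with h3 | h3
      · rw [h3.1, h3.2] at h1
        linear_combination h1 - z2_add_self (s z)
      · rw [h3.1, h3.2] at h1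
        linear_combination h1 - z2_add_self (s z)
    rcases hd with hd | hd
    · by_cases h2 : (a d).2 = x
      · constructor
        · rintro (h3 | h3 | h3)
          · rw [← hd]; exact h3
          · rw [h2, hsx] at h3; exact absurd h3 (by decide)
          · exact absurd (hd.symm.trans h3.1) hv
        · intro h3; left; rw [hd]; exact h3
      · have h4 := hoff v (a d).2 (Or.inl ⟨hd, rfl⟩) hv h2
        constructor
        · rintro (h3 | h3 | h3)
          · rw [← hd]; exact h3
          · rw [h4]; exact h3
          · exact absurd h3.2.1 h2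
        · intro h3; left; rw [hd]; exact h3
    · by_cases h2 : (a d).1 = x
      · constructor
        · rintro (h3 | h3 | h3)
          · rw [h2, hsx] at h3; exact absurd h3 (by decide)
          · rw [← hd]; exact h3
          · exact absurd (hd.symm.trans h3.2.1) hv
        · intro h3; right; left; rw [hd]; exact h3
      · have h4 := hoff v (a d).1 (Or.inr ⟨rfl, hd⟩) hv h2
        constructor
        · rintro (h3 | h3 | h3)
          · rw [h4]; exact h3
          · rw [← hd]; exact h3
          · exact absurd h3.1 h2
        · intro h3; right; left; rw [hd]; exact h3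
  -- edges at `x` have class `R`
  have hTx : ∀ d, Inc a x d → (T d ↔ R (b d).1) := by
    intro d hd
    by_cases hl : (a d).1 = x ∧ (a d).2 = x
    · constructor
      · rintro (h3 | h3 | h3)
        · rw [hl.1, hsx] at h3; exact absurd h3 (by decide)
        · rw [hl.2, hsx] at h3; exact absurd h3 (by decide)
        · exact h3.2.2
      · intro h3; exact Or.inr (Or.inr ⟨hl.1, hl.2, h3⟩)
    · have h1 : (a d).1 ≠ (a d).2 := by
        intro h2
        apply hl
        rcases hd with hd | hd
        · exact ⟨hd, h2.symm.trans hd⟩
        · exact ⟨h2.trans hd, hd⟩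
      have h2 : Z d = ind (R (b d).1) := by
        show st a x d * ind (R (b d).1) = _
        rw [st_of_inc h1 hd, one_mul]
      have h3 : T d ↔ s (a d).1 + s (a d).2 = 1 := by
        rcases hd with hd | hd
        · rw [hd, hsx, zero_add]
          constructor
          · rintro (h3 | h3 | h3)
            · rw [hd, hsx] at h3; exact absurd h3 (by decide)
            · exact h3
            · exact absurd ⟨h3.1, h3.2.1⟩ hl
          · intro h3; exact Or.inr (Or.inl h3)
        · rw [hd, hsx, add_zero]
          constructor
          · rintro (h3 | h3 | h3)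
            · exact h3
            · rw [hd, hsx] at h3; exact absurd h3 (by decide)
            · exact absurd ⟨h3.1, h3.2.1⟩ hl
          · intro h3; exact Or.inl h3
      rw [h3, ← hsZ d, h2]
      by_cases h4 : R (b d).1
      · rw [ind_true h4]; simp [h4]
      · rw [ind_false h4]; simp [h4]
  -- two edges of a face at a common vertex have the same class
  have hcorner : ∀ v d d' g, Inc a v d → Inc a v d' → Inc b g d → Inc b g d' → (T d ↔ T d') := by
    intro v d d' g h1 h2 h3 h4
    by_cases hv : v = x
    · rw [hv] at h1 h2
      rw [hTx d h1, hTx d' h2, ← hRg d g h1 h3, ← hRg d' g h2 h4]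
    · rw [hTv v d hv h1, hTv v d' hv h2]
  -- all edges of a face have the same class
  have hpure : ∀ g d d', Inc b g d → Inc b g d' → (T d ↔ T d') := by
    intro g d d' hd hd'
    have h1 := h.fc g d d' hd hd'
    have key : ∀ y z, Relation.ReflTransGen (LkOn a (Inc b g)) y z →
        ∀ p q, Inc a y p → Inc b g p → Inc a z q → Inc b g q → (T p ↔ T q) := by
      intro y z hyz
      induction hyz with
      | refl => intro p q hp hp' hq hq'; exact hcorner _ p q g hp hq hp' hq'
      | @tail z w _ h3 ih =>
        intro p q hp hp' hq hq'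
        obtain ⟨r, hr, hr'⟩ := h3
        have hz : Inc a z r := by
          rcases hr' with h4 | h4
          · exact Or.inl h4.1
          · exact Or.inr h4.2
        have hw : Inc a w r := by
          rcases hr' with h4 | h4
          · exact Or.inr h4.2
          · exact Or.inl h4.1
        exact (ih p r hp hp' hz hr).trans (hcorner w r q g hw hq hr hq')
    exact key _ _ h1 d d' (Or.inl rfl) hd (Or.inl rfl) hd'
  -- all edges have the same class
  have hall : ∀ g g', Relation.ReflTransGen (Lk b) g g' → ∀ d d', Inc b g d → Inc b g' d' →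
      (T d ↔ T d') := by
    intro g g' hgg
    induction hgg with
    | refl => intro d d' hd hd'; exact hpure _ d d' hd hd'
    | @tail g' g'' _ h3 ih =>
      intro d d' hd hd'
      obtain ⟨r, hr⟩ := h3
      have h4 : Inc b g' r := by
        rcases hr with h4 | h4
        · exact Or.inl h4.1
        · exact Or.inr h4.2
      have h5 : Inc b g'' r := by
        rcases hr with h4 | h4
        · exact Or.inr h4.2
        · exact Or.inl h4.1
      exact (ih d r hd h4).trans (hpure _ r d' h5 hd')
  have h1 := hall _ _ (h.dconn (b e).1 (b e').1) e e' (Or.inl rfl) (Or.inl rfl)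
  rw [hTx e he, hTx e' he'] at h1
  exact hR1 (h1.1 hR0)

theorem IsPl.symm [Fintype V] [Fintype F] [Fintype E] {a : E → V × V} {b : E → F × F}
    (h : IsPl a b) : IsPl b a := ⟨h.toIsPlane.symm, h.fc_dual⟩

theorem FC.contract {a : E → V × V} {b : E → F × F} (h : FC a b) {e0 : E}
    (h0 : (a e0).1 ≠ (a e0).2) : FC (contr a e0 h0) (del b e0) := by
  intro f e e' he he'
  have h1 := h f e.1 e'.1 he he'
  have hm : merge _ _ h0 (a e0).1 = merge _ _ h0 (a e0).2 := by rw [merge_self, merge_of_ne h0 h0]
  have key : ∀ u v, Relation.ReflTransGen (LkOn a (Inc b f)) u v →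
      Relation.ReflTransGen (LkOn (contr a e0 h0) (Inc (del b e0) f)) (merge _ _ h0 u)
        (merge _ _ h0 v) := by
    intro u v huv
    induction huv with
    | refl => exact Relation.ReflTransGen.refl
    | @tail w z _ h2 ih =>
      obtain ⟨d, hd, hwz⟩ := h2
      by_cases hdd : d = e0
      · have h9 : merge _ _ h0 w = merge _ _ h0 z := by
          rw [hdd] at hwz
          rcases hwz with ⟨h1, h2⟩ | ⟨h1, h2⟩
          · exact (congrArg (merge _ _ h0) h1).symm.trans (hm.trans (congrArg (merge _ _ h0) h2))
          · exact (congrArg (merge _ _ h0) h2).symm.trans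
              (hm.symm.trans (congrArg (merge _ _ h0) h1))
        rw [← h9]; exact ih
      · refine ih.tail ⟨⟨d, hdd⟩, hd, ?_⟩
        rcases hwz with ⟨h1, h2⟩ | ⟨h1, h2⟩
        · exact Or.inl ⟨congrArg (merge _ _ h0) h1, congrArg (merge _ _ h0) h2⟩
        · exact Or.inr ⟨congrArg (merge _ _ h0) h1, congrArg (merge _ _ h0) h2⟩
  exact key _ _ h1

theorem IsPl.contract [Fintype V] [Fintype F] [Fintype E] {a : E → V × V} {b : E → F × F}
    (h : IsPl a b) {e0 : E} (h0 : (a e0).1 ≠ (a e0).2)
    [Fintype {v : V // v ≠ (a e0).2}] [Fintype {e : E // e ≠ e0}] :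
    IsPl (contr a e0 h0) (del b e0) :=
  ⟨h.toIsPlane.contract h0, h.fc.contract h0⟩

theorem IsPl.delete [Fintype V] [Fintype F] [Fintype E] {a : E → V × V} {b : E → F × F}
    (h : IsPl a b) {e0 : E} (h0 : (b e0).1 ≠ (b e0).2)
    [Fintype {f : F // f ≠ (b e0).2}] [Fintype {e : E // e ≠ e0}] :
    IsPl (del a e0) (contr b e0 h0) :=
  (h.symm.contract h0).symm

end Pool.Agent.Helper1.PG
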