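import Mathlib
import Pool.Agent.Helper1.PG.FC
import Pool.Agent.Helper36.BL.Minor

/-!
The class of graphs which are minors of plane multigraphs; spanning representations.
-/

set_option autoImplicit false

namespace Pool.Agent.Helper1.PG

open Pool.Agent.Helper36.BL (IsMinor)

variable {V F E W : Type}

/-- The simple graph of a multigraph. -/
def gr (a : E → V × V) : SimpleGraph V where
  Adj u v := u ≠ v ∧ Lk a u v
  symm := ⟨fun _ _ h => ⟨h.1.symm, h.2.symm⟩⟩
  loopless := ⟨fun _ h => h.1 rfl⟩

/-- The class of minors of plane multigraphs. -/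
def Pl {W : Type} (G : SimpleGraph W) : Prop :=
  ∃ (V F E : Type) (_ : Fintype V) (_ : Fintype F) (_ : Fintype E) (a : E → V × V)
    (b : E → F × F), IsPl a b ∧ IsMinor G (gr a)

theorem Pl.minor {W' : Type} {G : SimpleGraph W} {H : SimpleGraph W'} (h : Pl G)
    (hm : IsMinor H G) : Pl H := by
  obtain ⟨V, F, E, i1, i2, i3, a, b, hp, hG⟩ := h
  exact ⟨V, F, E, i1, i2, i3, a, b, hp, hm.trans hG⟩

theorem Pl.mono {G H : SimpleGraph W} (h : Pl G) (hm : H ≤ G) : Pl H :=
  h.minor (IsMinor.of_le hm)

/-- A labelling of the vertices of a multigraph by vertices of `G` or no label. -/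
structure Mdl (G : SimpleGraph W) (a : E → V × V) (L : V → Option W) : Prop where
  ne : ∀ w, ∃ v, L v = some w
  conn : ∀ w u v, L u = some w → L v = some w →
    Relation.ReflTransGen (fun x y => Lk a x y ∧ L x = some w ∧ L y = some w) u v
  edge : ∀ w w', G.Adj w w' → ∃ u v, Lk a u v ∧ L u = some w ∧ L v = some w'

/-- Labels after a contraction. -/
theorem Mdl.contr {G : SimpleGraph W} {a : E → V × V} {L : V → Option W} (M : Mdl G a L) {e0 : E}
    (h0 : (a e0).1 ≠ (a e0).2)
    (hL : L (a e0).1 = none ∨ L (a e0).2 = none ∨ L (a e0).1 = L (a e0).2) :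
    ∃ L', Mdl G (contr a e0 h0) L' := by
  classical
  set x := (a e0).1 with hx
  set y := (a e0).2 with hy
  obtain ⟨l0, hl1, hl2, hl3⟩ : ∃ l0 : Option W, (∀ w, L x = some w → l0 = some w) ∧
      (∀ w, L y = some w → l0 = some w) ∧ (∀ w, l0 = some w → L x = some w ∨ L y = some w) := by
    rcases hL with h | h | h
    · refine ⟨L y, ?_, fun w hw => hw, fun w hw => Or.inr hw⟩
      intro w hw; rw [h] at hw; cases hw
    · refine ⟨L x, fun w hw => hw, ?_, fun w hw => Or.inl hw⟩
      intro w hw; rw [h] at hw; cases hw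
    · exact ⟨L x, fun w hw => hw, fun w hw => h.trans hw, fun w hw => Or.inl hw⟩
  let L' : {v : V // v ≠ y} → Option W := fun v => if v.1 = x then l0 else L v.1
  have P1 : ∀ v w, L v = some w → L' (merge x y h0 v) = some w := by
    intro v w hv
    by_cases h : v = y
    · subst h
      rw [merge_self]
      show (if x = x then l0 else _) = _
      rw [if_pos rfl]
      exact hl2 w hv
    · rw [merge_of_ne h0 h]
      show (if v = x then l0 else L v) = _
      by_cases h2 : v = x
      · rw [if_pos h2]; subst h2; exact hl1 w hv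
      · rw [if_neg h2]; exact hv
  have P2 : ∀ v' w, L' v' = some w → ∃ v, merge x y h0 v = v' ∧ L v = some w := by
    rintro ⟨v, hvy⟩ w hv
    by_cases h : v = x
    · subst h
      have hv2 : l0 = some w := by
        have : L' ⟨x, hvy⟩ = l0 := if_pos rfl
        rw [← this]; exact hv
      rcases hl3 w hv2 with h3 | h3
      · exact ⟨x, merge_of_ne h0 hvy, h3⟩
      · exact ⟨y, merge_self h0, h3⟩
    · refine ⟨v, merge_of_ne h0 hvy, ?_⟩
      have : L' ⟨v, hvy⟩ = L v := if_neg h
      rw [← this]; exact hv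
  have hm : merge x y h0 x = merge x y h0 y := by rw [merge_self, merge_of_ne h0 h0]
  have P3 : ∀ u v, Lk a u v → merge x y h0 u = merge x y h0 v ∨
      Lk (PG.contr a e0 h0) (merge x y h0 u) (merge x y h0 v) := by
    rintro u v ⟨e, he⟩
    by_cases hee : e = e0
    · subst hee
      left
      rcases he with ⟨h1, h2⟩ | ⟨h1, h2⟩
      · rw [← h1, ← h2]; exact hm
      · rw [← h1, ← h2]; exact hm.symm
    · right
      refine ⟨⟨e, hee⟩, ?_⟩
      rcases he with ⟨h1, h2⟩ | ⟨h1, h2⟩
      · left
        exact ⟨by show merge x y h0 (a e).1 = _; rw [h1], by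
          show merge x y h0 (a e).2 = _; rw [h2]⟩
      · right
        exact ⟨by show merge x y h0 (a e).1 = _; rw [h1], by
          show merge x y h0 (a e).2 = _; rw [h2]⟩
  refine ⟨L', ?_, ?_, ?_⟩
  · intro w
    obtain ⟨v, hv⟩ := M.ne w
    exact ⟨_, P1 v w hv⟩
  · intro w u' v' hu' hv'
    obtain ⟨u, rfl, hu⟩ := P2 u' w hu'
    obtain ⟨v, rfl, hv⟩ := P2 v' w hv'
    have := M.conn w u v hu hv
    clear hu' hv' hv
    induction this with
    | refl => exact Relation.ReflTransGen.refl
    | @tail p q _ h2 ih =>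
      rcases P3 p q h2.1 with h3 | h3
      · rw [← h3]; exact ih
      · exact ih.tail ⟨h3, P1 p w h2.2.1, P1 q w h2.2.2⟩
  · intro w w' hww
    obtain ⟨u, v, huv, hu, hv⟩ := M.edge w w' hww
    refine ⟨merge x y h0 u, merge x y h0 v, ?_, P1 u w hu, P1 v w' hv⟩
    rcases P3 u v huv with h3 | h3
    · exfalso
      have h4 := P1 u w hu
      have h5 := P1 v w' hv
      rw [h3, h5, Option.some_inj] at h4
      exact hww.ne h4.symm
    · exact h3

/-- Transport along a bijection of the vertices. -/
theorem IsPlane.mapV [Fintype V] [Fintype F] [Fintype E] [Fintype W] {a : E → V × V}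
    {b : E → F × F} (h : IsPlane a b) (σ : V ≃ W) :
    IsPlane (fun e => (σ (a e).1, σ (a e).2)) b where
  conn := by
    intro u v
    have := h.conn (σ.symm u) (σ.symm v)
    have key : ∀ x y, Relation.ReflTransGen (Lk a) x y →
        Relation.ReflTransGen (Lk fun e => (σ (a e).1, σ (a e).2)) (σ x) (σ y) := by
      intro x y hxy
      induction hxy with
      | refl => exact Relation.ReflTransGen.refl
      | tail _ h2 ih =>
        obtain ⟨e, he⟩ := h2
        refine ih.tail ⟨e, ?_⟩
        rcases he with ⟨h1, h2⟩ | ⟨h1, h2⟩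
        · left; exact ⟨congrArg σ h1, congrArg σ h2⟩
        · right; exact ⟨congrArg σ h1, congrArg σ h2⟩
    have h2 := key _ _ this
    rwa [σ.apply_symm_apply, σ.apply_symm_apply] at h2
  dconn := h.dconn
  orth := by
    intro w f
    rw [← h.orth (σ.symm w) f]
    apply Finset.sum_congr rfl
    intro e _
    congr 1
    unfold st
    congr 1
    · apply ind_congr
      exact σ.eq_symm_apply.symm
    · apply ind_congr
      exact σ.eq_symm_apply.symm
  euler := by
    rw [← Fintype.card_congr σ]; exact h.euler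

theorem IsPl.mapV [Fintype V] [Fintype F] [Fintype E] [Fintype W] {a : E → V × V}
    {b : E → F × F} (h : IsPl a b) (σ : V ≃ W) :
    IsPl (fun e => (σ (a e).1, σ (a e).2)) b where
  toIsPlane := h.toIsPlane.mapV σ
  fc := by
    intro f e e' he he'
    have key : ∀ x y, Relation.ReflTransGen (LkOn a (Inc b f)) x y →
        Relation.ReflTransGen (LkOn (fun e => (σ (a e).1, σ (a e).2)) (Inc b f)) (σ x) (σ y) := by
      intro x y hxy
      induction hxy with
      | refl => exact Relation.ReflTransGen.refl
      | tail _ h2 ih =>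
        obtain ⟨d, hd, hd'⟩ := h2
        refine ih.tail ⟨d, hd, ?_⟩
        rcases hd' with ⟨h1, h2⟩ | ⟨h1, h2⟩
        · left; exact ⟨congrArg σ h1, congrArg σ h2⟩
        · right; exact ⟨congrArg σ h1, congrArg σ h2⟩
    exact key _ _ (h.fc f e e' he he')

/-- A labelled plane multigraph contracts to a spanning plane multigraph on the set of labels. -/
theorem IsPl.exists_spanning [Fintype W] [Nonempty W] {G : SimpleGraph W} :
    ∀ (n : ℕ) (V F E : Type) [Fintype V] [Fintype F] [Fintype E] (a : E → V × V) (b : E → F × F)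
      (L : V → Option W), Fintype.card V = n → IsPl a b → Mdl G a L →
    ∃ (F' E' : Type) (_ : Fintype F') (_ : Fintype E') (a' : E' → W × W) (b' : E' → F' × F'),
      IsPl a' b' ∧ ∀ u v, G.Adj u v → Lk a' u v := by
  classical
  intro n
  induction n with
  | zero =>
    intro V F E _ _ _ a b L hn _ M
    obtain ⟨w⟩ := ‹Nonempty W›
    obtain ⟨v, _⟩ := M.ne w
    exact absurd hn (Fintype.card_pos_iff.2 ⟨v⟩).ne'
  | succ n ih =>
    intro V F E _ _ _ a b L hn hp M
    by_cases hc : ∃ e0, (a e0).1 ≠ (a e0).2 ∧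
        (L (a e0).1 = none ∨ L (a e0).2 = none ∨ L (a e0).1 = L (a e0).2)
    · obtain ⟨e0, h0, hL⟩ := hc
      obtain ⟨L', M'⟩ := M.contr h0 hL
      refine ih {v : V // v ≠ (a e0).2} F {e : E // e ≠ e0} (contr a e0 h0) (del b e0) L' ?_
        (hp.contract h0) M'
      rw [Fintype.card_subtype_compl]
      simp
      omega
    · push Not at hc
      have hlab : ∀ v, L v ≠ none := by
        intro v hv
        obtain ⟨w⟩ := ‹Nonempty W›
        obtain ⟨u, hu⟩ := M.ne w
        obtain ⟨p, q, ⟨e, he⟩, h2, h3⟩ := exists_step_ne (p := fun z => L z ≠ none) (hp.conn u v)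
          (by rw [hu]; simp) (by simpa using hv)
        rw [not_not] at h3
        have hne : (a e).1 ≠ (a e).2 := by
          intro h4
          rcases he with ⟨h5, h6⟩ | ⟨h5, h6⟩
          · rw [← h5] at h2; rw [← h6, ← h4] at h3; exact h2 h3
          · rw [← h6] at h2; rw [← h5, h4] at h3; exact h2 h3
        rcases he with ⟨h5, h6⟩ | ⟨h5, h6⟩
        · rw [← h6] at h3; exact (hc e hne).2.1 h3
        · rw [← h5] at h3; exact (hc e hne).1 h3
      have hinj : ∀ u v, L u = L v → u = v := by
        intro u v huv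
        by_contra hne
        obtain ⟨w, hw⟩ := Option.ne_none_iff_exists'.1 (hlab u)
        obtain ⟨p, q, ⟨⟨e, he⟩, h4, h5⟩, h2, h3⟩ := exists_step_ne (p := fun z => z = u)
          (M.conn w u v hw (huv ▸ hw)) rfl (fun h => hne h.symm)
        have hpq : p ≠ q := fun h => h3 (h ▸ h2)
        have hne2 : (a e).1 ≠ (a e).2 := by
          rcases he with ⟨h6, h7⟩ | ⟨h6, h7⟩
          · rw [h6, h7]; exact hpq
          · rw [h6, h7]; exact hpq.symm
        apply (hc e hne2).2.2
        rcases he with ⟨h6, h7⟩ | ⟨h6, h7⟩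
        · rw [h6, h7, h4, h5]
        · rw [h6, h7, h4, h5]
      choose g hg using fun v => Option.ne_none_iff_exists'.1 (hlab v)
      have hgb : Function.Bijective g := by
        constructor
        · intro u v huv
          apply hinj
          rw [hg u, hg v, huv]
        · intro w
          obtain ⟨v, hv⟩ := M.ne w
          refine ⟨v, ?_⟩
          rw [hg v, Option.some_inj] at hv
          exact hv
      let σ : V ≃ W := Equiv.ofBijective g hgb
      refine ⟨F, E, inferInstance, inferInstance, _, b, hp.mapV σ, ?_⟩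
      intro u v huv
      obtain ⟨p, q, ⟨e, he⟩, h2, h3⟩ := M.edge u v huv
      rw [hg p, Option.some_inj] at h2
      rw [hg q, Option.some_inj] at h3
      refine ⟨e, ?_⟩
      rcases he with ⟨h6, h7⟩ | ⟨h6, h7⟩
      · left
        exact ⟨(congrArg g h6).trans h2, (congrArg g h7).trans h3⟩
      · right
        exact ⟨(congrArg g h6).trans h3, (congrArg g h7).trans h2⟩

/-- Branch sets give a labelling. -/
theorem exists_mdl {G : SimpleGraph W} {a : E → V × V} (h : IsMinor G (gr a)) :
    ∃ L, Mdl G a L := by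
  classical
  obtain ⟨B, h1, h2, h3⟩ := h
  have huniq : ∀ v w w', v ∈ B w → v ∈ B w' → w = w' := by
    intro v w w' hw hw'
    by_contra hne
    exact Set.disjoint_left.1 (h2 w w' hne) hw hw'
  let L : V → Option W := fun v => if h : ∃ w, v ∈ B w then some h.choose else none
  have hL : ∀ v w, L v = some w ↔ v ∈ B w := by
    intro v w
    by_cases h : ∃ w, v ∈ B w
    · have e1 : L v = some h.choose := dif_pos h
      rw [e1, Option.some_inj]
      constructor
      · intro h4; rw [← h4]; exact h.choose_spec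
      · intro h4; exact huniq v _ _ h.choose_spec h4
    · have e1 : L v = none := dif_neg h
      rw [e1]
      constructor
      · intro h4; cases h4
      · intro h4; exact absurd ⟨w, h4⟩ h
  refine ⟨L, ?_, ?_, ?_⟩
  · intro w
    obtain ⟨v, hv⟩ := (h1 w).nonempty
    exact ⟨v, (hL v w).2 hv⟩
  · intro w u v hu hv
    have hu' := (hL u w).1 hu
    have hv' := (hL v w).1 hv
    obtain ⟨p⟩ := (h1 w).preconnected ⟨u, hu'⟩ ⟨v, hv'⟩
    have key : ∀ (x y : B w), ((gr a).induce (B w)).Walk x y →
        Relation.ReflTransGen (fun x y => Lk a x y ∧ L x = some w ∧ L y = some w) x.1 y.1 := by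
      intro x y q
      induction q with
      | nil => exact Relation.ReflTransGen.refl
      | @cons x y z hxy _ ih =>
        have hxy' : Lk a x.1 y.1 := hxy.2
        exact (Relation.ReflTransGen.single
          ⟨hxy', (hL _ _).2 x.2, (hL _ _).2 y.2⟩).trans ih
    exact key _ _ p
  · intro w w' hww
    obtain ⟨x, hx, y, hy, hxy⟩ := h3 w w' hww
    exact ⟨x, y, hxy.2, (hL _ _).2 hx, (hL _ _).2 hy⟩

/-- A graph in the class is a spanning subgraph of a plane multigraph. -/
theorem Pl.exists_spanning [Fintype W] [Nonempty W] {G : SimpleGraph W} (h : Pl G) :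
    ∃ (F E : Type) (_ : Fintype F) (_ : Fintype E) (a : E → W × W) (b : E → F × F),
      IsPl a b ∧ ∀ u v, G.Adj u v → Lk a u v := by
  obtain ⟨V, F, E, i1, i2, i3, a, b, hp, hG⟩ := h
  obtain ⟨L, M⟩ := exists_mdl hG
  exact IsPl.exists_spanning (Fintype.card V) V F E a b L rfl hp M

theorem Pl.of_spanning [Fintype W] [Fintype F] [Fintype E] {G : SimpleGraph W} {a : E → W × W}
    {b : E → F × F} (h : IsPl a b) (hG : ∀ u v, G.Adj u v → Lk a u v) : Pl G :=
  ⟨W, F, E, inferInstance, inferInstance, inferInstance, a, b, h,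
    IsMinor.of_le fun u v huv => ⟨huv.ne, hG u v huv⟩⟩

theorem Pl.of_mdl [Fintype V] [Fintype F] [Fintype E] [Fintype W] {G : SimpleGraph W}
    {a : E → V × V} {b : E → F × F} {L : V → Option W} (h : IsPl a b) (M : Mdl G a L) :
    Pl G := by
  classical
  rcases isEmpty_or_nonempty W with hW | hW
  · refine ⟨V, F, E, inferInstance, inferInstance, inferInstance, a, b, h, fun w => isEmptyElim w,
      fun w => isEmptyElim w, fun w => isEmptyElim w, fun w => isEmptyElim w⟩
  · obtain ⟨F', E', i1, i2, a', b', hp, hG⟩ :=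
      IsPl.exists_spanning (Fintype.card V) V F E a b L rfl h M
    exact Pl.of_spanning hp hG

/-- Any set of superfluous edges can be deleted as long as the graph stays connected: if `Q` is a
connected spanning graph of links, then all edges outside of `Q`, loops and parallel edges can be
removed. -/
theorem IsPl.exists_simple (Q : V → V → Prop) [Fintype V]
    (hQ : ∀ u v, Relation.ReflTransGen (fun x y => Q x y ∨ Q y x) u v) :
    ∀ (n : ℕ) (F E : Type) [Fintype F] [Fintype E]
    (a : E → V × V) (b : E → F × F), Fintype.card E = n → IsPl a b →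
    (∀ u v, Q u v → u ≠ v → Lk a u v) →
    ∃ (F' E' : Type) (_ : Fintype F') (_ : Fintype E') (a' : E' → V × V) (b' : E' → F' × F'),
      IsPl a' b' ∧ Simp a' ∧ (∀ u v, Q u v → u ≠ v → Lk a' u v) ∧
      ∀ e, Q (a' e).1 (a' e).2 ∨ Q (a' e).2 (a' e).1 := by
  classical
  intro n
  induction n with
  | zero =>
    intro F E _ _ a b hn hp hl
    have hE : IsEmpty E := Fintype.card_eq_zero_iff.1 hn
    exact ⟨F, E, inferInstance, inferInstance, a, b, hp, ⟨fun e => hE.elim e, fun e => hE.elim e⟩, hl,
      fun e => hE.elim e⟩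
  | succ n ih =>
    intro F E _ _ a b hn hp hl
    by_cases hbad : ∃ e0, (a e0).1 = (a e0).2 ∨ (∃ e1, e1 ≠ e0 ∧ Par a e0 e1) ∨
        ¬ (Q (a e0).1 (a e0).2 ∨ Q (a e0).2 (a e0).1)
    · obtain ⟨e0, he0⟩ := hbad
      -- all links of `Q` survive the deletion of `e0`
      have hsurv : ∀ u v, Q u v → u ≠ v → LkOn a (· ≠ e0) u v := by
        intro u v huv hne
        obtain ⟨e, he⟩ := hl u v huv hne
        by_cases h1 : e = e0
        · subst h1
          rcases he0 with h2 | ⟨e1, h3, h4⟩ | h2
          · exfalso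
            rcases he with ⟨h5, h6⟩ | ⟨h5, h6⟩
            · exact hne (by rw [← h5, ← h6, h2])
            · exact hne (by rw [← h5, ← h6, h2])
          · refine ⟨e1, h3, ?_⟩
            rcases h4 with ⟨h7, h8⟩ | ⟨h7, h8⟩
            · rw [← h7, ← h8]; exact he
            · rw [← h7, ← h8]
              rcases he with ⟨h5, h6⟩ | ⟨h5, h6⟩
              · exact Or.inr ⟨h6, h5⟩
              · exact Or.inl ⟨h6, h5⟩
          · exfalso
            apply h2
            rcases he with ⟨h5, h6⟩ | ⟨h5, h6⟩
            · rw [h5, h6]; exact Or.inl huv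
            · rw [h5, h6]; exact Or.inr huv
        · exact ⟨e, h1, he⟩
      have hconn : ∀ u v, Relation.ReflTransGen (LkOn a (· ≠ e0)) u v := by
        intro u v
        have := hQ u v
        induction this with
        | refl => exact Relation.ReflTransGen.refl
        | @tail w z _ h2 ih2 =>
          by_cases hwz : w = z
          · rw [← hwz]; exact ih2
          · rcases h2 with h2 | h2
            · exact ih2.tail (hsurv _ _ h2 hwz)
            · exact ih2.tail (hsurv _ _ h2 (Ne.symm hwz)).symm
      have h0 : (b e0).1 ≠ (b e0).2 := hp.toIsPlane.dne_of_conn (hconn _ _)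
      have hc := card_ne e0
      refine ih {f : F // f ≠ (b e0).2} {e : E // e ≠ e0} (del a e0) (contr b e0 h0) (by omega)
        (hp.delete h0) ?_
      intro u v huv hne
      obtain ⟨e, h1, h2⟩ := hsurv u v huv hne
      exact ⟨⟨e, h1⟩, h2⟩
    · push Not at hbad
      refine ⟨F, E, inferInstance, inferInstance, a, b, hp, ⟨fun e => (hbad e).1, ?_⟩, hl, ?_⟩
      · intro e e' hee
        by_contra hne
        exact (hbad e).2.1 e' (Ne.symm hne) hee
      · intro e
        exact (hbad e).2.2

end Pool.Agent.Helper1.PG
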