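import Mathlib
import Pool.Agent.Helper1.PG.Jordan

/-!
Corners and rotations of a 2-connected plane graph.
-/

set_option autoImplicit false

namespace Pool.Agent.Helper1.PG

variable {V F E W : Type}

section Two

variable [Fintype V] [Fintype F] [Fintype E] {a : E → V × V} {b : E → F × F}

/-- The star of a vertex has no proper nonempty dually even subset. -/
theorem TwoConn.star_min (h : TwoConn a b) {v : V} {Z : E → ZMod 2} (hZ : EvenZ b Z)
    (hsub : ∀ e, Z e ≠ 0 → Inc a v e) : (∀ e, Z e = 0) ∨ ∀ e, Z e = st a v e := by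
  classical
  obtain ⟨s0, hs0⟩ := h.plane.symm.exists_side hZ
  set s : V → ZMod 2 := fun g => s0 g + s0 v with hs
  have hsZ : ∀ e, Z e = s (a e).1 + s (a e).2 := by
    intro e
    rw [hs0 e]
    unfold cutZ
    rw [hs]
    have e1 := z2_add_self (s0 v)
    linear_combination -e1
  have hsv : s v = 0 := z2_add_self _
  have hedge : ∀ e, ¬ Inc a v e → s (a e).1 = s (a e).2 := by
    intro e he
    have h1 : Z e = 0 := by
      by_contra h2; exact he (hsub e h2)
    rw [hsZ e] at h1
    have := z2_add_self (s (a e).2)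
    linear_combination h1 - this
  have hconst : ∀ x y, x ≠ v → y ≠ v → s x = s y := by
    intro x y hx hy
    have := h.conn v x y hx hy
    clear hx hy
    induction this with
    | refl => rfl
    | tail _ h2 ih =>
      obtain ⟨e, he, he'⟩ := h2
      have h3 := hedge e he
      rcases he' with ⟨h4, h5⟩ | ⟨h4, h5⟩
      · rw [h4, h5] at h3; exact ih.trans h3
      · rw [h4, h5] at h3; exact ih.trans h3.symm
  by_cases hx : ∃ x, x ≠ v ∧ s x = 1
  · obtain ⟨x, hxv, hx1⟩ := hx
    right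
    intro e
    rw [hsZ e]
    have h1 : ∀ y, s y = ind (y ≠ v) := by
      intro y
      by_cases hy : y = v
      · rw [hy, hsv, ind_false (by simp)]
      · rw [ind_true hy, hconst y x hy hxv, hx1]
    rw [h1, h1]
    unfold st
    have h2 : ∀ y, ind (y ≠ v) = 1 + ind (y = v) := by
      intro y
      by_cases hy : y = v
      · rw [ind_true hy, ind_false (by simpa using hy)]; decide
      · rw [ind_false hy, ind_true hy, add_zero]
    rw [h2, h2]
    have e1 := z2_add_self (1 : ZMod 2)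
    linear_combination e1
  · push Not at hx
    left
    intro e
    have h1 : ∀ y, s y = 0 := by
      intro y
      by_cases hy : y = v
      · rw [hy, hsv]
      · rcases z2_cases (s y) with h2 | h2
        · exact h2
        · exact absurd h2 (hx y hy)
    rw [hsZ e, h1, h1, add_zero]

/-- A face passing through a vertex has exactly two edges at this vertex. -/
theorem TwoConn.corner (h : TwoConn a b) {v : V} {f : F} {e1 : E} (h1 : Inc a v e1)
    (h2 : Inc b f e1) :
    ∃ e2, e2 ≠ e1 ∧ Inc a v e2 ∧ Inc b f e2 ∧ ∀ e, Inc a v e → Inc b f e → e = e1 ∨ e = e2 := by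
  classical
  obtain ⟨x, hx, hx'⟩ := exists_other h.noloop h1
  let P : E → Prop := fun e => Inc b f e ∧ ¬ Inc a v e
  set X : Finset V :=
    Finset.univ.filter (fun z => Relation.ReflTransGen (LkOn a P) x z) with hX
  have hxX : x ∈ X := Finset.mem_filter.2 ⟨Finset.mem_univ _, Relation.ReflTransGen.refl⟩
  have hvX : v ∉ X := by
    intro h3
    have h4 := (Finset.mem_filter.1 h3).2
    obtain ⟨p, q, ⟨e, he, he'⟩, h5, h6⟩ := exists_step_ne (p := fun z => z ≠ v) h4 hx (by simp)
    rw [not_not] at h6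
    subst h6
    apply he.2
    rcases he' with h7 | h7
    · exact Or.inr h7.2
    · exact Or.inl h7.1
  have hex : ∃ e2, e2 ≠ e1 ∧ Inc a v e2 ∧ Inc b f e2 ∧ ∃ y ∈ X, Inc a y e2 := by
    by_contra hno
    push Not at hno
    have h3 : ∑ w ∈ X, ∑ e, st a w e * st b f e = 0 :=
      Finset.sum_eq_zero fun w _ => h.plane.orth w f
    rw [Finset.sum_comm] at h3
    simp only [← Finset.sum_mul] at h3
    rw [Finset.sum_eq_single e1] at h3
    · rw [sum_st, st_of_inc (h.dnoloop e1) h2, mul_one] at h3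
      rcases hx' with ⟨h4, h5⟩ | ⟨h4, h5⟩
      · rw [h4, h5, ind_false hvX, ind_true hxX] at h3
        exact absurd h3 (by decide)
      · rw [h4, h5, ind_false hvX, ind_true hxX] at h3
        exact absurd h3 (by decide)
    · intro e _ hne
      rw [sum_st]
      by_cases h4 : Inc b f e
      · by_cases h5 : Inc a v e
        · have h6 := hno e hne h5 h4
          have h7 : (a e).1 ∉ X := fun h8 => h6 _ h8 (Or.inl rfl)
          have h8 : (a e).2 ∉ X := fun h8 => h6 _ h8 (Or.inr rfl)
          rw [ind_false h7, ind_false h8, add_zero, zero_mul]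
        · have h6 : (a e).1 ∈ X ↔ (a e).2 ∈ X := by
            simp only [hX, Finset.mem_filter, Finset.mem_univ, true_and]
            constructor
            · intro h7; exact h7.tail ⟨e, ⟨h4, h5⟩, Or.inl ⟨rfl, rfl⟩⟩
            · intro h7; exact h7.tail ⟨e, ⟨h4, h5⟩, Or.inr ⟨rfl, rfl⟩⟩
          rw [ind_congr h6, z2_add_self, zero_mul]
      · rw [st_of_not_inc h4, mul_zero]
    · intro h4; exact absurd (Finset.mem_univ _) h4
  obtain ⟨e2, hne, h2v, h2f, y, hyX, hy⟩ := hex
  refine ⟨e2, hne, h2v, h2f, ?_⟩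
  have hyv : y ≠ v := fun h3 => hvX (h3 ▸ hyX)
  have hy2 : (a e2).1 = v ∧ (a e2).2 = y ∨ (a e2).1 = y ∧ (a e2).2 = v := by
    rcases h2v with h3 | h3
    · left
      refine ⟨h3, ?_⟩
      rcases hy with h4 | h4
      · exact absurd (h4.symm.trans h3) hyv
      · exact h4
    · right
      refine ⟨?_, h3⟩
      rcases hy with h4 | h4
      · exact h4
      · exact absurd (h4.symm.trans h3) hyv
  obtain ⟨Z, hZ1, hZ2⟩ := exists_path_sum (Finset.mem_filter.1 hyX).2
  have hZe : ∀ e, Inc a v e → Z e = 0 := by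
    intro e he
    by_contra h3
    exact (hZ1 e h3).2 he
  set C : E → ZMod 2 := fun e => Z e + (ind (e = e1) + ind (e = e2)) with hC
  have hCeven : EvenZ a C := by
    intro w
    simp only [hC, mul_add]
    rw [Finset.sum_add_distrib, Finset.sum_add_distrib, hZ2 w, Finset.sum_eq_single e1,
      Finset.sum_eq_single e2]
    · rw [ind_true rfl, ind_true rfl, mul_one, mul_one]
      have h5 : st a w e1 = ind (v = w) + ind (x = w) := by
        unfold st
        rcases hx' with ⟨h6, h7⟩ | ⟨h6, h7⟩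
        · rw [h6, h7]
        · rw [h6, h7, add_comm]
      have h6 : st a w e2 = ind (v = w) + ind (y = w) := by
        unfold st
        rcases hy2 with ⟨h6, h7⟩ | ⟨h6, h7⟩
        · rw [h6, h7]
        · rw [h6, h7, add_comm]
      rw [h5, h6]
      have e1 := z2_add_self (ind (v = w))
      have e2 := z2_add_self (ind (x = w))
      have e3 := z2_add_self (ind (y = w))
      linear_combination e1 + e2 + e3
    · intro e _ hne; rw [ind_false hne, mul_zero]
    · intro h6; exact absurd (Finset.mem_univ _) h6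
    · intro e _ hne; rw [ind_false hne, mul_zero]
    · intro h6; exact absurd (Finset.mem_univ _) h6
  have hCsub : ∀ e, C e ≠ 0 → Inc b f e := by
    intro e he
    by_cases h3 : e = e1
    · rw [h3]; exact h2
    · by_cases h4 : e = e2
      · rw [h4]; exact h2f
      · by_contra h5
        apply he
        show Z e + (ind (e = e1) + ind (e = e2)) = 0
        rw [ind_false h3, ind_false h4]
        have : Z e = 0 := by
          by_contra h6; exact h5 (hZ1 e h6).1
        rw [this]; decide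
  rcases h.face_min hCeven hCsub with h3 | h3
  · have h4 := h3 e1
    have h5 : C e1 = 1 := by
      show Z e1 + (ind (e1 = e1) + ind (e1 = e2)) = 1
      rw [hZe e1 h1, ind_true rfl, ind_false hne.symm]; decide
    rw [h5] at h4
    exact absurd h4 (by decide)
  · intro e hev hef
    by_contra h4
    rw [not_or] at h4
    have h5 := h3 e
    have h6 : C e = 0 := by
      show Z e + (ind (e = e1) + ind (e = e2)) = 0
      rw [hZe e hev, ind_false h4.1, ind_false h4.2]; decide
    rw [h6, st_of_inc (h.dnoloop e) hef] at h5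
    exact absurd h5 (by decide)

end Two

/-- The local data needed for a rotation at `v`. -/
structure Rotat (a : E → V × V) (b : E → F × F) (v : V) : Prop where
  dne : ∀ e, (b e).1 ≠ (b e).2
  corner : ∀ e f, Inc a v e → Inc b f e →
    ∃ e2, e2 ≠ e ∧ Inc a v e2 ∧ Inc b f e2 ∧ ∀ e', Inc a v e' → Inc b f e' → e' = e ∨ e' = e2
  conn : ∀ p : E → Prop, (∃ e, Inc a v e ∧ p e) →
    (∀ e e' f, Inc a v e → Inc a v e' → Inc b f e → Inc b f e' → p e → p e') →
    ∀ e, Inc a v e → p e

/-- From minimality of the star to connectedness of the corners. -/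
theorem Rotat.of_min [Fintype V] [Fintype F] [Fintype E] {a : E → V × V} {b : E → F × F} {v : V}
    (ane : ∀ e, (a e).1 ≠ (a e).2) (dne : ∀ e, (b e).1 ≠ (b e).2)
    (corner : ∀ e f, Inc a v e → Inc b f e →
      ∃ e2, e2 ≠ e ∧ Inc a v e2 ∧ Inc b f e2 ∧ ∀ e', Inc a v e' → Inc b f e' → e' = e ∨ e' = e2)
    (hmin : ∀ Z : E → ZMod 2, EvenZ b Z → (∀ e, Z e ≠ 0 → Inc a v e) →
      (∀ e, Z e = 0) ∨ ∀ e, Z e = st a v e) : Rotat a b v where
  dne := dne
  corner := corner
  conn := by
    classical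
    intro p ⟨e0, h0, hp0⟩ hcl e he
    have hev : EvenZ b (fun e => ind (Inc a v e ∧ p e)) := by
      intro f
      by_cases hf : ∃ e1, Inc a v e1 ∧ Inc b f e1
      · obtain ⟨e1, h1, h1'⟩ := hf
        obtain ⟨e2, h2, h3, h4, h5⟩ := corner e1 f h1 h1'
        have hsum : ∑ e, st b f e * ind (Inc a v e ∧ p e) =
            ∑ e ∈ ({e1, e2} : Finset E), st b f e * ind (Inc a v e ∧ p e) := by
          symm
          apply Finset.sum_subset (Finset.subset_univ _)
          intro e _ hne
          simp only [Finset.mem_insert, Finset.mem_singleton, not_or] at hne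
          by_cases h6 : Inc a v e
          · by_cases h7 : Inc b f e
            · exact absurd (h5 e h6 h7) (by tauto)
            · rw [st_of_not_inc h7, zero_mul]
          · rw [ind_false (fun h7 => h6 h7.1), mul_zero]
        show ∑ e, st b f e * ind (Inc a v e ∧ p e) = 0
        rw [hsum, Finset.sum_pair h2.symm, st_of_inc (dne e1) h1', st_of_inc (dne e2) h4]
        have h6 : (Inc a v e1 ∧ p e1) ↔ (Inc a v e2 ∧ p e2) :=
          ⟨fun h => ⟨h3, hcl e1 e2 f h1 h3 h1' h4 h.2⟩, fun h => ⟨h1, hcl e2 e1 f h3 h1 h4 h1' h.2⟩⟩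
        rw [ind_congr h6, one_mul, z2_add_self]
      · push Not at hf
        apply Finset.sum_eq_zero
        intro e _
        by_cases h6 : Inc a v e
        · rw [st_of_not_inc (hf e h6), zero_mul]
        · show st b f e * ind (Inc a v e ∧ p e) = 0
          rw [ind_false (fun h7 => h6 h7.1), mul_zero]
    rcases hmin _ hev (by
      intro e he
      by_contra h1
      apply he
      exact ind_false (fun h2 => h1 h2.1)) with h1 | h1
    · have h2 := h1 e0
      change ind (Inc a v e0 ∧ p e0) = 0 at h2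
      rw [ind_true ⟨h0, hp0⟩] at h2
      exact absurd h2 (by decide)
    · have h2 := h1 e
      change ind (Inc a v e ∧ p e) = _ at h2
      by_contra h3
      rw [ind_false (fun h4 => h3 h4.2), st_of_inc (ane e) he] at h2
      exact absurd h2 (by decide)

/-- Flags at a vertex. -/
abbrev Flag (a : E → V × V) (b : E → F × F) (v : V) : Type :=
  {x : E × F // Inc a v x.1 ∧ Inc b x.2 x.1}

/-- Abstract rotation: two fixed point free involutions. -/
theorem exists_rot_abs {D E F : Type} [Finite D] (σ τ : D → D) (hσ : ∀ x, σ (σ x) = x)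
    (hτ : ∀ x, τ (τ x) = x) (ed : D → E) (fc : D → F)
    (h2 : ∀ x, ed (σ x) ≠ ed x) (h3 : ∀ x, ed (τ x) = ed x) (h4 : ∀ x, fc (τ x) ≠ fc x)
    (h5 : ∀ x y, ed x = ed y → y = x ∨ y = τ x) (x0 : D)
    (hconn : ∀ p : E → Prop, p (ed x0) → (∀ x, p (ed x) → p (ed (σ x))) → ∀ x, p (ed x)) :
    ∃ (n : ℕ) (_ : 2 ≤ n) (z : ZMod n → D), (∀ i, z (i + 1) = τ (σ (z i))) ∧
      Function.Injective (fun i => ed (z i)) ∧ ∀ x, ∃ i, ed (z i) = ed x := by
  classical
  let ρ : Equiv.Perm D := ⟨fun x => τ (σ x), fun x => σ (τ x),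
    fun x => by show σ (τ (τ (σ x))) = x; rw [hτ, hσ],
    fun x => by show τ (σ (σ (τ x))) = x; rw [hσ, hτ]⟩
  let T : Equiv.Perm D := ⟨τ, τ, hτ, hτ⟩
  have hρ : ∀ x, ρ x = τ (σ x) := fun x => rfl
  have hρi : ∀ x, ρ⁻¹ x = σ (τ x) := fun x => rfl
  have hsc : SemiconjBy T ρ ρ⁻¹ := by
    apply Equiv.ext
    intro x
    show τ (τ (σ x)) = σ (τ (τ x))
    rw [hτ, hτ]
  have hT : ∀ k : ℤ, τ ((ρ ^ k) x0) = (ρ ^ (-k)) (τ x0) := by
    intro k
    have h := (hsc.zpow_right k).eq
    have h2 := congrArg (fun f : Equiv.Perm D => f x0) h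
    rw [inv_zpow, ← zpow_neg] at h2
    exact h2
  set n := Function.minimalPeriod (ρ • ·) x0 with hn
  have hper : ∀ k : ℤ, (ρ ^ k) x0 = x0 ↔ (n : ℤ) ∣ k := by
    intro k
    have := MulAction.zpow_smul_eq_iff_minimalPeriod_dvd (a := ρ) (b := x0) (n := k)
    exact this
  have hadd : ∀ k l : ℤ, (ρ ^ (k + l)) x0 = (ρ ^ k) ((ρ ^ l) x0) := by
    intro k l; rw [zpow_add]; rfl
  have hG : ∀ k l : ℤ, (ρ ^ k) x0 = (ρ ^ l) x0 ↔ (n : ℤ) ∣ k - l := by
    intro k l
    rw [← hper]
    constructor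
    · intro h
      rw [show k - l = -l + k by ring, hadd, h, ← hadd]
      simp
    · intro h
      have h6 := congrArg (fun y => (ρ ^ l) y) h
      rw [← hadd] at h6
      rw [← h6, show l + (k - l) = k by ring]
  have hnpos : 0 < n := by
    apply Function.minimalPeriod_pos_of_mem_periodicPts
    exact Function.Injective.mem_periodicPts ρ.injective x0
  have hn2 : 2 ≤ n := by
    by_contra hlt
    have h6 : n = 1 := by omega
    have h7 : (ρ ^ (1 : ℤ)) x0 = x0 := (hper 1).2 (by rw [h6]; simp)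
    rw [zpow_one, hρ] at h7
    have h8 := congrArg τ h7
    rw [hτ] at h8
    exact h2 x0 (by rw [h8, h3])
  have : NeZero n := ⟨by omega⟩
  have hinj : ∀ k l : ℤ, ed ((ρ ^ k) x0) = ed ((ρ ^ l) x0) → (ρ ^ k) x0 = (ρ ^ l) x0 := by
    intro k l hkl
    rcases h5 _ _ hkl with h6 | h6
    · exact h6.symm
    · exfalso
      rw [hT] at h6
      have h7 : τ x0 = (ρ ^ (k + l)) x0 := by
        rw [hadd, h6, ← Equiv.Perm.mul_apply, ← zpow_add]
        simp
      rcases Int.even_or_odd' (k + l) with ⟨j, hj | hj⟩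
      · have h8 : τ ((ρ ^ j) x0) = (ρ ^ j) x0 := by
          rw [hT, h7, ← Equiv.Perm.mul_apply, ← zpow_add, hj, show -j + 2 * j = j by ring]
        exact h4 _ (congrArg fc h8)
      · have h8 : τ ((ρ ^ j) x0) = (ρ ^ (1 + j)) x0 := by
          rw [hT, h7, ← Equiv.Perm.mul_apply, ← zpow_add, hj, show -j + (2 * j + 1) = 1 + j by ring]
        rw [hadd, zpow_one, hρ] at h8
        have h9 := congrArg τ h8
        rw [hτ, hτ] at h9
        exact h2 ((ρ ^ j) x0) (congrArg ed h9.symm)
  have hcast : ∀ k : ℤ, (ρ ^ ((k : ZMod n).cast : ℤ)) x0 = (ρ ^ k) x0 := by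
    intro k
    rw [hG]
    rw [← ZMod.intCast_eq_intCast_iff_dvd_sub, ZMod.intCast_cast, ZMod.cast_id]
  refine ⟨n, hn2, fun i => (ρ ^ (i.cast : ℤ)) x0, ?_, ?_, ?_⟩
  · intro i
    obtain ⟨k, rfl⟩ := ZMod.intCast_surjective i
    show (ρ ^ (((k : ZMod n) + 1).cast : ℤ)) x0 = τ (σ ((ρ ^ ((k : ZMod n).cast : ℤ)) x0))
    rw [hcast, ← hρ, show ((k : ZMod n) + 1) = ((k + 1 : ℤ) : ZMod n) by push_cast; ring, hcast,
      show k + 1 = 1 + k by ring, hadd, zpow_one]
  · intro i j hij
    have h6 := hinj _ _ hij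
    rw [hG, ← ZMod.intCast_eq_intCast_iff_dvd_sub] at h6
    rw [ZMod.intCast_cast, ZMod.intCast_cast, ZMod.cast_id, ZMod.cast_id] at h6
    exact h6.symm
  · have key : ∀ x, ∃ k : ℤ, ed ((ρ ^ k) x0) = ed x := by
      apply hconn (fun e => ∃ k : ℤ, ed ((ρ ^ k) x0) = e)
      · exact ⟨0, by simp⟩
      · rintro x ⟨k, hk⟩
        rcases h5 _ _ hk with h6 | h6
        · refine ⟨1 + k, ?_⟩
          rw [hadd, zpow_one, hρ, h3, h6]
        · refine ⟨-1 + k, ?_⟩
          rw [hadd, zpow_neg_one, hρi, h6]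
    intro x
    obtain ⟨k, hk⟩ := key x
    exact ⟨(k : ZMod n), by show ed ((ρ ^ ((k : ZMod n).cast : ℤ)) x0) = _; rw [hcast]; exact hk⟩

/-- The rotation at a vertex: edges `z i` and faces `w i` in cyclic order. -/
theorem Rotat.exists_rot [Finite F] [Finite E] {a : E → V × V} {b : E → F × F} {v : V}
    (h : Rotat a b v) (hv : ∃ e, Inc a v e) :
    ∃ (n : ℕ) (_ : 2 ≤ n) (z : ZMod n → E) (w : ZMod n → F), Function.Injective z ∧
      (∀ e, Inc a v e ↔ ∃ i, z i = e) ∧ Function.Injective w ∧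
      (∀ f, (∃ e, Inc a v e ∧ Inc b f e) ↔ ∃ i, w i = f) ∧
      ∀ i, Inc b (w i) (z i) ∧ Inc b (w i) (z (i + 1)) := by
  classical
  choose sg hsg1 hsg2 hsg3 hsg4 using h.corner
  -- the other side of an edge
  let os : E → F → F := fun e f => if (b e).1 = f then (b e).2 else (b e).1
  have hos1 : ∀ e f, Inc b f e → os e f ≠ f := by
    intro e f hf
    by_cases h1 : (b e).1 = f
    · have : os e f = (b e).2 := if_pos h1
      rw [this]
      intro h2
      exact h.dne e (h1.trans h2.symm)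
    · have : os e f = (b e).1 := if_neg h1
      rw [this]; exact h1
  have hos2 : ∀ e f, Inc b (os e f) e := by
    intro e f
    by_cases h1 : (b e).1 = f
    · have : os e f = (b e).2 := if_pos h1
      rw [this]; exact Or.inr rfl
    · have : os e f = (b e).1 := if_neg h1
      rw [this]; exact Or.inl rfl
  have hos3 : ∀ e f g, Inc b f e → Inc b g e → g = f ∨ g = os e f := by
    intro e f g hf hg
    by_cases h1 : (b e).1 = f
    · have h2 : os e f = (b e).2 := if_pos h1
      rw [h2]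
      rcases hg with h3 | h3
      · left; rw [← h3, h1]
      · right; exact h3.symm
    · have h2 : os e f = (b e).1 := if_neg h1
      rw [h2]
      rcases hf with h4 | h4
      · exact absurd h4 h1
      · rcases hg with h3 | h3
        · right; exact h3.symm
        · left; rw [← h3, h4]
  let σ : Flag a b v → Flag a b v := fun x =>
    ⟨(sg x.1.1 x.1.2 x.2.1 x.2.2, x.1.2), hsg2 _ _ x.2.1 x.2.2, hsg3 _ _ x.2.1 x.2.2⟩
  let τ : Flag a b v → Flag a b v := fun x =>
    ⟨(x.1.1, os x.1.1 x.1.2), x.2.1, hos2 _ _⟩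
  have hσ : ∀ x, σ (σ x) = x := by
    intro x
    apply Subtype.ext
    refine Prod.ext ?_ rfl
    have h1 := hsg1 _ _ x.2.1 x.2.2
    have h2 := hsg4 _ _ (hsg2 _ _ x.2.1 x.2.2) (hsg3 _ _ x.2.1 x.2.2) x.1.1 x.2.1 x.2.2
    rcases h2 with h3 | h3
    · exact absurd h3.symm h1
    · exact h3.symm
  have hτ : ∀ x, τ (τ x) = x := by
    intro x
    apply Subtype.ext
    refine Prod.ext rfl ?_
    rcases hos3 x.1.1 (os x.1.1 x.1.2) x.1.2 (hos2 _ _) x.2.2 with h1 | h1
    · exact absurd h1.symm (hos1 _ _ x.2.2)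
    · exact h1.symm
  obtain ⟨e0, he0⟩ := hv
  let x0 : Flag a b v := ⟨(e0, (b e0).1), he0, Or.inl rfl⟩
  obtain ⟨n, hn, z, hz1, hz2, hz3⟩ := exists_rot_abs σ τ hσ hτ (fun x => x.1.1) (fun x => x.1.2)
    (fun x => hsg1 _ _ x.2.1 x.2.2) (fun x => rfl)
    (fun x => hos1 _ _ x.2.2) (by
      intro x y hxy
      rcases hos3 x.1.1 x.1.2 y.1.2 x.2.2 (by rw [show x.1.1 = y.1.1 from hxy]; exact y.2.2)
        with h1 | h1
      · left; exact Subtype.ext (Prod.ext hxy.symm h1)
      · right; exact Subtype.ext (Prod.ext hxy.symm h1)) x0 (by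
      intro p hp hcl
      have key := h.conn p ⟨e0, he0, hp⟩ (by
        intro e e' f h1 h2 h3 h4 h5
        rcases hsg4 e f h1 h3 e' h2 h4 with h6 | h6
        · rw [h6]; exact h5
        · have := hcl ⟨(e, f), h1, h3⟩ h5
          rw [h6]; exact this)
      intro x
      exact key _ x.2.1)
  have hA : ∀ i, (z (i + 1)).1.1 = sg (z i).1.1 (z i).1.2 (z i).2.1 (z i).2.2 := by
    intro i; rw [hz1 i]
  have hB : ∀ i, (z (i + 1)).1.2 = os (z (i + 1)).1.1 (z i).1.2 := by
    intro i; rw [hz1 i]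
  have hC : ∀ i, Inc b (z i).1.2 (z (i + 1)).1.1 := by
    intro i; rw [hA i]; exact hsg3 _ _ _ _
  refine ⟨n, hn, fun i => (z i).1.1, fun i => (z i).1.2, hz2, ?_, ?_, ?_, ?_⟩
  · intro e
    constructor
    · intro he
      exact hz3 ⟨(e, (b e).1), he, Or.inl rfl⟩
    · rintro ⟨i, rfl⟩
      exact (z i).2.1
  · intro i j hij
    change (z i).1.2 = (z j).1.2 at hij
    rcases hsg4 _ _ (z i).2.1 (z i).2.2 (z j).1.1 (z j).2.1 (by rw [hij]; exact (z j).2.2)
      with h1 | h1
    · exact (hz2 h1).symm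
    · exfalso
      rw [← hA i] at h1
      have h2 : j = i + 1 := hz2 h1
      rw [h2, hB i] at hij
      exact hos1 _ _ (hC i) hij.symm
  · intro f
    constructor
    · rintro ⟨e, he, hf⟩
      obtain ⟨i, hi⟩ := hz3 ⟨(e, (b e).1), he, Or.inl rfl⟩
      change (z i).1.1 = e at hi
      rcases hos3 (z i).1.1 (z (i - 1)).1.2 f (by
        have := hC (i - 1); rwa [sub_add_cancel] at this) (by rw [hi]; exact hf) with h1 | h1
      · exact ⟨i - 1, h1.symm⟩
      · refine ⟨i, ?_⟩
        have := hB (i - 1)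
        rw [sub_add_cancel] at this
        rw [h1, ← this]
    · rintro ⟨i, rfl⟩
      exact ⟨(z i).1.1, (z i).2.1, (z i).2.2⟩
  · intro i
    exact ⟨(z i).2.2, hC i⟩

end Pool.Agent.Helper1.PG
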