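import Mathlib
import Pool.Agent.Helper1.PG.Rot
import Pool.Agent.Helper1.PG.Minor

/-!
Interface: faces, rotations, Euler and Jordan for a 2-connected plane simple graph.
-/

set_option autoImplicit false

namespace Pool.Agent.Helper1.PG

variable {V : Type}

/-- Faces, rotations, Euler and Jordan for a 2-connected plane simple graph `G`. `on f u v`: the
edge `uv` lies on the face `f`. -/
structure PlaneData [Fintype V] (G : SimpleGraph V) (F : Type) [Fintype F] where
  on : F → V → V → Prop
  on_symm : ∀ f u v, on f u v → on f v u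
  on_adj : ∀ f u v, on f u v → G.Adj u v
  deg : V → ℕ
  two_le_deg : ∀ v, 2 ≤ deg v
  nb : (v : V) → ZMod (deg v) → V
  nb_inj : ∀ v, Function.Injective (nb v)
  adj_iff : ∀ v w, G.Adj v w ↔ ∃ i, nb v i = w
  fc : (v : V) → ZMod (deg v) → F
  fc_inj : ∀ v, Function.Injective (fc v)
  on_iff : ∀ v i f, on f v (nb v i) ↔ f = fc v i ∨ f = fc v (i - 1)
  len : F → ℕ
  three_le_len : ∀ f, 3 ≤ len f
  vx : (f : F) → ZMod (len f) → V
  vx_inj : ∀ f, Function.Injective (vx f)
  on_vx : ∀ f u v, on f u v ↔
    ∃ i, (u = vx f i ∧ v = vx f (i + 1)) ∨ (v = vx f i ∧ u = vx f (i + 1))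
  euler : ∑ f, ((len f : ℤ) - 3) = 3 * Fintype.card V - 6 - Nat.card G.edgeSet
  jordan : ∀ Z : V → V → ZMod 2, (∀ u v, Z u v = Z v u) → (∀ u v, ¬ G.Adj u v → Z u v = 0) →
    (∀ v, ∑ w, Z v w = 0) →
    ∃ s : F → ZMod 2, ∀ f g u v, f ≠ g → on f u v → on g u v → s f + s g = Z u v

/-- Connected after the deletion of any vertex. -/
def TwoC (G : SimpleGraph V) : Prop :=
  ∀ v x y, x ≠ v → y ≠ v → Relation.ReflTransGen (fun p q => G.Adj p q ∧ p ≠ v ∧ q ≠ v) x y

section

variable {F E : Type} [Fintype V] [Fintype F] [Fintype E] {a : E → V × V} {b : E → F × F}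

theorem TwoConn.rotat (h : TwoConn a b) (v : V) : Rotat a b v :=
  Rotat.of_min h.noloop h.dnoloop (fun _ _ h1 h2 => h.corner h1 h2)
    (fun _ hZ hs => h.star_min hZ hs)

theorem TwoConn.rotat_dual (h : TwoConn a b) (f : F) : Rotat b a f :=
  Rotat.of_min h.dnoloop h.noloop (fun _ _ h1 h2 => by
    obtain ⟨e2, h3, h4, h5, h6⟩ := h.corner h2 h1
    exact ⟨e2, h3, h5, h4, fun e h7 h8 => h6 e h8 h7⟩)
    (fun _ hZ hs => h.face_min hZ hs)

/-- Every vertex has an edge. -/
theorem TwoConn.exists_inc (h : TwoConn a b) (hV : 3 ≤ Fintype.card V) (v : V) :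
    ∃ e, Inc a v e := by
  classical
  have : Nontrivial V := Fintype.one_lt_card_iff_nontrivial.1 (by omega)
  obtain ⟨w, hw⟩ := exists_ne v
  obtain ⟨p, q, ⟨e1, he1⟩, h2, h3⟩ := exists_step_ne (p := fun z => z = v)
    (h.plane.conn v w) rfl hw
  subst h2
  refine ⟨e1, ?_⟩
  rcases he1 with h4 | h4
  · exact Or.inl h4.1
  · exact Or.inr h4.2

/-- Every face has an edge. -/
theorem TwoConn.exists_inc_dual (h : TwoConn a b) (hV : 3 ≤ Fintype.card V) (f : F) :
    ∃ e, Inc b f e := by
  classical
  have : Nonempty V := Fintype.card_pos_iff.1 (by omega)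
  obtain ⟨e0, _⟩ := h.exists_inc hV (Classical.arbitrary V)
  have hw : ∃ w, w ≠ f := by
    by_cases h1 : (b e0).1 = f
    · exact ⟨(b e0).2, fun h2 => h.dnoloop e0 (h1.trans h2.symm)⟩
    · exact ⟨(b e0).1, h1⟩
  obtain ⟨w, hw⟩ := hw
  obtain ⟨p, q, ⟨e1, he1⟩, h2, h3⟩ := exists_step_ne (p := fun z => z = f)
    (h.plane.dconn f w) rfl hw
  subst h2
  refine ⟨e1, ?_⟩
  rcases he1 with h4 | h4
  · exact Or.inl h4.1
  · exact Or.inr h4.2

/-- The degree of a face is the number of its edges. -/
theorem TwoConn.dg_eq_card (h : TwoConn a b) {f : F} {n : ℕ} [NeZero n] {z : ZMod n → E}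
    (hz : Function.Injective z) (hz2 : ∀ e, Inc b f e ↔ ∃ i, z i = e) : dg b f = n := by
  classical
  rw [dg_eq]
  have h1 : ∀ e, mu b f e = if e ∈ Finset.univ.image z then 1 else 0 := by
    intro e
    by_cases he : Inc b f e
    · rw [if_pos (by
        obtain ⟨i, hi⟩ := (hz2 e).1 he
        exact Finset.mem_image.2 ⟨i, Finset.mem_univ _, hi⟩)]
      have h2 := h.dnoloop e
      unfold mu
      rcases he with h3 | h3
      · rw [if_pos h3, if_neg (fun h4 => h2 (h3.trans h4.symm))]
      · rw [if_pos h3, if_neg (fun h4 => h2 (h4.trans h3.symm))]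
    · rw [if_neg (by
        intro h2
        obtain ⟨i, _, hi⟩ := Finset.mem_image.1 h2
        exact he ((hz2 e).2 ⟨i, hi⟩))]
      unfold Inc at he
      push Not at he
      unfold mu
      rw [if_neg he.1, if_neg he.2]
  rw [Finset.sum_congr rfl fun e _ => h1 e, Finset.sum_ite_mem, Finset.univ_inter,
    Finset.sum_const, smul_eq_mul, mul_one, Finset.card_image_of_injective _ hz,
    Finset.card_univ, ZMod.card]

/-- The data for a 2-connected simple plane graph. -/
theorem TwoConn.exists_data (h : TwoConn a b) (hs : Simp a) (hV : 3 ≤ Fintype.card V)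
    {G : SimpleGraph V} (hG : ∀ u v, G.Adj u v ↔ u ≠ v ∧ Lk a u v) :
    Nonempty (PlaneData G F) := by
  classical
  choose deg hdeg z w hz1 hz2 hw1 hw2 hzw using fun v => (h.rotat v).exists_rot (h.exists_inc hV v)
  choose len hlen z' w' hz1' hz2' hw1' hw2' hzw' using
    fun f => (h.rotat_dual f).exists_rot (h.exists_inc_dual hV f)
  have hoth : ∀ v (i : ZMod (deg v)), ∃ x, x ≠ v ∧ Jn a v x (z v i) := by
    intro v i
    obtain ⟨x, hx, hx'⟩ := exists_other h.noloop ((hz2 v _).2 ⟨i, rfl⟩)
    exact ⟨x, hx, hx'⟩
  choose nb hnb1 hnb2 using hoth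
  have hadj : ∀ u v e, Jn a u v e → G.Adj u v := by
    intro u v e he
    rw [hG]
    refine ⟨?_, ⟨e, he⟩⟩
    rintro rfl
    rcases he with h1 | h1
    · exact h.noloop e (h1.1.trans h1.2.symm)
    · exact h.noloop e (h1.1.trans h1.2.symm)
  have hnz : ∀ f, NeZero (len f) := fun f => ⟨by have := hlen f; omega⟩
  have hdglen : ∀ f, dg b f = len f := fun f => by
    have := hnz f
    exact h.dg_eq_card (hz1' f) (hz2' f)
  have hnbz : ∀ v i e x, Jn a v x e → (x = nb v i ↔ e = z v i) := by
    intro v i e x hx
    constructor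
    · rintro rfl
      exact hx.unique hs (hnb2 v i)
    · rintro rfl
      exact hx.eq_right h.noloop (hnb2 v i)
  have hedge : ∀ f (i : ZMod (len f)), Jn a (w' f i) (w' f (i + 1)) (z' f (i + 1)) := by
    intro f i
    have h1 := (hzw' f i).2
    have h2 := (hzw' f (i + 1)).1
    apply Jn.of_inc h1 h2
    intro h3
    have h4 := hw1' f h3
    have h5 : (1 : ZMod (len f)) = 0 := by linear_combination -h4
    have h6 : (len f) = 1 := by
      have := (ZMod.natCast_eq_zero_iff 1 (len f)).1 (by simpa using h5)
      exact Nat.dvd_one.1 this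
    have := hlen f
    omega
  refine ⟨{ on := fun f u v => ∃ e, Jn a u v e ∧ Inc b f e
            on_symm := fun f u v ⟨e, h1, h2⟩ => ⟨e, h1.symm, h2⟩
            on_adj := fun f u v ⟨e, h1, h2⟩ => hadj u v e h1
            deg := deg
            two_le_deg := hdeg
            nb := nb
            nb_inj := ?_
            adj_iff := ?_
            fc := w
            fc_inj := hw1
            on_iff := ?_
            len := len
            three_le_len := fun f => by rw [← hdglen]; exact h.plane.three_le_dg hs hV f
            vx := w'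
            vx_inj := hw1'
            on_vx := ?_
            euler := ?_
            jordan := ?_ }⟩
  · -- nb_inj
    intro v i j hij
    have h1 : Jn a v (nb v i) (z v j) := by rw [hij]; exact hnb2 v j
    exact hz1 v ((hnb2 v i).unique hs h1)
  · -- adj_iff
    intro v x
    constructor
    · intro hvx
      obtain ⟨_, e, he⟩ := (hG v x).1 hvx
      obtain ⟨i, hi⟩ := (hz2 v e).1 (Jn.inc he)
      exact ⟨i, ((hnbz v i e x he).2 hi.symm).symm⟩
    · rintro ⟨i, rfl⟩
      exact hadj _ _ _ (hnb2 v i)
  · -- on_iff
    intro v i f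
    constructor
    · rintro ⟨e, h1, h2⟩
      have h3 : e = z v i := h1.unique hs (hnb2 v i)
      rw [h3] at h2
      have h4 := (hzw v i).1
      have h5 := (hzw v (i - 1)).2
      rw [sub_add_cancel] at h5
      have hne : w v i ≠ w v (i - 1) := by
        intro h6
        have h7 := hw1 v h6
        have h8 : (1 : ZMod (deg v)) = 0 := by linear_combination h7
        have h9 := (ZMod.natCast_eq_zero_iff 1 (deg v)).1 (by simpa using h8)
        have := Nat.dvd_one.1 h9
        have := hdeg v
        omega
      -- three faces at one edge: two coincide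
      rcases h2 with h2 | h2 <;> rcases h4 with h4 | h4 <;> rcases h5 with h5 | h5
      · left; exact h2.symm.trans h4
      · left; exact h2.symm.trans h4
      · right; exact h2.symm.trans h5
      · exact absurd (h4.symm.trans h5) hne
      · exact absurd (h4.symm.trans h5) hne
      · right; exact h2.symm.trans h5
      · left; exact h2.symm.trans h4
      · left; exact h2.symm.trans h4
    · rintro (rfl | rfl)
      · exact ⟨z v i, hnb2 v i, (hzw v i).1⟩
      · refine ⟨z v i, hnb2 v i, ?_⟩
        have := (hzw v (i - 1)).2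
        rwa [sub_add_cancel] at this
  · -- on_vx
    intro f u v
    constructor
    · rintro ⟨e, h1, h2⟩
      obtain ⟨i, hi⟩ := (hz2' f e).1 h2
      have h3 := hedge f (i - 1)
      rw [sub_add_cancel, hi] at h3
      refine ⟨i - 1, ?_⟩
      rw [sub_add_cancel]
      rcases h1 with h1 | h1 <;> rcases h3 with h3 | h3
      · left; exact ⟨h1.1.symm.trans h3.1, h1.2.symm.trans h3.2⟩
      · right; exact ⟨h1.2.symm.trans h3.2, h1.1.symm.trans h3.1⟩
      · right; exact ⟨h1.1.symm.trans h3.1, h1.2.symm.trans h3.2⟩
      · left; exact ⟨h1.2.symm.trans h3.2, h1.1.symm.trans h3.1⟩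
    · rintro ⟨i, ⟨rfl, rfl⟩ | ⟨rfl, rfl⟩⟩
      · exact ⟨_, hedge f i, (hz2' f _).2 ⟨_, rfl⟩⟩
      · exact ⟨_, (hedge f i).symm, (hz2' f _).2 ⟨_, rfl⟩⟩
  · -- euler
    have h1 := h.plane.charge
    simp only [hdglen] at h1
    rw [h1]
    have h2 : Nat.card G.edgeSet = Fintype.card E := by
      rw [← Nat.card_eq_fintype_card]
      symm
      apply Nat.card_eq_of_bijective (fun e : E => (⟨s((a e).1, (a e).2), by
        rw [SimpleGraph.mem_edgeSet]
        exact hadj _ _ e (Or.inl ⟨rfl, rfl⟩)⟩ : G.edgeSet))
      constructor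
      · intro e e' hee
        have h3 := congrArg Subtype.val hee
        simp only [Sym2.eq_iff] at h3
        apply hs.nopar
        exact h3
      · rintro ⟨x, hx⟩
        induction x using Sym2.ind with
        | _ u v =>
          rw [SimpleGraph.mem_edgeSet] at hx
          obtain ⟨_, e, he⟩ := (hG u v).1 hx
          refine ⟨e, ?_⟩
          apply Subtype.ext
          show s((a e).1, (a e).2) = s(u, v)
          rw [Sym2.eq_iff]
          exact he
    rw [h2]
  · -- jordan
    intro Z hZs hZ0 hZe
    obtain ⟨s, hs'⟩ := h.plane.exists_side (Z := fun e => Z (a e).1 (a e).2) (by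
      intro v
      rw [← hZe v]
      -- sum over the edges at `v` = sum over neighbours
      have h1 : ∑ e, st a v e * Z (a e).1 (a e).2 =
          ∑ e ∈ Finset.univ.filter (Inc a v), Z (a e).1 (a e).2 := by
        rw [Finset.sum_filter]
        apply Finset.sum_congr rfl
        intro e _
        by_cases he : Inc a v e
        · rw [if_pos he, st_of_inc (h.noloop e) he, one_mul]
        · rw [if_neg he, st_of_not_inc he, zero_mul]
      have h2 : ∑ w, Z v w = ∑ w ∈ Finset.univ.filter (G.Adj v), Z v w := by
        rw [Finset.sum_filter]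
        apply Finset.sum_congr rfl
        intro w _
        by_cases hw : G.Adj v w
        · rw [if_pos hw]
        · rw [if_neg hw, hZ0 v w hw]
      rw [h1, h2]
      refine Finset.sum_bij (fun e _ => if (a e).1 = v then (a e).2 else (a e).1) ?_ ?_ ?_ ?_
      · intro e he
        have he' := (Finset.mem_filter.1 he).2
        apply Finset.mem_filter.2 ⟨Finset.mem_univ _, ?_⟩
        by_cases h3 : (a e).1 = v
        · rw [if_pos h3]
          exact hadj _ _ e (Or.inl ⟨h3, rfl⟩)
        · rw [if_neg h3]
          rcases he' with h4 | h4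
          · exact absurd h4 h3
          · exact hadj _ _ e (Or.inr ⟨rfl, h4⟩)
      · intro e he e' he' hee
        have g1 := (Finset.mem_filter.1 he).2
        have g2 := (Finset.mem_filter.1 he').2
        apply hs.nopar
        by_cases h3 : (a e).1 = v
        · rw [if_pos h3] at hee
          by_cases h4 : (a e').1 = v
          · rw [if_pos h4] at hee
            exact Or.inl ⟨h3.trans h4.symm, hee⟩
          · rw [if_neg h4] at hee
            rcases g2 with g2 | g2
            · exact absurd g2 h4
            · exact Or.inr ⟨h3.trans g2.symm, hee⟩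
        · rw [if_neg h3] at hee
          rcases g1 with g1 | g1
          · exact absurd g1 h3
          · by_cases h4 : (a e').1 = v
            · rw [if_pos h4] at hee
              exact Or.inr ⟨hee, g1.trans h4.symm⟩
            · rw [if_neg h4] at hee
              rcases g2 with g2 | g2
              · exact absurd g2 h4
              · exact Or.inl ⟨hee, g1.trans g2.symm⟩
      · intro w hw
        have hw' := (Finset.mem_filter.1 hw).2
        obtain ⟨hne, e, he⟩ := (hG v w).1 hw'
        refine ⟨e, Finset.mem_filter.2 ⟨Finset.mem_univ _, Jn.inc he⟩, ?_⟩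
        rcases he with he | he
        · rw [if_pos he.1]; exact he.2
        · rw [if_neg (by rw [he.1]; exact hne.symm)]; exact he.1
      · intro e he
        have g1 := (Finset.mem_filter.1 he).2
        by_cases h3 : (a e).1 = v
        · rw [if_pos h3, h3]
        · rw [if_neg h3]
          rcases g1 with g1 | g1
          · exact absurd g1 h3
          · rw [hZs, g1])
    refine ⟨s, ?_⟩
    rintro f g u v hfg ⟨e, he, hf⟩ ⟨e', he', hg⟩
    have h1 : e' = e := he'.unique hs he
    rw [h1] at hg
    have h2 := hs' e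
    have h3 : Z (a e).1 (a e).2 = Z u v := by
      rcases he with he | he
      · rw [he.1, he.2]
      · rw [he.1, he.2, hZs]
    rw [← h3]
    show s f + s g = Z (a e).1 (a e).2
    rw [h2]
    unfold cutZ
    rcases hf with hf | hf <;> rcases hg with hg | hg
    · exact absurd (hf.symm.trans hg) hfg
    · rw [hf, hg]
    · rw [hf, hg, add_comm]
    · exact absurd (hf.symm.trans hg) hfg

end

/-- Faces, rotations, Euler and Jordan for every 2-connected graph in the class. -/
theorem exists_planeData [Fintype V] {G : SimpleGraph V} (hV : 3 ≤ Fintype.card V) (h2 : TwoC G)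
    (hP : Pl G) : ∃ (F : Type) (_ : Fintype F), Nonempty (PlaneData G F) := by
  classical
  have : Nonempty V := Fintype.card_pos_iff.1 (by omega)
  obtain ⟨F, E, i1, i2, a, b, hp, hG⟩ := hP.exists_spanning
  have hconn : ∀ u v, Relation.ReflTransGen (fun x y => G.Adj x y ∨ G.Adj y x) u v := by
    intro u v
    obtain ⟨w, hw⟩ : ∃ w, w ≠ u ∧ w ≠ v := by
      by_contra hno
      push Not at hno
      have h3 : Finset.univ ⊆ ({u, v} : Finset V) := by
        intro w _
        by_cases h4 : w = u
        · simp [h4]
        · simp [hno w h4]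
      have h5 := Finset.card_le_card h3
      rw [Finset.card_univ] at h5
      have h6 := Finset.card_le_two (a := u) (b := v)
      omega
    have h3 := h2 w u v (Ne.symm hw.1) (Ne.symm hw.2)
    clear hw
    induction h3 with
    | refl => exact Relation.ReflTransGen.refl
    | tail _ h4 ih => exact ih.tail (Or.inl h4.1)
  obtain ⟨F', E', i3, i4, a', b', hp', hs, hl, hl2⟩ :=
    IsPl.exists_simple G.Adj hconn (Fintype.card E) F E a b rfl hp (fun u v huv _ => hG u v huv)
  have hG' : ∀ u v, G.Adj u v ↔ u ≠ v ∧ Lk a' u v := by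
    intro u v
    constructor
    · intro huv
      exact ⟨huv.ne, hl u v huv huv.ne⟩
    · rintro ⟨_, e, he⟩
      have := hl2 e
      rcases he with ⟨h3, h4⟩ | ⟨h3, h4⟩
      · rw [h3, h4] at this
        rcases this with h5 | h5
        · exact h5
        · exact h5.symm
      · rw [h3, h4] at this
        rcases this with h5 | h5
        · exact h5.symm
        · exact h5
  have hF : 0 < Fintype.card F' := by
    have h3 := hp'.euler
    by_contra h4
    have h5 : Fintype.card F' = 0 := by omega
    have h6 : IsEmpty F' := Fintype.card_eq_zero_iff.1 h5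
    have h7 : Fintype.card E' = 0 := Fintype.card_eq_zero_iff.2 ⟨fun e => h6.elim (b' e).1⟩
    have h8 : IsEmpty E' := Fintype.card_eq_zero_iff.1 h7
    -- two vertices are connected, so there is an edge
    have : Nontrivial V := Fintype.one_lt_card_iff_nontrivial.1 (by omega)
    obtain ⟨u, v, huv⟩ := exists_pair_ne V
    obtain ⟨p, q, ⟨e, _⟩, _, _⟩ := exists_step_ne (p := fun z => z = u) (hp'.conn u v) rfl
      (fun h => huv h.symm)
    exact h8.elim e
  have htc : TwoConn a' b' := by
    refine ⟨hp'.toIsPlane, hs.noloop, ?_, ?_⟩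
    · intro v x y hx hy
      have h3 := h2 v x y hx hy
      clear hx hy
      induction h3 with
      | refl => exact Relation.ReflTransGen.refl
      | @tail p q _ h4 ih =>
      refine ih.tail ?_
      obtain ⟨hpq, hpv, hqv⟩ := h4
      obtain ⟨_, e, he⟩ := (hG' p q).1 hpq
      refine ⟨e, ?_, he⟩
      rintro (h3 | h3)
      · rcases he with he | he
        · exact hpv (he.1.symm.trans h3)
        · exact hqv (he.1.symm.trans h3)
      · rcases he with he | he
        · exact hqv (he.2.symm.trans h3)
        · exact hpv (he.2.symm.trans h3)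
    · intro e
      have h3 := hp'.euler
      have : Nontrivial E' := Fintype.one_lt_card_iff_nontrivial.1 (by omega)
      exact exists_ne e
  exact ⟨F', i3, htc.exists_data hs hV hG'⟩

end Pool.Agent.Helper1.PG
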