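import Mathlib
import Pool.Agent.Helper1.PG.Data

/-!
Consequences of the interface: corners, double counting, separations.
-/

set_option autoImplicit false

namespace Pool.Agent.Helper1.PG

theorem zmod_val_lt_cast {n : ℕ} [NeZero n] (i : ZMod n) : ((i.val : ℕ) : ZMod n) = i :=
  ZMod.natCast_zmod_val i

theorem zmod_cast_ne_zero {n r : ℕ} (h1 : 1 ≤ r) (h2 : r < n) : ((r : ℕ) : ZMod n) ≠ 0 := by
  intro h
  have := (ZMod.natCast_eq_zero_iff r n).1 h
  exact absurd (Nat.le_of_dvd (by omega) this) (by omega)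

namespace PlaneData

variable {V F : Type} [Fintype V] [Fintype F] {G : SimpleGraph V} (D : PlaneData G F)

instance nzdeg (v : V) : NeZero (D.deg v) := ⟨by have := D.two_le_deg v; omega⟩

instance nzlen (f : F) : NeZero (D.len f) := ⟨by have := D.three_le_len f; omega⟩

theorem one_ne (v : V) : (1 : ZMod (D.deg v)) ≠ 0 := by
  have := zmod_cast_ne_zero (n := D.deg v) (r := 1) le_rfl (by have := D.two_le_deg v; omega)
  simpa using this

theorem one_ne' (f : F) : (1 : ZMod (D.len f)) ≠ 0 := by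
  have := zmod_cast_ne_zero (n := D.len f) (r := 1) le_rfl (by have := D.three_le_len f; omega)
  simpa using this

theorem two_ne' (f : F) : (2 : ZMod (D.len f)) ≠ 0 := by
  have := zmod_cast_ne_zero (n := D.len f) (r := 2) (by omega)
    (by have := D.three_le_len f; omega)
  simpa using this

theorem adj_nb (v : V) (i : ZMod (D.deg v)) : G.Adj v (D.nb v i) := (D.adj_iff v _).2 ⟨i, rfl⟩

theorem on_fc (v : V) (i : ZMod (D.deg v)) : D.on (D.fc v i) v (D.nb v i) :=
  (D.on_iff v i _).2 (Or.inl rfl)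

theorem on_fc' (v : V) (i : ZMod (D.deg v)) : D.on (D.fc v i) v (D.nb v (i + 1)) := by
  rw [D.on_iff]
  right
  rw [add_sub_cancel_right]

theorem fc_ne (v : V) (i : ZMod (D.deg v)) : D.fc v i ≠ D.fc v (i - 1) := by
  intro h
  have h1 := D.fc_inj v h
  exact D.one_ne v (by linear_combination h1)

theorem nb_ne (v : V) (i : ZMod (D.deg v)) : D.nb v i ≠ D.nb v (i + 1) := by
  intro h
  have h1 := D.nb_inj v h
  exact D.one_ne v (by linear_combination -h1)

/-- An edge lies on exactly two faces. -/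
theorem exists_two {u v : V} (h : G.Adj u v) :
    ∃ f g, f ≠ g ∧ ∀ k, D.on k u v ↔ k = f ∨ k = g := by
  obtain ⟨i, rfl⟩ := (D.adj_iff u v).1 h
  exact ⟨_, _, D.fc_ne u i, D.on_iff u i⟩

/-- The vertex `v` lies on the face `f`. -/
def Von (f : F) (v : V) : Prop := ∃ i, D.vx f i = v

theorem on_Von {f : F} {u v : V} (h : D.on f u v) : D.Von f u := by
  obtain ⟨i, h1 | h1⟩ := (D.on_vx f u v).1 h
  · exact ⟨i, h1.1.symm⟩
  · exact ⟨i + 1, h1.2.symm⟩

theorem on_Von' {f : F} {u v : V} (h : D.on f u v) : D.Von f v := D.on_Von (D.on_symm _ _ _ h)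

theorem on_vx_succ (f : F) (i : ZMod (D.len f)) : D.on f (D.vx f i) (D.vx f (i + 1)) :=
  (D.on_vx f _ _).2 ⟨i, Or.inl ⟨rfl, rfl⟩⟩

theorem adj_vx_succ (f : F) (i : ZMod (D.len f)) : G.Adj (D.vx f i) (D.vx f (i + 1)) :=
  D.on_adj _ _ _ (D.on_vx_succ f i)

theorem Von_iff (f : F) (v : V) : D.Von f v ↔ ∃ i, D.fc v i = f := by
  constructor
  · rintro ⟨i, rfl⟩
    have h := D.on_vx_succ f i
    obtain ⟨j, hj⟩ := (D.adj_iff _ _).1 (D.adj_vx_succ f i)
    rw [← hj, D.on_iff] at h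
    rcases h with h | h
    · exact ⟨j, h.symm⟩
    · exact ⟨j - 1, h.symm⟩
  · rintro ⟨i, rfl⟩
    exact D.on_Von (D.on_fc v i)

theorem Von_fc (v : V) (i : ZMod (D.deg v)) : D.Von (D.fc v i) v := (D.Von_iff _ _).2 ⟨i, rfl⟩

theorem Von_nb (v : V) (i : ZMod (D.deg v)) : D.Von (D.fc v i) (D.nb v i) :=
  D.on_Von' (D.on_fc v i)

theorem Von_nb' (v : V) (i : ZMod (D.deg v)) : D.Von (D.fc v i) (D.nb v (i + 1)) :=
  D.on_Von' (D.on_fc' v i)

theorem on_eq_vx {f : F} {v w : V} {i : ZMod (D.len f)} (hi : D.vx f i = v) (h : D.on f v w) :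
    w = D.vx f (i - 1) ∨ w = D.vx f (i + 1) := by
  obtain ⟨j, ⟨h1, h2⟩ | ⟨h1, h2⟩⟩ := (D.on_vx f v w).1 h
  · right
    have : j = i := D.vx_inj f (by rw [hi, h1])
    rw [← this]; exact h2
  · left
    have : j + 1 = i := D.vx_inj f (by rw [hi, h2])
    rw [← this, add_sub_cancel_right]; exact h1

/-- The two neighbours at a corner are the neighbours on the boundary cycle of the face. -/
theorem corner_vx {v : V} {m : ZMod (D.deg v)} {i : ZMod (D.len (D.fc v m))}
    (hi : D.vx (D.fc v m) i = v) :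
    (D.nb v m = D.vx (D.fc v m) (i - 1) ∧ D.nb v (m + 1) = D.vx (D.fc v m) (i + 1)) ∨
    (D.nb v m = D.vx (D.fc v m) (i + 1) ∧ D.nb v (m + 1) = D.vx (D.fc v m) (i - 1)) := by
  have h1 := D.on_eq_vx hi (D.on_fc v m)
  have h2 := D.on_eq_vx hi (D.on_fc' v m)
  have h3 := D.nb_ne v m
  rcases h1 with h1 | h1 <;> rcases h2 with h2 | h2
  · exact absurd (h1.trans h2.symm) h3
  · exact Or.inl ⟨h1, h2⟩
  · exact Or.inr ⟨h1, h2⟩
  · exact absurd (h1.trans h2.symm) h3

open scoped Classical in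
theorem deg_eq_card (v : V) : D.deg v = (Finset.univ.filter (G.Adj v)).card := by
  have h1 : (Finset.univ.filter (G.Adj v)) = Finset.univ.image (D.nb v) := by
    ext w
    simp only [Finset.mem_filter, Finset.mem_univ, true_and, Finset.mem_image]
    exact D.adj_iff v w
  rw [h1, Finset.card_image_of_injective _ (D.nb_inj v), Finset.card_univ, ZMod.card]

theorem deg_eq_natCard (v : V) : D.deg v = Nat.card (G.neighborSet v) := by
  have h1 : Function.Bijective (fun i => (⟨D.nb v i, D.adj_nb v i⟩ : G.neighborSet v)) := by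
    constructor
    · intro i j hij
      exact D.nb_inj v (congrArg Subtype.val hij)
    · rintro ⟨w, hw⟩
      obtain ⟨i, hi⟩ := (D.adj_iff v w).1 hw
      exact ⟨i, Subtype.ext hi⟩
  rw [← Nat.card_eq_of_bijective _ h1, Nat.card_eq_fintype_card, ZMod.card]

/-- Double counting of the corners. -/
theorem sum_corners {M : Type} [AddCommMonoid M] (φ : V → F → M) :
    ∑ u, ∑ m : ZMod (D.deg u), φ u (D.fc u m) =
      ∑ f, ∑ i : ZMod (D.len f), φ (D.vx f i) f := by
  classical
  have h1 : ∀ u, ∑ m : ZMod (D.deg u), φ u (D.fc u m) =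
      ∑ f, if D.Von f u then φ u f else 0 := by
    intro u
    rw [← Finset.sum_filter]
    have h2 : Finset.univ.filter (fun f => D.Von f u) = Finset.univ.image (D.fc u) := by
      ext f
      simp only [Finset.mem_filter, Finset.mem_univ, true_and, Finset.mem_image]
      exact D.Von_iff f u
    rw [h2, Finset.sum_image]
    intro i _ j _ hij
    exact D.fc_inj u hij
  have h3 : ∀ f, ∑ i : ZMod (D.len f), φ (D.vx f i) f =
      ∑ u, if D.Von f u then φ u f else 0 := by
    intro f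
    rw [← Finset.sum_filter]
    have h2 : Finset.univ.filter (fun u => D.Von f u) = Finset.univ.image (D.vx f) := by
      ext u
      simp only [Finset.mem_filter, Finset.mem_univ, true_and, Finset.mem_image]
      exact Iff.rfl
    rw [h2, Finset.sum_image]
    intro i _ j _ hij
    exact D.vx_inj f hij
  rw [Finset.sum_congr rfl fun u _ => h1 u, Finset.sum_congr rfl fun f _ => h3 f, Finset.sum_comm]

/-- The neighbours at a triangular corner are adjacent. -/
theorem adj_of_len3 {u : V} {m : ZMod (D.deg u)} (h : D.len (D.fc u m) = 3) :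
    G.Adj (D.nb u m) (D.nb u (m + 1)) := by
  obtain ⟨i, hi⟩ := D.Von_fc u m
  have h3 : (i + 1) + 1 = i - 1 := by
    have h0 : ((3 : ℕ) : ZMod (D.len (D.fc u m))) = 0 :=
      (ZMod.natCast_eq_zero_iff 3 _).2 (by rw [h])
    push_cast at h0
    linear_combination h0
  have h4 := D.adj_vx_succ (D.fc u m) (i + 1)
  rw [h3] at h4
  rcases D.corner_vx hi with ⟨h1, h2⟩ | ⟨h1, h2⟩
  · rw [h1, h2]; exact h4.symm
  · rw [h1, h2]; exact h4

/-- A face of length at least four has a further vertex. -/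
theorem exists_Von_of_four_le {u : V} {m : ZMod (D.deg u)} (h : 4 ≤ D.len (D.fc u m)) :
    ∃ y, D.Von (D.fc u m) y ∧ y ≠ u ∧ y ≠ D.nb u m ∧ y ≠ D.nb u (m + 1) := by
  obtain ⟨i, hi⟩ := D.Von_fc u m
  have h1 : ((1 : ℕ) : ZMod (D.len (D.fc u m))) ≠ 0 := zmod_cast_ne_zero le_rfl (by omega)
  have h2 : ((2 : ℕ) : ZMod (D.len (D.fc u m))) ≠ 0 := zmod_cast_ne_zero (by omega) (by omega)
  have h3 : ((3 : ℕ) : ZMod (D.len (D.fc u m))) ≠ 0 := zmod_cast_ne_zero (by omega) (by omega)
  push_cast at h1 h2 h3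
  refine ⟨D.vx _ (i + 2), ⟨_, rfl⟩, ?_, ?_, ?_⟩
  · intro h5
    exact h2 (by linear_combination D.vx_inj _ (h5.trans hi.symm))
  · intro h5
    rcases D.corner_vx hi with ⟨h6, _⟩ | ⟨h6, _⟩
    · rw [h6] at h5
      exact h3 (by linear_combination D.vx_inj _ h5)
    · rw [h6] at h5
      exact h1 (by linear_combination D.vx_inj _ h5)
  · intro h5
    rcases D.corner_vx hi with ⟨_, h6⟩ | ⟨_, h6⟩
    · rw [h6] at h5
      exact h1 (by linear_combination D.vx_inj _ h5)
    · rw [h6] at h5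
      exact h3 (by linear_combination D.vx_inj _ h5)

/-- The opposite vertex of a quadrangular corner. -/
theorem exists_opposite {u : V} {m : ZMod (D.deg u)} (h : D.len (D.fc u m) = 4) :
    ∃ x, x ≠ u ∧ x ≠ D.nb u m ∧ x ≠ D.nb u (m + 1) ∧ D.Von (D.fc u m) x ∧
      G.Adj x (D.nb u m) ∧ G.Adj x (D.nb u (m + 1)) ∧
      ∀ y, D.Von (D.fc u m) y → y = u ∨ y = D.nb u m ∨ y = D.nb u (m + 1) ∨ y = x := by
  obtain ⟨i, hi⟩ := D.Von_fc u m
  have h1 : ((1 : ℕ) : ZMod (D.len (D.fc u m))) ≠ 0 := zmod_cast_ne_zero le_rfl (by omega)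
  have h2 : ((2 : ℕ) : ZMod (D.len (D.fc u m))) ≠ 0 := zmod_cast_ne_zero (by omega) (by omega)
  have h3 : ((3 : ℕ) : ZMod (D.len (D.fc u m))) ≠ 0 := zmod_cast_ne_zero (by omega) (by omega)
  have h4 : ((4 : ℕ) : ZMod (D.len (D.fc u m))) = 0 :=
    (ZMod.natCast_eq_zero_iff 4 _).2 (by rw [h])
  push_cast at h1 h2 h3 h4
  have ha : G.Adj (D.vx (D.fc u m) (i + 2)) (D.vx (D.fc u m) (i + 1)) := by
    have := D.adj_vx_succ (D.fc u m) (i + 1)
    rw [show i + 1 + 1 = i + 2 by ring] at this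
    exact this.symm
  have hb : G.Adj (D.vx (D.fc u m) (i + 2)) (D.vx (D.fc u m) (i - 1)) := by
    have := D.adj_vx_succ (D.fc u m) (i + 2)
    rw [show i + 2 + 1 = i - 1 by linear_combination h4] at this
    exact this
  have hall : ∀ y, D.Von (D.fc u m) y → y = u ∨ y = D.vx (D.fc u m) (i - 1) ∨
      y = D.vx (D.fc u m) (i + 1) ∨ y = D.vx (D.fc u m) (i + 2) := by
    rintro y ⟨j, rfl⟩
    have hj : ∃ t : ℕ, t < 4 ∧ j = i + t := by
      refine ⟨(j - i).val, ?_, ?_⟩
      · have := ZMod.val_lt (j - i)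
        omega
      · rw [zmod_val_lt_cast]; ring
    obtain ⟨t, ht, rfl⟩ := hj
    interval_cases t
    · left; simpa using hi
    · right; right; left; simp
    · right; right; right; push_cast; rfl
    · right; left
      congr 1
      push_cast
      linear_combination h4
  refine ⟨D.vx _ (i + 2), ?_, ?_, ?_, ⟨_, rfl⟩, ?_, ?_, ?_⟩
  · intro h5
    exact h2 (by linear_combination D.vx_inj _ (h5.trans hi.symm))
  · intro h5
    rcases D.corner_vx hi with ⟨h6, _⟩ | ⟨h6, _⟩
    · rw [h6] at h5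
      exact h3 (by linear_combination D.vx_inj _ h5)
    · rw [h6] at h5
      exact h1 (by linear_combination D.vx_inj _ h5)
  · intro h5
    rcases D.corner_vx hi with ⟨_, h6⟩ | ⟨_, h6⟩
    · rw [h6] at h5
      exact h1 (by linear_combination D.vx_inj _ h5)
    · rw [h6] at h5
      exact h3 (by linear_combination D.vx_inj _ h5)
  · rcases D.corner_vx hi with ⟨h6, _⟩ | ⟨h6, _⟩
    · rw [h6]; exact hb
    · rw [h6]; exact ha
  · rcases D.corner_vx hi with ⟨_, h6⟩ | ⟨_, h6⟩
    · rw [h6]; exact ha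
    · rw [h6]; exact hb
  · intro y hy
    rcases D.corner_vx hi with ⟨h6, h7⟩ | ⟨h6, h7⟩
    · rw [h6, h7]; exact hall y hy
    · rw [h6, h7]
      rcases hall y hy with h8 | h8 | h8 | h8
      · exact Or.inl h8
      · exact Or.inr (Or.inr (Or.inl h8))
      · exact Or.inr (Or.inl h8)
      · exact Or.inr (Or.inr (Or.inr h8))

end PlaneData

end Pool.Agent.Helper1.PG
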