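import Mathlib
import Pool.Agent.Helper1.PG.Minor

/-!
Tracked faces: closed walks with marked corners along the boundary of a face; insertion of an edge
between two marked corners.
-/

set_option autoImplicit false

namespace Pool.Agent.Helper1.PG

variable {V F E : Type}

/-- The face of a side of an edge. -/
def sf (b : E → F × F) (s : E × Bool) : F := if s.2 then (b s.1).2 else (b s.1).1

/-- Tokens: a mark at the current vertex, or a step along a side of an edge to a vertex. -/
abbrev Tok (V E : Type) : Type := V ⊕ ((E × Bool) × V)

/-- The word `l` describes a walk from `x` to `y`. -/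
def Path (a : E → V × V) : V → List (Tok V E) → V → Prop
  | x, [], y => x = y
  | x, (Sum.inl v :: l), y => v = x ∧ Path a x l y
  | x, (Sum.inr (s, z) :: l), y => Jn a x z s.1 ∧ Path a z l y

/-- The sides used by a word. -/
def sides : List (Tok V E) → List (E × Bool)
  | [] => []
  | (Sum.inl _ :: l) => sides l
  | (Sum.inr (s, _) :: l) => s :: sides l

/-- The marked corners of a word. -/
def marks : List (Tok V E) → List V
  | [] => []
  | (Sum.inl v :: l) => v :: marks l
  | (Sum.inr _ :: l) => marks l

theorem sides_append (l l' : List (Tok V E)) : sides (l ++ l') = sides l ++ sides l' := by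
  induction l with
  | nil => rfl
  | cons t l ih =>
    rcases t with v | ⟨s, z⟩
    · exact ih
    · show s :: sides (l ++ l') = s :: sides l ++ sides l'
      rw [ih]; rfl

theorem marks_append (l l' : List (Tok V E)) : marks (l ++ l') = marks l ++ marks l' := by
  induction l with
  | nil => rfl
  | cons t l ih =>
    rcases t with v | ⟨s, z⟩
    · show v :: marks (l ++ l') = v :: marks l ++ marks l'
      rw [ih]; rfl
    · exact ih

theorem path_append (a : E → V × V) (l l' : List (Tok V E)) (x y : V) :
    Path a x (l ++ l') y ↔ ∃ z, Path a x l z ∧ Path a z l' y := by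
  induction l generalizing x with
  | nil =>
    constructor
    · intro h; exact ⟨x, rfl, h⟩
    · rintro ⟨z, h1, h2⟩
      have h1 : x = z := h1
      rw [h1]; exact h2
  | cons t l ih =>
    rcases t with v | ⟨s, z⟩
    · show v = x ∧ Path a x (l ++ l') y ↔ ∃ z, (v = x ∧ Path a x l z) ∧ Path a z l' y
      rw [ih]
      constructor
      · rintro ⟨h1, z, h2, h3⟩; exact ⟨z, ⟨h1, h2⟩, h3⟩
      · rintro ⟨z, ⟨h1, h2⟩, h3⟩; exact ⟨h1, z, h2, h3⟩
    · show Jn a x z s.1 ∧ Path a z (l ++ l') y ↔ ∃ w, (Jn a x z s.1 ∧ Path a z l w) ∧ Path a w l' y
      rw [ih]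
      constructor
      · rintro ⟨h1, w, h2, h3⟩; exact ⟨w, ⟨h1, h2⟩, h3⟩
      · rintro ⟨w, ⟨h1, h2⟩, h3⟩; exact ⟨h1, w, h2, h3⟩

/-- Split a word at a mark. -/
theorem exists_split_mark : ∀ (l : List (Tok V E)) (i : ℕ) (v : V), (marks l)[i]? = some v →
    ∃ l1 l2, l = l1 ++ Sum.inl v :: l2 ∧ marks l1 = (marks l).take i ∧
      marks l2 = (marks l).drop (i + 1)
  | [], i, v, h => by simp [marks] at h
  | (Sum.inl w :: l), 0, v, h => by
    have h1 : w = v := by
      have : (w :: marks l)[0]? = some v := h
      simpa using this
    subst h1
    exact ⟨[], l, rfl, rfl, rfl⟩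
  | (Sum.inl w :: l), (i + 1), v, h => by
    have h1 : (marks l)[i]? = some v := by
      have : (w :: marks l)[i + 1]? = some v := h
      simpa using this
    obtain ⟨l1, l2, h2, h3, h4⟩ := exists_split_mark l i v h1
    refine ⟨Sum.inl w :: l1, l2, by rw [h2]; rfl, ?_, ?_⟩
    · show w :: marks l1 = (w :: marks l).take (i + 1)
      rw [h3, List.take_succ_cons]
    · show marks l2 = (w :: marks l).drop (i + 1 + 1)
      rw [h4, List.drop_succ_cons]
  | (Sum.inr t :: l), i, v, h => by
    have h1 : (marks l)[i]? = some v := h
    obtain ⟨l1, l2, h2, h3, h4⟩ := exists_split_mark l i v h1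
    exact ⟨Sum.inr t :: l1, l2, by rw [h2]; rfl, h3, h4⟩

/-- The sum of the edges along a walk. -/
theorem sum_path (a : E → V × V) : ∀ (l : List (Tok V E)) (x y : V), Path a x l y → ∀ v,
    ((sides l).map (fun s => st a v s.1)).sum = ind (x = v) + ind (y = v)
  | [], x, y, h, v => by
    have h1 : x = y := h
    subst h1
    show (0 : ZMod 2) = _
    rw [z2_add_self]
  | (Sum.inl w :: l), x, y, h, v => sum_path a l x y h.2 v
  | (Sum.inr (s, z) :: l), x, y, h, v => by
    show st a v s.1 + ((sides l).map (fun s => st a v s.1)).sum = _
    rw [sum_path a l z y h.2 v]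
    have h1 : st a v s.1 = ind (x = v) + ind (z = v) := by
      unfold st
      rcases h.1 with h2 | h2
      · rw [h2.1, h2.2]
      · rw [h2.1, h2.2, add_comm]
    rw [h1]
    linear_combination z2_add_self (ind (z = v))

/-- Edges on a walk are connected to the start inside the walk. -/
theorem path_conn {a : E → V × V} {P : E → Prop} : ∀ (l : List (Tok V E)) (x y : V),
    Path a x l y → (∀ s ∈ sides l, P s.1) → ∀ s ∈ sides l,
    Relation.ReflTransGen (LkOn a P) x (a s.1).1
  | [], x, y, _, _, s, hs => by simp [sides] at hs
  | (Sum.inl w :: l), x, y, h, hP, s, hs => path_conn l x y h.2 hP s hs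
  | (Sum.inr (t, z) :: l), x, y, h, hP, s, hs => by
    have hs' : s ∈ t :: sides l := hs
    have hPt : P t.1 := hP t (List.mem_cons_self ..)
    rcases List.mem_cons.1 hs' with rfl | hs'
    · rcases h.1 with h2 | h2
      · rw [h2.1]
      · refine Relation.ReflTransGen.single ⟨s.1, hPt, Or.inr ⟨rfl, h2.2⟩⟩
    · have h3 : Relation.ReflTransGen (LkOn a P) x z :=
        Relation.ReflTransGen.single ⟨t.1, hPt, h.1⟩
      exact h3.trans (path_conn l z y h.2 (fun s hs => hP s (List.mem_cons_of_mem _ hs)) s hs')

/-- The face `f` is tracked by the closed word `l` starting at `x`. -/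
structure Trk (a : E → V × V) (b : E → F × F) (f : F) (x : V) (l : List (Tok V E)) : Prop where
  path : Path a x l x
  nodup : (sides l).Nodup
  mem : ∀ s, s ∈ sides l ↔ sf b s = f

theorem Trk.fc {a : E → V × V} {b : E → F × F} {f : F} {x : V} {l : List (Tok V E)}
    (h : Trk a b f x l) {e : E} (he : Inc b f e) :
    Relation.ReflTransGen (LkOn a (Inc b f)) x (a e).1 := by
  have hinc : ∀ s ∈ sides l, Inc b f s.1 := by
    intro s hs
    have h1 := (h.mem s).1 hs
    unfold sf at h1
    by_cases h2 : s.2 = true
    · rw [if_pos h2] at h1; exact Or.inr h1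
    · rw [if_neg h2] at h1; exact Or.inl h1
  rcases he with he | he
  · exact path_conn l x x h.path hinc (e, false) ((h.mem _).2 (by unfold sf; simpa using he))
  · exact path_conn l x x h.path hinc (e, true) ((h.mem _).2 (by unfold sf; simpa using he))

/-- Words after the insertion of a new edge. -/
def liftTok (l : List (Tok V E)) : List (Tok V (Option E)) :=
  l.map (Sum.map id (fun t => ((some t.1.1, t.1.2), t.2)))

theorem marks_liftTok (l : List (Tok V E)) : marks (liftTok l) = marks l := by
  induction l with
  | nil => rfl
  | cons t l ih =>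
    rcases t with v | ⟨s, z⟩
    · show v :: marks (liftTok l) = v :: marks l
      rw [ih]
    · exact ih

theorem sides_liftTok (l : List (Tok V E)) :
    sides (liftTok l) = (sides l).map (fun s => (some s.1, s.2)) := by
  induction l with
  | nil => rfl
  | cons t l ih =>
    rcases t with v | ⟨s, z⟩
    · exact ih
    · show (some s.1, s.2) :: sides (liftTok l) = (some s.1, s.2) :: _
      rw [ih]

theorem path_liftTok (a : E → V × V) (p r : V) (l : List (Tok V E)) (x y : V) (h : Path a x l y) :
    Path (addE a p r) x (liftTok l) y := by
  induction l generalizing x with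
  | nil => exact h
  | cons t l ih =>
    rcases t with v | ⟨s, z⟩
    · exact ⟨h.1, ih x h.2⟩
    · exact ⟨h.1, ih z h.2⟩

theorem mem_sides_liftTok (l : List (Tok V E)) (s : E × Bool) :
    ((some s.1, s.2) : Option E × Bool) ∈ sides (liftTok l) ↔ s ∈ sides l := by
  rw [sides_liftTok, List.mem_map]
  constructor
  · rintro ⟨t, ht, h⟩
    have h1 : t = s := by
      have h2 := congrArg Prod.fst h
      have h3 := congrArg Prod.snd h
      exact Prod.ext (Option.some_injective _ h2) h3
    rw [← h1]; exact ht
  · intro hs; exact ⟨s, hs, rfl⟩

theorem none_not_mem_liftTok (l : List (Tok V E)) (c : Bool) :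
    ((none, c) : Option E × Bool) ∉ sides (liftTok l) := by
  rw [sides_liftTok, List.mem_map]
  rintro ⟨t, _, h⟩
  have h2 := congrArg Prod.fst h
  simp at h2

theorem nodup_sides_liftTok (l : List (Tok V E)) (h : (sides l).Nodup) :
    (sides (liftTok l)).Nodup := by
  rw [sides_liftTok]
  apply h.map
  intro s t hst
  have h2 := congrArg Prod.fst hst
  have h3 := congrArg Prod.snd hst
  exact Prod.ext (Option.some_injective _ h2) h3

/-- Insertion of an edge between two marked corners of a tracked face. -/
theorem IsPl.insert_trk [Fintype V] [Fintype F] [Fintype E] {a : E → V × V} {b : E → F × F}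
    (h : IsPl a b) {f0 : F} {x0 p r : V} {l1 l2 l3 : List (Tok V E)}
    (ht : Trk a b f0 x0 (l1 ++ Sum.inl p :: (l2 ++ Sum.inl r :: l3))) :
    ∃ (A1 A2 : E → Prop), IsPl (addE a p r) (splitF b f0 A1 A2) ∧
      Trk (addE a p r) (splitF b f0 A1 A2) none p
        (Sum.inl p :: (liftTok l2 ++ [Sum.inl r, Sum.inr ((none, true), p)])) ∧
      Trk (addE a p r) (splitF b f0 A1 A2) (some f0) x0
        (liftTok l1 ++ Sum.inl p :: Sum.inr ((none, false), r) :: Sum.inl r :: liftTok l3) ∧
      ∀ g x l, g ≠ f0 → Trk a b g x l →
        Trk (addE a p r) (splitF b f0 A1 A2) (some g) x (liftTok l) := by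
  classical
  have hpath := ht.path
  rw [path_append] at hpath
  obtain ⟨z1, hp1, hz1, hp2⟩ := hpath
  subst hz1
  rw [path_append] at hp2
  obtain ⟨z2, hp2, hz2, hp3⟩ := hp2
  subst hz2
  have hsides : sides (l1 ++ Sum.inl p :: (l2 ++ Sum.inl r :: l3)) =
      sides l1 ++ (sides l2 ++ sides l3) := by
    rw [sides_append]
    show sides l1 ++ sides (l2 ++ Sum.inl r :: l3) = _
    rw [sides_append]
    rfl
  have hnd := ht.nodup
  rw [hsides] at hnd
  have hmem := ht.mem
  rw [hsides] at hmem
  have hnd1 := List.Nodup.of_append_left hnd
  have hnd23 := List.Nodup.of_append_right hnd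
  have hnd2 := List.Nodup.of_append_left hnd23
  have hnd3 := List.Nodup.of_append_right hnd23
  have hdis1 := List.disjoint_of_nodup_append hnd
  have hdis2 := List.disjoint_of_nodup_append hnd23
  set A1 : E → Prop := fun e => (e, false) ∈ sides l2 with hA1
  set A2 : E → Prop := fun e => (e, true) ∈ sides l2 with hA2
  -- the sides of the new faces
  have hsf_some : ∀ s : E × Bool, sf (splitF b f0 A1 A2) (some s.1, s.2) =
      if s ∈ sides l2 then none else some (sf b s) := by
    rintro ⟨e, c⟩
    have hf0 : (e, c) ∈ sides l2 → sf b (e, c) = f0 := fun h1 =>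
      (hmem _).1 (List.mem_append_right _ (List.mem_append_left _ h1))
    cases c
    · show (splitF b f0 A1 A2 (some e)).1 = _
      by_cases h1 : (e, false) ∈ sides l2
      · rw [if_pos h1]
        exact if_pos ⟨hf0 h1, h1⟩
      · rw [if_neg h1]
        exact if_neg (fun h2 => h1 h2.2)
    · show (splitF b f0 A1 A2 (some e)).2 = _
      by_cases h1 : (e, true) ∈ sides l2
      · rw [if_pos h1]
        exact if_pos ⟨hf0 h1, h1⟩
      · rw [if_neg h1]
        exact if_neg (fun h2 => h1 h2.2)
  have hT1 : Trk (addE a p r) (splitF b f0 A1 A2) none p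
      (Sum.inl p :: (liftTok l2 ++ [Sum.inl r, Sum.inr ((none, true), p)])) := by
    have hs : sides (Sum.inl p :: (liftTok l2 ++ [Sum.inl r, Sum.inr ((none, true), p)]) :
        List (Tok V (Option E))) = sides (liftTok l2) ++ [(none, true)] := by
      show sides (liftTok l2 ++ [Sum.inl r, Sum.inr ((none, true), p)]) = _
      rw [sides_append]; rfl
    refine ⟨⟨rfl, ?_⟩, ?_, ?_⟩
    · rw [path_append]
      refine ⟨r, path_liftTok a _ _ l2 _ _ hp2, rfl, Or.inr ⟨rfl, rfl⟩, rfl⟩
    · rw [hs]
      refine List.Nodup.append (nodup_sides_liftTok _ hnd2) (List.nodup_singleton _) ?_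
      intro s hs1 hs2
      rw [List.mem_singleton] at hs2
      rw [hs2] at hs1
      exact none_not_mem_liftTok _ _ hs1
    · rintro ⟨e, c⟩
      rw [hs, List.mem_append, List.mem_singleton]
      rcases e with _ | e
      · constructor
        · rintro (h1 | h1)
          · exact absurd h1 (none_not_mem_liftTok _ _)
          · have h2 : c = true := congrArg Prod.snd h1
            rw [h2]; rfl
        · intro h1
          right
          cases c
          · exact absurd h1 (by show (some f0 : Option F) ≠ none; simp)
          · rfl
      · rw [mem_sides_liftTok l2 (e, c), hsf_some (e, c)]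
        constructor
        · rintro (h1 | h1)
          · rw [if_pos h1]
          · exact absurd (congrArg Prod.fst h1) (by simp)
        · intro h1
          left
          by_contra h2
          rw [if_neg h2] at h1
          simp at h1
  have hT2 : Trk (addE a p r) (splitF b f0 A1 A2) (some f0) x0
      (liftTok l1 ++ Sum.inl p :: Sum.inr ((none, false), r) :: Sum.inl r :: liftTok l3) := by
    have hs : sides (liftTok l1 ++ Sum.inl p :: Sum.inr ((none, false), r) :: Sum.inl r ::
        liftTok l3 : List (Tok V (Option E))) =
        sides (liftTok l1) ++ ((none, false) :: sides (liftTok l3)) := by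
      rw [sides_append]; rfl
    refine ⟨?_, ?_, ?_⟩
    · rw [path_append]
      exact ⟨p, path_liftTok a _ _ l1 _ _ hp1, rfl, Or.inl ⟨rfl, rfl⟩, rfl,
        path_liftTok a _ _ l3 _ _ hp3⟩
    · rw [hs]
      refine List.Nodup.append (nodup_sides_liftTok _ hnd1) ?_ ?_
      · rw [List.nodup_cons]
        exact ⟨none_not_mem_liftTok _ _, nodup_sides_liftTok _ hnd3⟩
      · intro s hs1 hs2
        rcases List.mem_cons.1 hs2 with h1 | h1
        · rw [h1] at hs1; exact none_not_mem_liftTok _ _ hs1
        · rcases s with ⟨_ | e, c⟩
          · exact none_not_mem_liftTok _ _ hs1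
          · rw [mem_sides_liftTok _ (e, c)] at hs1 h1
            exact hdis1 hs1 (List.mem_append_right _ h1)
    · rintro ⟨e, c⟩
      rw [hs, List.mem_append, List.mem_cons]
      rcases e with _ | e
      · constructor
        · rintro (h1 | h1 | h1)
          · exact absurd h1 (none_not_mem_liftTok _ _)
          · have h2 : c = false := congrArg Prod.snd h1
            rw [h2]; rfl
          · exact absurd h1 (none_not_mem_liftTok _ _)
        · intro h1
          right; left
          cases c
          · rfl
          · exact absurd h1 (by show (none : Option F) ≠ some f0; simp)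
      · rw [mem_sides_liftTok l1 (e, c), mem_sides_liftTok l3 (e, c), hsf_some (e, c)]
        constructor
        · rintro (h1 | h1 | h1)
          · rw [if_neg (fun h2 => hdis1 h1 (List.mem_append_left _ h2))]
            rw [(hmem _).1 (List.mem_append_left _ h1)]
          · exact absurd (congrArg Prod.fst h1) (by simp)
          · rw [if_neg (fun h2 => hdis2 h2 h1)]
            rw [(hmem _).1 (List.mem_append_right _ (List.mem_append_right _ h1))]
        · intro h1
          by_cases h2 : (e, c) ∈ sides l2
          · rw [if_pos h2] at h1; simp at h1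
          · rw [if_neg h2, Option.some_inj] at h1
            have h3 := (hmem (e, c)).2 h1
            rw [List.mem_append, List.mem_append] at h3
            tauto
  have hT3 : ∀ g x l, g ≠ f0 → Trk a b g x l →
      Trk (addE a p r) (splitF b f0 A1 A2) (some g) x (liftTok l) := by
    intro g x l hg hl
    refine ⟨path_liftTok a _ _ l _ _ hl.path, nodup_sides_liftTok _ hl.nodup, ?_⟩
    rintro ⟨e, c⟩
    rcases e with _ | e
    · constructor
      · intro h1; exact absurd h1 (none_not_mem_liftTok _ _)
      · intro h1
        exfalso
        cases c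
        · have h2 : (some f0 : Option F) = some g := h1
          exact hg (Option.some_injective _ h2).symm
        · have h2 : (none : Option F) = some g := h1
          simp at h2
    · rw [mem_sides_liftTok l (e, c), hsf_some (e, c), hl.mem]
      by_cases h2 : (e, c) ∈ sides l2
      · rw [if_pos h2]
        have h3 := (hmem (e, c)).1 (List.mem_append_right _ (List.mem_append_left _ h2))
        rw [h3]
        constructor
        · intro h4; exact absurd h4.symm hg
        · intro h4; simp at h4
      · rw [if_neg h2, Option.some_inj]
  refine ⟨A1, A2, ⟨?_, ?_⟩, hT1, hT2, hT3⟩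
  · apply h.toIsPlane.insert
    intro v
    have h1 : ∀ e, ind ((b e).1 = f0 ∧ A1 e) + ind ((b e).2 = f0 ∧ A2 e) =
        ind ((e, false) ∈ sides l2) + ind ((e, true) ∈ sides l2) := by
      intro e
      congr 1
      · apply ind_congr
        constructor
        · exact fun h2 => h2.2
        · intro h2
          exact ⟨(hmem (e, false)).1 (List.mem_append_right _ (List.mem_append_left _ h2)), h2⟩
      · apply ind_congr
        constructor
        · exact fun h2 => h2.2
        · intro h2
          exact ⟨(hmem (e, true)).1 (List.mem_append_right _ (List.mem_append_left _ h2)), h2⟩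
    have h2 := sum_path a l2 p r hp2 v
    rw [← h2, ← List.sum_toFinset _ hnd2]
    have h3 : ∀ (S : Finset (E × Bool)), ∑ s ∈ S, st a v s.1 =
        ∑ e, st a v e * (ind ((e, false) ∈ S) + ind ((e, true) ∈ S)) := by
      intro S
      have h4 : ∑ s ∈ S, st a v s.1 = ∑ s : E × Bool, st a v s.1 * ind (s ∈ S) := by
        rw [← Finset.sum_filter_add_sum_filter_not (Finset.univ : Finset (E × Bool)) (· ∈ S)
          (fun s => st a v s.1 * ind (s ∈ S))]
        have h5 : ∑ s ∈ Finset.univ.filter (fun s => ¬ s ∈ S), st a v s.1 * ind (s ∈ S) = 0 :=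
          Finset.sum_eq_zero fun s hs => by
            rw [ind_false (Finset.mem_filter.1 hs).2, mul_zero]
        rw [h5, add_zero]
        have h6 : Finset.univ.filter (fun s : E × Bool => s ∈ S) = S := by
          ext s; simp
        rw [h6]
        exact Finset.sum_congr rfl fun s hs => by rw [ind_true hs, mul_one]
      rw [h4, Fintype.sum_prod_type]
      apply Finset.sum_congr rfl
      intro e _
      rw [Fintype.sum_bool]
      ring
    rw [h3]
    apply Finset.sum_congr rfl
    intro e _
    rw [h1 e]
    congr 2
    · apply ind_congr; simp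
    · apply ind_congr; simp
  · intro g' e e' he he'
    have hs : ∀ {x y}, Relation.ReflTransGen (LkOn (addE a p r) (Inc (splitF b f0 A1 A2) g')) x y →
        Relation.ReflTransGen (LkOn (addE a p r) (Inc (splitF b f0 A1 A2) g')) y x :=
      fun h => rtg_symm (fun _ _ h => h.symm) h
    rcases g' with _ | g
    · exact (hs (hT1.fc he)).trans (hT1.fc he')
    · by_cases hg : g = f0
      · subst hg
        exact (hs (hT2.fc he)).trans (hT2.fc he')
      · -- an old face
        have hi : ∀ d, Inc (splitF b f0 A1 A2) (some g) (some d) ↔ Inc b g d := by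
          intro d
          have e1 := hsf_some (d, false)
          have e2 := hsf_some (d, true)
          have e1' : (splitF b f0 A1 A2 (some d)).1 =
              if (d, false) ∈ sides l2 then none else some (b d).1 := e1
          have e2' : (splitF b f0 A1 A2 (some d)).2 =
              if (d, true) ∈ sides l2 then none else some (b d).2 := e2
          unfold Inc
          rw [e1', e2']
          apply or_congr
          · by_cases h2 : (d, false) ∈ sides l2
            · rw [if_pos h2]
              have h3 : (b d).1 = f0 :=
                (hmem (d, false)).1 (List.mem_append_right _ (List.mem_append_left _ h2))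
              rw [h3]
              exact ⟨fun h4 => by simp at h4, fun h4 => absurd h4.symm hg⟩
            · rw [if_neg h2, Option.some_inj]
          · by_cases h2 : (d, true) ∈ sides l2
            · rw [if_pos h2]
              have h3 : (b d).2 = f0 :=
                (hmem (d, true)).1 (List.mem_append_right _ (List.mem_append_left _ h2))
              rw [h3]
              exact ⟨fun h4 => by simp at h4, fun h4 => absurd h4.symm hg⟩
            · rw [if_neg h2, Option.some_inj]
        have hn : ∀ d : Option E, Inc (splitF b f0 A1 A2) (some g) d → ∃ d', d = some d' := by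
          intro d hd
          rcases d with _ | d
          · exfalso
            rcases hd with hd | hd
            · have h2 : (some f0 : Option F) = some g := hd
              exact hg (Option.some_injective _ h2).symm
            · have h2 : (none : Option F) = some g := hd
              simp at h2
          · exact ⟨d, rfl⟩
        obtain ⟨d, rfl⟩ := hn e he
        obtain ⟨d', rfl⟩ := hn e' he'
        have h2 := h.fc g d d' ((hi d).1 he) ((hi d').1 he')
        have key : ∀ y z, Relation.ReflTransGen (LkOn a (Inc b g)) y z →
            Relation.ReflTransGen (LkOn (addE a p r) (Inc (splitF b f0 A1 A2) (some g))) y z := by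
          intro y z hyz
          induction hyz with
          | refl => exact Relation.ReflTransGen.refl
          | tail _ h3 ih =>
            obtain ⟨c, hc, hc'⟩ := h3
            exact ih.tail ⟨some c, (hi c).2 hc, hc'⟩
        exact key _ _ h2

end Pool.Agent.Helper1.PG
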