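import Mathlib
import Pool.Agent.Helper1.PG.Track
import Pool.Agent.Helper36.BL.Main

/-!
Fillings of tracked faces by chords and merges: the weighted numbers of colourings are given by
polynomials which are nonnegative at `q` as soon as the chromatic polynomials of the class are.
-/

set_option autoImplicit false

namespace Pool.Agent.Helper1.PG

open Pool.Agent.Helper36.BL (cp cnt cols cp_eval mem_cols)

variable {V F E : Type}

open scoped Classical in
/-- Words after the contraction of `e0`. -/
noncomputable def contrTok {V' : Type} (e0 : E) (m : V → V') :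
    List (Tok V E) → List (Tok V' {e : E // e ≠ e0})
  | [] => []
  | (Sum.inl v :: l) => Sum.inl (m v) :: contrTok e0 m l
  | (Sum.inr ((e, c), z) :: l) =>
    if h : e = e0 then contrTok e0 m l else Sum.inr ((⟨e, h⟩, c), m z) :: contrTok e0 m l

theorem contrTok_inr_self {V' : Type} (e0 : E) (m : V → V') (c : Bool) (z : V)
    (l : List (Tok V E)) : contrTok e0 m (Sum.inr ((e0, c), z) :: l) = contrTok e0 m l := by
  rw [contrTok, dif_pos rfl]

theorem contrTok_inr_ne {V' : Type} {e0 e : E} (h : e ≠ e0) (m : V → V') (c : Bool) (z : V)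
    (l : List (Tok V E)) : contrTok e0 m (Sum.inr ((e, c), z) :: l) =
      Sum.inr ((⟨e, h⟩, c), m z) :: contrTok e0 m l := by
  rw [contrTok, dif_neg h]

theorem marks_contrTok {V' : Type} (e0 : E) (m : V → V') (l : List (Tok V E)) :
    marks (contrTok e0 m l) = (marks l).map m := by
  induction l with
  | nil => rfl
  | cons t l ih =>
    rcases t with v | ⟨⟨e, c⟩, z⟩
    · show m v :: marks (contrTok e0 m l) = m v :: (marks l).map m
      rw [ih]
    · by_cases h : e = e0
      · subst h
        rw [contrTok_inr_self]; exact ih
      · rw [contrTok_inr_ne h]; exact ih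

theorem mem_sides_contrTok {V' : Type} (e0 : E) (m : V → V') (l : List (Tok V E))
    (s : {e : E // e ≠ e0} × Bool) :
    s ∈ sides (contrTok e0 m l) ↔ (s.1.1, s.2) ∈ sides l := by
  induction l with
  | nil => simp [contrTok, sides]
  | cons t l ih =>
    rcases t with v | ⟨⟨e, c⟩, z⟩
    · exact ih
    · by_cases h : e = e0
      · subst h
        rw [contrTok_inr_self, ih]
        show _ ↔ (s.1.1, s.2) ∈ (e, c) :: sides l
        rw [List.mem_cons]
        constructor
        · exact Or.inr
        · rintro (h1 | h1)
          · exact absurd (congrArg Prod.fst h1) s.1.2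
          · exact h1
      · rw [contrTok_inr_ne h]
        show s ∈ (⟨e, h⟩, c) :: sides (contrTok e0 m l) ↔ (s.1.1, s.2) ∈ (e, c) :: sides l
        rw [List.mem_cons, List.mem_cons, ih]
        apply or_congr _ Iff.rfl
        constructor
        · intro h1; rw [h1]
        · intro h1
          have h2 := congrArg Prod.fst h1
          have h3 := congrArg Prod.snd h1
          exact Prod.ext (Subtype.ext h2) h3

theorem nodup_sides_contrTok {V' : Type} (e0 : E) (m : V → V') (l : List (Tok V E))
    (hl : (sides l).Nodup) : (sides (contrTok e0 m l)).Nodup := by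
  induction l with
  | nil => exact List.nodup_nil
  | cons t l ih =>
    rcases t with v | ⟨⟨e, c⟩, z⟩
    · exact ih hl
    · have hl' : ((e, c) :: sides l).Nodup := hl
      rw [List.nodup_cons] at hl'
      by_cases h : e = e0
      · subst h
        rw [contrTok_inr_self]; exact ih hl'.2
      · rw [contrTok_inr_ne h]
        show ((⟨e, h⟩, c) :: sides (contrTok e0 m l)).Nodup
        rw [List.nodup_cons, mem_sides_contrTok]
        exact ⟨hl'.1, ih hl'.2⟩

theorem path_contrTok {a : E → V × V} {e0 : E} (h0 : (a e0).1 ≠ (a e0).2) :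
    ∀ (l : List (Tok V E)) (x y : V), Path a x l y →
      Path (contr a e0 h0) (merge _ _ h0 x) (contrTok e0 (merge _ _ h0) l) (merge _ _ h0 y)
  | [], x, y, h => congrArg _ h
  | (Sum.inl v :: l), x, y, h => ⟨congrArg _ h.1, path_contrTok h0 l x y h.2⟩
  | (Sum.inr ((e, c), z) :: l), x, y, h => by
    have ih := path_contrTok h0 l z y h.2
    by_cases he : e = e0
    · subst he
      rw [contrTok_inr_self]
      have hm : merge _ _ h0 (a e).1 = merge _ _ h0 (a e).2 := by
        rw [merge_self, merge_of_ne h0 h0]
      have h1 : merge _ _ h0 x = merge _ _ h0 z := by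
        rcases h.1 with h2 | h2
        · exact (congrArg _ h2.1).symm.trans (hm.trans (congrArg _ h2.2))
        · exact (congrArg _ h2.2).symm.trans (hm.symm.trans (congrArg _ h2.1))
      rw [h1]; exact ih
    · rw [contrTok_inr_ne he]
      refine ⟨?_, ih⟩
      rcases h.1 with h2 | h2
      · exact Or.inl ⟨congrArg (merge _ _ h0) h2.1, congrArg (merge _ _ h0) h2.2⟩
      · exact Or.inr ⟨congrArg (merge _ _ h0) h2.1, congrArg (merge _ _ h0) h2.2⟩

/-- Tracked faces after a contraction. -/
theorem Trk.contract {a : E → V × V} {b : E → F × F} {f : F} {x : V} {l : List (Tok V E)}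
    (h : Trk a b f x l) {e0 : E} (h0 : (a e0).1 ≠ (a e0).2) :
    Trk (contr a e0 h0) (del b e0) f (merge _ _ h0 x) (contrTok e0 (merge _ _ h0) l) where
  path := path_contrTok h0 l x x h.path
  nodup := nodup_sides_contrTok e0 _ l h.nodup
  mem := by
    intro s
    rw [mem_sides_contrTok, h.mem]
    exact Iff.rfl

/-- Fillings of a face by chords and merges. -/
inductive Fill : Type
  | leaf : Fill
  | chord (i j : ℕ) (A B : Fill) : Fill
  | merge (i j : ℕ) (A B : Fill) : Fill

/-- The corners `i..j`. -/
def inn {C : Type} (i j : ℕ) (l : List C) : List C := (l.drop i).take (j + 1 - i)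

/-- The corners `0..i` and `j..`. -/
def out {C : Type} (i j : ℕ) (l : List C) : List C := l.take (i + 1) ++ l.drop j

/-- The value of a filling on a list of colours of the corners. -/
def Fill.val {C : Type} [DecidableEq C] : Fill → List C → ℕ
  | Fill.leaf, _ => 1
  | Fill.chord i j A B, l =>
    if i < j ∧ j < l.length ∧ l[i]? ≠ l[j]? then A.val (inn i j l) * B.val (out i j l) else 0
  | Fill.merge i j A B, l =>
    if i < j ∧ j < l.length ∧ l[i]? = l[j]? then A.val (inn i j l) * B.val (out i j l) else 0

/-- The size of a filling. -/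
def Fill.size : Fill → ℕ
  | Fill.leaf => 1
  | Fill.chord _ _ A B => 1 + A.size + B.size
  | Fill.merge _ _ A B => 1 + A.size + B.size

theorem inn_map {C D : Type} (g : C → D) (i j : ℕ) (l : List C) :
    inn i j (l.map g) = (inn i j l).map g := by
  unfold inn
  rw [← List.map_drop, ← List.map_take]

theorem out_map {C D : Type} (g : C → D) (i j : ℕ) (l : List C) :
    out i j (l.map g) = (out i j l).map g := by
  unfold out
  rw [List.map_append, ← List.map_drop, ← List.map_take]

/-- Split a word at two marks. -/
theorem exists_split_two (l : List (Tok V E)) (i j : ℕ) (hij : i < j)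
    (hj : j < (marks l).length) :
    ∃ (p r : V) (l1 l2 l3 : List (Tok V E)), l = l1 ++ Sum.inl p :: (l2 ++ Sum.inl r :: l3) ∧
      (marks l)[i]? = some p ∧ (marks l)[j]? = some r ∧
      inn i j (marks l) = p :: (marks l2 ++ [r]) ∧
      out i j (marks l) = marks l1 ++ p :: r :: marks l3 := by
  have hi : i < (marks l).length := by omega
  obtain ⟨l1, l', h1, h2, h3⟩ := exists_split_mark l i (marks l)[i] (List.getElem?_eq_getElem hi)
  have hlen' : (marks l').length = (marks l).length - (i + 1) := by rw [h3, List.length_drop]
  have hj' : j - (i + 1) < (marks l').length := by omega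
  obtain ⟨l2, l3, h4, h5, h6⟩ := exists_split_mark l' (j - (i + 1)) (marks l')[j - (i + 1)]
    (List.getElem?_eq_getElem hj')
  have hr : (marks l')[j - (i + 1)] = (marks l)[j] := by
    have e1 : (marks l')[j - (i + 1)]? = (marks l)[j]? := by
      rw [h3, List.getElem?_drop]
      congr 1
      omega
    rw [List.getElem?_eq_getElem hj', List.getElem?_eq_getElem hj, Option.some_inj] at e1
    exact e1
  refine ⟨(marks l)[i], (marks l)[j], l1, l2, l3, ?_, List.getElem?_eq_getElem hi,
    List.getElem?_eq_getElem hj, ?_, ?_⟩
  · rw [hr] at h4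
    rw [← h4]; exact h1
  · unfold inn
    rw [List.drop_eq_getElem_cons hi, show j + 1 - i = (j - (i + 1)) + 1 + 1 by omega,
      List.take_succ_cons]
    congr 1
    rw [← h3, List.take_succ_eq_append_getElem hj', ← h5, hr]
  · unfold out
    rw [List.take_succ_eq_append_getElem hi, ← h2, List.append_assoc]
    congr 1
    show (marks l)[i] :: (marks l).drop j = _
    congr 1
    rw [List.drop_eq_getElem_cons hj]
    congr 1
    rw [h6, h3, List.drop_drop]
    congr 1
    omega

/-- Proper colourings. -/
def Prp {C : Type} (G : SimpleGraph V) (c : V → C) : Prop := ∀ u v, G.Adj u v → c u ≠ c v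

/-- A task: a tracked face with a filling. -/
structure Task (V F E : Type) where
  f : F
  x : V
  l : List (Tok V E)
  T : Fill

/-- The weight of a colouring. -/
def wt {C : Type} [DecidableEq C] (ts : List (Task V F E)) (c : V → C) : ℕ :=
  (ts.map (fun t => t.T.val ((marks t.l).map c))).prod

open scoped Classical in
/-- The weighted number of colourings. -/
noncomputable def wcnt [Fintype V] (G : SimpleGraph V) (ts : List (Task V F E)) (n : ℕ) : ℕ :=
  ∑ c ∈ Finset.univ.filter (fun c : V → Fin n => Prp G c), wt ts c

/-- Total size of the tasks. -/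
def tsize (ts : List (Task V F E)) : ℕ := (ts.map (fun t => t.T.size)).sum

theorem Fill.size_pos (T : Fill) : 1 ≤ T.size := by
  cases T <;> simp only [Fill.size] <;> omega

end Pool.Agent.Helper1.PG
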