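import Mathlib
import Pool.Agent.Helper1.PG.Fill

/-!
Nonnegativity of fillings.
-/

set_option autoImplicit false

namespace Pool.Agent.Helper1.PG

open Pool.Agent.Helper36.BL (cp cnt cols cp_eval mem_cols IsMinor)
open Polynomial

variable {V F E : Type}

open scoped Classical in
theorem wcnt_eq [Fintype V] (G : SimpleGraph V) (ts : List (Task V F E)) (n : ℕ) :
    wcnt G ts n = ∑ c : V → Fin n, if Prp G c then wt ts c else 0 := by
  unfold wcnt
  rw [Finset.sum_filter]

theorem wt_cons {C : Type} [DecidableEq C] (t : Task V F E) (ts : List (Task V F E)) (c : V → C) :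
    wt (t :: ts) c = t.T.val ((marks t.l).map c) * wt ts c := rfl

/-- Tasks after an insertion. -/
def Task.lift (t : Task V F E) : Task V (Option F) (Option E) := ⟨some t.f, t.x, liftTok t.l, t.T⟩

/-- Tasks after a contraction. -/
noncomputable def Task.contr {V' : Type} (e0 : E) (m : V → V') (t : Task V F E) :
    Task V' F {e : E // e ≠ e0} := ⟨t.f, m t.x, contrTok e0 m t.l, t.T⟩

theorem wt_lift {C : Type} [DecidableEq C] (ts : List (Task V F E)) (c : V → C) :
    wt (ts.map Task.lift) c = wt ts c := by
  unfold wt
  rw [List.map_map]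
  congr 1
  apply List.map_congr_left
  intro t _
  show t.T.val ((marks (liftTok t.l)).map c) = _
  rw [marks_liftTok]

theorem wt_contr {V' C : Type} [DecidableEq C] (e0 : E) (m : V → V') (ts : List (Task V F E))
    (c : V' → C) : wt (ts.map (Task.contr e0 m)) c = wt ts (c ∘ m) := by
  unfold wt
  rw [List.map_map]
  congr 1
  apply List.map_congr_left
  intro t _
  show t.T.val ((marks (contrTok e0 m t.l)).map c) = _
  rw [marks_contrTok, List.map_map]

theorem tsize_cons (t : Task V F E) (ts : List (Task V F E)) :
    tsize (t :: ts) = t.T.size + tsize ts := rfl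

theorem tsize_lift (ts : List (Task V F E)) : tsize (ts.map Task.lift) = tsize ts := by
  unfold tsize
  rw [List.map_map]
  rfl

theorem tsize_contr {V' : Type} (e0 : E) (m : V → V') (ts : List (Task V F E)) :
    tsize (ts.map (Task.contr e0 m)) = tsize ts := by
  unfold tsize
  rw [List.map_map]
  rfl

/-- The graph with an additional edge. -/
def addG (G : SimpleGraph V) (p r : V) (h : p ≠ r) : SimpleGraph V where
  Adj u v := G.Adj u v ∨ (u = p ∧ v = r) ∨ (u = r ∧ v = p)
  symm := ⟨by
    rintro u v (h1 | h1 | h1)
    · exact Or.inl h1.symm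
    · exact Or.inr (Or.inr ⟨h1.2, h1.1⟩)
    · exact Or.inr (Or.inl ⟨h1.2, h1.1⟩)⟩
  loopless := ⟨by
    rintro u (h1 | h1 | h1)
    · exact h1.ne rfl
    · exact h (h1.1.symm.trans h1.2)
    · exact h (h1.2.symm.trans h1.1)⟩

theorem prp_addG {C : Type} (G : SimpleGraph V) {p r : V} (h : p ≠ r) (c : V → C) :
    Prp (addG G p r h) c ↔ Prp G c ∧ c p ≠ c r := by
  constructor
  · intro h1
    exact ⟨fun u v huv => h1 u v (Or.inl huv), h1 p r (Or.inr (Or.inl ⟨rfl, rfl⟩))⟩
  · rintro ⟨h1, h2⟩ u v (h3 | ⟨rfl, rfl⟩ | ⟨rfl, rfl⟩)
    · exact h1 u v h3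
    · exact h2
    · exact h2.symm

/-- The graph with `r` identified with `p`. -/
def mgG (G : SimpleGraph V) (p r : V) (h : p ≠ r) : SimpleGraph {v : V // v ≠ r} where
  Adj u v := u ≠ v ∧ ∃ u0 v0, merge p r h u0 = u ∧ merge p r h v0 = v ∧ G.Adj u0 v0
  symm := ⟨by
    rintro u v ⟨h1, u0, v0, h2, h3, h4⟩
    exact ⟨h1.symm, v0, u0, h3, h2, h4.symm⟩⟩
  loopless := ⟨fun u h1 => h1.1 rfl⟩

theorem merge_eq_iff {x y : V} (h : x ≠ y) (u v : V) :
    merge x y h u = merge x y h v → u = v ∨ (u = x ∧ v = y) ∨ (u = y ∧ v = x) := by
  intro h1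
  by_cases hu : u = y
  · by_cases hv : v = y
    · left; rw [hu, hv]
    · rw [hu, merge_self, merge_of_ne h hv, Subtype.mk.injEq] at h1
      right; right; exact ⟨hu, h1.symm⟩
  · by_cases hv : v = y
    · rw [hv, merge_self, merge_of_ne h hu, Subtype.mk.injEq] at h1
      right; left; exact ⟨h1, hv⟩
    · rw [merge_of_ne h hu, merge_of_ne h hv, Subtype.mk.injEq] at h1
      left; exact h1

open scoped Classical in
/-- Colourings of the merged graph. -/
theorem sum_mgG (G : SimpleGraph V) {p r : V} (h : p ≠ r) (hna : ¬ G.Adj p r) (n : ℕ)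
    (w : (V → Fin n) → ℕ) [Fintype (V → Fin n)] [Fintype ({v : V // v ≠ r} → Fin n)] :
    (∑ c : V → Fin n, if Prp G c ∧ c p = c r then w c else 0) =
      ∑ c : {v : V // v ≠ r} → Fin n,
        if Prp (mgG G p r h) c then w (c ∘ merge p r h) else 0 := by
  rw [← Finset.sum_filter, ← Finset.sum_filter]
  refine Finset.sum_nbij' (fun c v => c v.1) (fun c => c ∘ merge p r h) ?_ ?_ ?_ ?_ ?_
  · intro c hc
    obtain ⟨h1, h2⟩ := (Finset.mem_filter.1 hc).2
    apply Finset.mem_filter.2 ⟨Finset.mem_univ _, ?_⟩
    rintro u v ⟨_, u0, v0, h3, h4, h5⟩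
    have hval : ∀ z, c (merge p r h z).1 = c z := by
      intro z
      by_cases hz : z = r
      · rw [hz, merge_self]; exact h2
      · rw [merge_of_ne h hz]
    show c u.1 ≠ c v.1
    rw [← h3, ← h4, hval, hval]
    exact h1 u0 v0 h5
  · intro c hc
    have h1 := (Finset.mem_filter.1 hc).2
    refine Finset.mem_filter.2 ⟨Finset.mem_univ _, ?_, ?_⟩
    · intro u v huv
      show c (merge p r h u) ≠ c (merge p r h v)
      apply h1
      refine ⟨?_, u, v, rfl, rfl, huv⟩
      intro h2
      rcases merge_eq_iff h u v h2 with h3 | h3 | h3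
      · exact huv.ne h3
      · rw [h3.1, h3.2] at huv; exact hna huv
      · rw [h3.1, h3.2] at huv; exact hna huv.symm
    · show c (merge p r h p) = c (merge p r h r)
      rw [merge_self, merge_of_ne h h]
  · intro c hc
    obtain ⟨h1, h2⟩ := (Finset.mem_filter.1 hc).2
    funext z
    show c (merge p r h z).1 = c z
    by_cases hz : z = r
    · rw [hz, merge_self]; exact h2
    · rw [merge_of_ne h hz]
  · intro c _
    funext v
    show c (merge p r h v.1) = c v
    rw [merge_coe]
  · intro c hc
    obtain ⟨h1, h2⟩ := (Finset.mem_filter.1 hc).2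
    congr 1
    funext z
    show c z = c (merge p r h z).1
    by_cases hz : z = r
    · rw [hz, merge_self]; exact h2.symm
    · rw [merge_of_ne h hz]

theorem lk_mgG {G : SimpleGraph V} {a : E → V × V} (hG : ∀ u v, G.Adj u v → Lk a u v) {e0 : E}
    (h0 : (a e0).1 ≠ (a e0).2) (u v : {v : V // v ≠ (a e0).2})
    (huv : (mgG G (a e0).1 (a e0).2 h0).Adj u v) : Lk (contr a e0 h0) u v := by
  obtain ⟨hne, u0, v0, h1, h2, h3⟩ := huv
  obtain ⟨e, he⟩ := hG u0 v0 h3
  have hee : e ≠ e0 := by
    rintro rfl
    apply hne
    have hm : merge _ _ h0 (a e).1 = merge _ _ h0 (a e).2 := by rw [merge_self, merge_of_ne h0 h0]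
    rw [← h1, ← h2]
    rcases he with h4 | h4
    · exact (congrArg _ h4.1).symm.trans (hm.trans (congrArg _ h4.2))
    · exact (congrArg _ h4.2).symm.trans (hm.symm.trans (congrArg _ h4.1))
  refine ⟨⟨e, hee⟩, ?_⟩
  rcases he with h4 | h4
  · left
    exact ⟨(congrArg (merge _ _ h0) h4.1).trans h1, (congrArg (merge _ _ h0) h4.2).trans h2⟩
  · right
    exact ⟨(congrArg (merge _ _ h0) h4.1).trans h2, (congrArg (merge _ _ h0) h4.2).trans h1⟩

/-- Sums over the same type with two instances. -/
theorem sum_inst {α : Type} (i j : Fintype α) (f g : α → ℕ) (h : ∀ x, f x = g x) :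
    (@Finset.univ α i).sum f = (@Finset.univ α j).sum g := by
  have e : i = j := Subsingleton.elim i j
  subst e
  exact Finset.sum_congr rfl (fun x _ => h x)

/-- Nonnegativity for tasks. -/
theorem fills_nonneg {q : ℝ} {N : ℕ}
    (hyp : ∀ (W : Type) [Fintype W] (Y : SimpleGraph W), Pl Y → Fintype.card W ≤ N →
      0 ≤ (cp Y).eval q) :
    ∀ (m : ℕ) (V F E : Type) [Fintype V] [Fintype F] [Fintype E] (a : E → V × V) (b : E → F × F)
      (G : SimpleGraph V) (ts : List (Task V F E)), tsize ts = m → IsPl a b →
      (∀ u v, G.Adj u v → Lk a u v) → Fintype.card V ≤ N → (ts.map Task.f).Nodup →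
      (∀ t ∈ ts, Trk a b t.f t.x t.l) →
      ∃ p : ℝ[X], (∀ n : ℕ, p.eval (n : ℝ) = (wcnt G ts n : ℝ)) ∧ 0 ≤ p.eval q := by
  classical
  intro m
  induction m with
  | zero =>
    intro V F E _ _ _ a b G ts hm hp hG hV _ _
    have hts : ts = [] := by
      rcases ts with _ | ⟨t, ts⟩
      · rfl
      · exfalso
        rw [tsize_cons] at hm
        have := t.T.size_pos
        omega
    subst hts
    refine ⟨cp G, ?_, hyp V G (Pl.of_spanning hp hG) hV⟩
    intro n
    rw [cp_eval]
    congr 1
    unfold cnt wcnt
    rw [Finset.card_eq_sum_ones]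
    apply Finset.sum_congr
    · ext c
      rw [mem_cols, Finset.mem_filter]
      exact ⟨fun h => ⟨Finset.mem_univ _, h⟩, fun h => h.2⟩
    · intro c _; rfl
  | succ m ih =>
    intro V F E _ _ _ a b G ts hm hp hG hV hnd htr
    rcases ts with _ | ⟨t, ts⟩
    · exact absurd hm (by unfold tsize; simp)
    rw [tsize_cons] at hm
    have htt := htr t (List.mem_cons_self ..)
    have hts : ∀ s ∈ ts, Trk a b s.f s.x s.l := fun s hs => htr s (List.mem_cons_of_mem _ hs)
    have hnd' : t.f ∉ ts.map Task.f ∧ (ts.map Task.f).Nodup := List.nodup_cons.1 hnd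
    have hne : ∀ s ∈ ts, s.f ≠ t.f := fun s hs h =>
      hnd'.1 (h ▸ List.mem_map_of_mem hs)
    obtain ⟨f0, x0, l, T⟩ := t
    -- the zero polynomial
    have hzero : (∀ n (c : V → Fin n), Prp G c → T.val ((marks l).map c) = 0) →
        ∃ p : ℝ[X], (∀ n : ℕ, p.eval (n : ℝ) = (wcnt G (⟨f0, x0, l, T⟩ :: ts) n : ℝ)) ∧
          0 ≤ p.eval q := by
      intro h0
      refine ⟨0, ?_, by simp⟩
      intro n
      rw [eval_zero]
      symm
      rw [Nat.cast_eq_zero, wcnt_eq]
      apply Finset.sum_eq_zero
      intro c _
      by_cases hc : Prp G c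
      · rw [if_pos hc, wt_cons, h0 n c hc, zero_mul]
      · rw [if_neg hc]
    -- new tasks after an insertion
    have hnew : ∀ (i j : ℕ) (A B : Fill) (p r : V) (l1 l2 l3 : List (Tok V E)),
        T.size = 1 + A.size + B.size →
        l = l1 ++ Sum.inl p :: (l2 ++ Sum.inl r :: l3) →
        inn i j (marks l) = p :: (marks l2 ++ [r]) →
        out i j (marks l) = marks l1 ++ p :: r :: marks l3 →
        ∃ (b' : Option E → Option F × Option F) (ts' : List (Task V (Option F) (Option E))),
          IsPl (addE a p r) b' ∧ tsize ts' = m ∧ (ts'.map Task.f).Nodup ∧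
          (∀ t ∈ ts', Trk (addE a p r) b' t.f t.x t.l) ∧
          ∀ (n : ℕ) (c : V → Fin n), wt ts' c =
            A.val (inn i j ((marks l).map c)) * B.val (out i j ((marks l).map c)) * wt ts c := by
      intro i j A B p r l1 l2 l3 hsz hl hin hout
      subst hl
      obtain ⟨A1, A2, h1, h2, h3, h4⟩ := hp.insert_trk htt
      refine ⟨splitF b f0 A1 A2,
        ⟨none, p, Sum.inl p :: (liftTok l2 ++ [Sum.inl r, Sum.inr ((none, true), p)]), A⟩ ::
        ⟨some f0, x0, liftTok l1 ++ Sum.inl p :: Sum.inr ((none, false), r) :: Sum.inl r ::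
          liftTok l3, B⟩ :: ts.map Task.lift, h1, ?_, ?_, ?_, ?_⟩
      · rw [tsize_cons, tsize_cons, tsize_lift]
        show A.size + (B.size + tsize ts) = m
        have : T.size + tsize ts = m + 1 := hm
        omega
      · show (none :: some f0 :: (ts.map Task.lift).map Task.f).Nodup
        have e1 : (ts.map Task.lift).map Task.f = (ts.map Task.f).map some := by
          rw [List.map_map, List.map_map]; rfl
        rw [e1, List.nodup_cons, List.nodup_cons]
        refine ⟨?_, ?_, ?_⟩
        · rw [List.mem_cons, not_or]
          refine ⟨by simp, ?_⟩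
          rw [List.mem_map]
          rintro ⟨g, _, hg⟩
          simp at hg
        · rw [List.mem_map]
          rintro ⟨g, hg, hg'⟩
          rw [Option.some_inj] at hg'
          exact hnd'.1 (hg' ▸ hg)
        · exact hnd'.2.map (Option.some_injective F)
      · intro t ht
        rcases List.mem_cons.1 ht with rfl | ht
        · exact h2
        · rcases List.mem_cons.1 ht with rfl | ht
          · exact h3
          · obtain ⟨s, hs, rfl⟩ := List.mem_map.1 ht
            exact h4 s.f s.x s.l (hne s hs) (hts s hs)
      · intro n c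
        rw [wt_cons, wt_cons, wt_lift, inn_map, out_map, hin, hout]
        show A.val ((marks (Sum.inl p :: (liftTok l2 ++ [Sum.inl r, Sum.inr ((none, true), p)]) :
            List (Tok V (Option E)))).map c) *
          (B.val ((marks (liftTok l1 ++ Sum.inl p :: Sum.inr ((none, false), r) :: Sum.inl r ::
            liftTok l3 : List (Tok V (Option E)))).map c) * wt ts c) = _
        have e1 : marks (Sum.inl p :: (liftTok l2 ++ [Sum.inl r, Sum.inr ((none, true), p)]) :
            List (Tok V (Option E))) = p :: (marks l2 ++ [r]) := by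
          show p :: marks (liftTok l2 ++ [Sum.inl r, Sum.inr ((none, true), p)]) = _
          rw [marks_append, marks_liftTok]
          rfl
        have e2 : marks (liftTok l1 ++ Sum.inl p :: Sum.inr ((none, false), r) :: Sum.inl r ::
            liftTok l3 : List (Tok V (Option E))) = marks l1 ++ p :: r :: marks l3 := by
          rw [marks_append, marks_liftTok]
          show marks l1 ++ p :: r :: marks (liftTok l3) = _
          rw [marks_liftTok]
        rw [e1, e2, mul_assoc]
    cases T with
    | leaf =>
      obtain ⟨p, hp1, hp2⟩ := ih V F E a b G ts (by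
        change 1 + tsize ts = m + 1 at hm
        omega) hp hG hV hnd'.2 hts
      refine ⟨p, ?_, hp2⟩
      intro n
      rw [hp1 n]
      congr 1
      unfold wcnt
      apply Finset.sum_congr rfl
      intro c _
      rw [wt_cons]
      show wt ts c = 1 * wt ts c
      rw [one_mul]
    | chord i j A B =>
      by_cases hij : i < j ∧ j < (marks l).length
      · obtain ⟨p, r, l1, l2, l3, hl, hi, hj, hin, hout⟩ := exists_split_two l i j hij.1 hij.2
        by_cases hpr : p = r
        · apply hzero
          intro n c _
          show (if i < j ∧ j < ((marks l).map c).length ∧ ((marks l).map c)[i]? ≠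
            ((marks l).map c)[j]? then _ else 0) = 0
          rw [if_neg]
          rintro ⟨_, _, h1⟩
          apply h1
          rw [List.getElem?_map, List.getElem?_map, hi, hj, hpr]
        · obtain ⟨b', ts', h1, h2, h3, h4, h5⟩ := hnew i j A B p r l1 l2 l3 rfl hl hin hout
          obtain ⟨P, hP1, hP2⟩ := ih V (Option F) (Option E) (addE a p r) b' (addG G p r hpr) ts'
            h2 h1 (by
              rintro u v (huv | ⟨rfl, rfl⟩ | ⟨rfl, rfl⟩)
              · obtain ⟨e, he⟩ := hG u v huv
                exact ⟨some e, he⟩
              · exact ⟨none, Or.inl ⟨rfl, rfl⟩⟩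
              · exact ⟨none, Or.inr ⟨rfl, rfl⟩⟩) hV h3 h4
          refine ⟨P, ?_, hP2⟩
          intro n
          rw [hP1 n]
          congr 1
          rw [wcnt_eq, wcnt_eq]
          apply Finset.sum_congr rfl
          intro c _
          rw [h5 n c, wt_cons]
          by_cases hc : Prp G c
          · by_cases hc2 : c p = c r
            · rw [if_neg (fun h => ((prp_addG G hpr c).1 h).2 hc2), if_pos hc]
              symm
              show (if i < j ∧ j < ((marks l).map c).length ∧ ((marks l).map c)[i]? ≠
                ((marks l).map c)[j]? then _ else 0) * _ = 0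
              rw [if_neg, zero_mul]
              rintro ⟨_, _, h6⟩
              apply h6
              rw [List.getElem?_map, List.getElem?_map, hi, hj]
              simp [hc2]
            · rw [if_pos ((prp_addG G hpr c).2 ⟨hc, hc2⟩), if_pos hc]
              show _ = (if i < j ∧ j < ((marks l).map c).length ∧ ((marks l).map c)[i]? ≠
                ((marks l).map c)[j]? then _ else 0) * _
              rw [if_pos]
              refine ⟨hij.1, by rw [List.length_map]; exact hij.2, ?_⟩
              rw [List.getElem?_map, List.getElem?_map, hi, hj]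
              simpa using hc2
          · rw [if_neg hc, if_neg (fun h => hc ((prp_addG G hpr c).1 h).1)]
      · apply hzero
        intro n c _
        show (if i < j ∧ j < ((marks l).map c).length ∧ ((marks l).map c)[i]? ≠
            ((marks l).map c)[j]? then _ else 0) = 0
        rw [if_neg]
        rintro ⟨h1, h2, _⟩
        rw [List.length_map] at h2
        exact hij ⟨h1, h2⟩
    | merge i j A B =>
      by_cases hij : i < j ∧ j < (marks l).length
      · obtain ⟨p, r, l1, l2, l3, hl, hi, hj, hin, hout⟩ := exists_split_two l i j hij.1 hij.2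
        obtain ⟨b', ts', h1, h2, h3, h4, h5⟩ := hnew i j A B p r l1 l2 l3 rfl hl hin hout
        by_cases hpr : p = r
        · obtain ⟨P, hP1, hP2⟩ := ih V (Option F) (Option E) (addE a p r) b' G ts'
            h2 h1 (by
              intro u v huv
              obtain ⟨e, he⟩ := hG u v huv
              exact ⟨some e, he⟩) hV h3 h4
          refine ⟨P, ?_, hP2⟩
          intro n
          rw [hP1 n]
          congr 1
          rw [wcnt_eq, wcnt_eq]
          apply Finset.sum_congr rfl
          intro c _
          rw [h5 n c, wt_cons]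
          congr 1
          show _ = (if i < j ∧ j < ((marks l).map c).length ∧ ((marks l).map c)[i]? =
            ((marks l).map c)[j]? then _ else 0) * _
          rw [if_pos]
          refine ⟨hij.1, by rw [List.length_map]; exact hij.2, ?_⟩
          rw [List.getElem?_map, List.getElem?_map, hi, hj, hpr]
        · by_cases hadj : G.Adj p r
          · apply hzero
            intro n c hc
            show (if i < j ∧ j < ((marks l).map c).length ∧ ((marks l).map c)[i]? =
              ((marks l).map c)[j]? then _ else 0) = 0
            rw [if_neg]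
            rintro ⟨_, _, h6⟩
            rw [List.getElem?_map, List.getElem?_map, hi, hj] at h6
            exact hc p r hadj (by simpa using h6)
          · have h0 : ((addE a p r) none).1 ≠ ((addE a p r) none).2 := hpr
            have hcard : Fintype.card {v : V // v ≠ r} ≤ N := by
              have := card_ne r
              omega
            obtain ⟨P, hP1, hP2⟩ := ih {v : V // v ≠ r} (Option F) {e : Option E // e ≠ none}
              (PG.contr (addE a p r) none h0) (del b' none) (mgG G p r hpr)
              (ts'.map (Task.contr none (PG.merge p r hpr))) (by rw [tsize_contr]; exact h2)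
              (h1.contract h0) (fun u v huv => lk_mgG (a := addE a p r) (by
                intro u v huv
                obtain ⟨e, he⟩ := hG u v huv
                exact ⟨some e, he⟩) h0 u v huv) hcard (by
                rw [List.map_map]; exact h3) (by
                intro t ht
                obtain ⟨s, hs, rfl⟩ := List.mem_map.1 ht
                exact (h4 s hs).contract h0)
            refine ⟨P, ?_, hP2⟩
            intro n
            rw [hP1 n]
            congr 1
            rw [wcnt_eq, wcnt_eq]
            simp only [wt_contr]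
            refine Eq.trans (b := ∑ c : V → Fin n, if Prp G c ∧ c p = c r then wt ts' c else 0)
              ((sum_inst _ _ _ _ (fun c => if_congr Iff.rfl rfl rfl)).trans
                (sum_mgG G hpr hadj n (fun c => wt ts' c)).symm) ?_
            apply Finset.sum_congr rfl
            intro c _
            rw [h5 n c, wt_cons]
            by_cases hc : Prp G c
            · by_cases hc2 : c p = c r
              · rw [if_pos ⟨hc, hc2⟩, if_pos hc]
                show _ = (if i < j ∧ j < ((marks l).map c).length ∧ ((marks l).map c)[i]? =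
                  ((marks l).map c)[j]? then _ else 0) * _
                rw [if_pos]
                refine ⟨hij.1, by rw [List.length_map]; exact hij.2, ?_⟩
                rw [List.getElem?_map, List.getElem?_map, hi, hj]
                simp [hc2]
              · rw [if_neg (fun h => hc2 h.2), if_pos hc]
                symm
                show (if i < j ∧ j < ((marks l).map c).length ∧ ((marks l).map c)[i]? =
                  ((marks l).map c)[j]? then _ else 0) * _ = 0
                rw [if_neg, zero_mul]
                rintro ⟨_, _, h6⟩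
                rw [List.getElem?_map, List.getElem?_map, hi, hj] at h6
                exact hc2 (by simpa using h6)
            · rw [if_neg hc, if_neg (fun h => hc h.1)]
      · apply hzero
        intro n c _
        show (if i < j ∧ j < ((marks l).map c).length ∧ ((marks l).map c)[i]? =
            ((marks l).map c)[j]? then _ else 0) = 0
        rw [if_neg]
        rintro ⟨h1, h2, _⟩
        rw [List.length_map] at h2
        exact hij ⟨h1, h2⟩

end Pool.Agent.Helper1.PG
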