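import Mathlib
import Pool.Agent.Helper1.PG.Track

/-!
Nonseparating triangles are faces; removal of a set of vertices whose faces form a disc.
-/

set_option autoImplicit false

namespace Pool.Agent.Helper1.PG

variable {V F E : Type}

/-- `f` is a triangular face with vertices `x, y, z`. -/
structure TF (a : E → V × V) (b : E → F × F) (f : F) (x y z : V) : Prop where
  all : ∀ e, Inc b f e → Jn a x y e ∨ Jn a y z e ∨ Jn a x z e
  xy : ∀ e, Jn a x y e → st b f e ≠ 0
  yz : ∀ e, Jn a y z e → st b f e ≠ 0
  xz : ∀ e, Jn a x z e → st b f e ≠ 0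

/-- A nonseparating triangle is a face. -/
theorem IsPl.tri_face [Fintype V] [Fintype F] [Fintype E] {a : E → V × V} {b : E → F × F}
    (h : IsPl a b) (hs : Simp a) {x y z : V} (hxy : x ≠ y) (hyz : y ≠ z) (hxz : x ≠ z)
    {exy eyz exz : E} (h1 : Jn a x y exy) (h2 : Jn a y z eyz) (h3 : Jn a x z exz)
    (hconn : ∀ p q, (p ≠ x ∧ p ≠ y ∧ p ≠ z) → (q ≠ x ∧ q ≠ y ∧ q ≠ z) →
      Relation.ReflTransGen (LkOn a (fun e => ¬ Inc a x e ∧ ¬ Inc a y e ∧ ¬ Inc a z e)) p q)
    (hex : ∃ p, p ≠ x ∧ p ≠ y ∧ p ≠ z) : ∃ f, TF a b f x y z := by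
  classical
  obtain ⟨p0, hp0⟩ := hex
  -- incidences of the three edges
  have inc1 : ∀ v, Inc a v exy ↔ v = x ∨ v = y := by
    intro v
    unfold Inc
    rcases h1 with ⟨e1, e2⟩ | ⟨e1, e2⟩
    · rw [e1, e2]; constructor <;> (rintro (h | h) <;> simp [h])
    · rw [e1, e2]; constructor <;> (rintro (h | h) <;> simp [h])
  have inc2 : ∀ v, Inc a v eyz ↔ v = y ∨ v = z := by
    intro v
    unfold Inc
    rcases h2 with ⟨e1, e2⟩ | ⟨e1, e2⟩
    · rw [e1, e2]; constructor <;> (rintro (h | h) <;> simp [h])
    · rw [e1, e2]; constructor <;> (rintro (h | h) <;> simp [h])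
  have inc3 : ∀ v, Inc a v exz ↔ v = x ∨ v = z := by
    intro v
    unfold Inc
    rcases h3 with ⟨e1, e2⟩ | ⟨e1, e2⟩
    · rw [e1, e2]; constructor <;> (rintro (h | h) <;> simp [h])
    · rw [e1, e2]; constructor <;> (rintro (h | h) <;> simp [h])
  have st1 : ∀ v, st a v exy = ind (x = v) + ind (y = v) := by
    intro v
    unfold st
    rcases h1 with ⟨e1, e2⟩ | ⟨e1, e2⟩
    · rw [e1, e2]
    · rw [e1, e2, add_comm]
  have st2 : ∀ v, st a v eyz = ind (y = v) + ind (z = v) := by
    intro v
    unfold st
    rcases h2 with ⟨e1, e2⟩ | ⟨e1, e2⟩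
    · rw [e1, e2]
    · rw [e1, e2, add_comm]
  have st3 : ∀ v, st a v exz = ind (x = v) + ind (z = v) := by
    intro v
    unfold st
    rcases h3 with ⟨e1, e2⟩ | ⟨e1, e2⟩
    · rw [e1, e2]
    · rw [e1, e2, add_comm]
  have n12 : exy ≠ eyz := by
    intro h
    have := (inc2 x).1 (h ▸ (inc1 x).2 (Or.inl rfl))
    rcases this with h4 | h4
    · exact hxy h4
    · exact hxz h4
  have n13 : exy ≠ exz := by
    intro h
    have := (inc3 y).1 (h ▸ (inc1 y).2 (Or.inr rfl))
    rcases this with h4 | h4
    · exact hxy h4.symm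
    · exact hyz h4
  have n23 : eyz ≠ exz := by
    intro h
    have := (inc3 y).1 (h ▸ (inc2 y).2 (Or.inl rfl))
    rcases this with h4 | h4
    · exact hxy h4.symm
    · exact hyz h4
  set Z : E → ZMod 2 := fun e => ind (e = exy) + ind (e = eyz) + ind (e = exz) with hZ
  have hZe : EvenZ a Z := by
    intro v
    simp only [hZ, mul_add]
    rw [Finset.sum_add_distrib, Finset.sum_add_distrib, Finset.sum_eq_single exy,
      Finset.sum_eq_single eyz, Finset.sum_eq_single exz]
    · rw [ind_true rfl, ind_true rfl, ind_true rfl, st1, st2, st3]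
      linear_combination z2_add_self (ind (x = v)) + z2_add_self (ind (y = v)) +
        z2_add_self (ind (z = v))
    · intro e _ hne; rw [ind_false hne, mul_zero]
    · intro h6; exact absurd (Finset.mem_univ _) h6
    · intro e _ hne; rw [ind_false hne, mul_zero]
    · intro h6; exact absurd (Finset.mem_univ _) h6
    · intro e _ hne; rw [ind_false hne, mul_zero]
    · intro h6; exact absurd (Finset.mem_univ _) h6
  have hZ1 : Z exy = 1 := by
    show ind (exy = exy) + ind (exy = eyz) + ind (exy = exz) = 1
    rw [ind_true rfl, ind_false n12, ind_false n13]; decide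
  obtain ⟨s, hsZ⟩ := h.toIsPlane.exists_side hZe
  have hstep : ∀ v, (v ≠ x ∧ v ≠ y ∧ v ≠ z) → ∀ e, Inc a v e → s (b e).1 = s (b e).2 := by
    intro v hv e he
    have h4 : Z e = 0 := by
      show ind (e = exy) + ind (e = eyz) + ind (e = exz) = 0
      rw [ind_false, ind_false, ind_false]
      · decide
      · rintro rfl
        rcases (inc3 v).1 he with h5 | h5
        · exact hv.1 h5
        · exact hv.2.2 h5
      · rintro rfl
        rcases (inc2 v).1 he with h5 | h5
        · exact hv.2.1 h5
        · exact hv.2.2 h5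
      · rintro rfl
        rcases (inc1 v).1 he with h5 | h5
        · exact hv.1 h5
        · exact hv.2.1 h5
    have h5 := hsZ e
    rw [h4] at h5
    unfold cutZ at h5
    linear_combination -h5 - z2_add_self (s (b e).2)
  -- the value at an outside vertex
  have hval : ∀ v, (v ≠ x ∧ v ≠ y ∧ v ≠ z) → ∀ e e', Inc a v e → Inc a v e' →
      s (b e).1 = s (b e').1 := by
    intro v hv e e' he he'
    have h4 := h.fc_dual v e e' he he'
    have key : ∀ f g, Relation.ReflTransGen (LkOn b (Inc a v)) f g → s f = s g := by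
      intro f g hfg
      induction hfg with
      | refl => rfl
      | tail _ h5 ih =>
        obtain ⟨d, hd, hd'⟩ := h5
        rw [ih]
        have h6 := hstep v hv d hd
        rcases hd' with h7 | h7
        · rw [← h7.1, ← h7.2]; exact h6
        · rw [← h7.1, ← h7.2]; exact h6.symm
    exact key _ _ h4
  have hval2 : ∀ v, (v ≠ x ∧ v ≠ y ∧ v ≠ z) → ∀ e e' f, Inc a v e → Inc a v e' → Inc b f e →
      s f = s (b e').1 := by
    intro v hv e e' f he he' hf
    rcases hf with hf | hf
    · rw [← hf]; exact hval v hv e e' he he'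
    · rw [← hf, ← hstep v hv e he]; exact hval v hv e e' he he'
  have hp0e : ∃ e0, Inc a p0 e0 := by
    obtain ⟨u, w, ⟨e, he⟩, h4, h5⟩ := exists_step_ne (p := fun v => v = p0) (h.conn p0 x) rfl
      (Ne.symm hp0.1)
    subst h4
    refine ⟨e, ?_⟩
    rcases he with h6 | h6
    · exact Or.inl h6.1
    · exact Or.inr h6.2
  obtain ⟨e0, he0⟩ := hp0e
  have hall : ∀ p, (p ≠ x ∧ p ≠ y ∧ p ≠ z) → ∀ e, Inc a p e → s (b e).1 = s (b e0).1 := by
    intro p hp
    have h4 := hconn p0 p hp0 hp
    have key : ∀ u w, (u ≠ x ∧ u ≠ y ∧ u ≠ z) →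
        Relation.ReflTransGen (LkOn a (fun e => ¬ Inc a x e ∧ ¬ Inc a y e ∧ ¬ Inc a z e)) u w →
        (w ≠ x ∧ w ≠ y ∧ w ≠ z) ∧ ∀ e e', Inc a u e → Inc a w e' → s (b e').1 = s (b e).1 := by
      intro u w hu huw
      induction huw with
      | refl => exact ⟨hu, fun e e' he he' => hval _ hu e' e he' he⟩
      | @tail w v _ h5 ih =>
        obtain ⟨d, hd, hd'⟩ := h5
        have hw : Inc a w d := by
          rcases hd' with h6 | h6
          · exact Or.inl h6.1
          · exact Or.inr h6.2
        have hv : Inc a v d := by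
          rcases hd' with h6 | h6
          · exact Or.inr h6.2
          · exact Or.inl h6.1
        have hv' : v ≠ x ∧ v ≠ y ∧ v ≠ z :=
          ⟨fun h7 => hd.1 (h7 ▸ hv), fun h7 => hd.2.1 (h7 ▸ hv), fun h7 => hd.2.2 (h7 ▸ hv)⟩
        refine ⟨hv', fun e e' he he' => ?_⟩
        rw [hval v hv' e' d he' hv]
        exact ih.2 e d he hw
    intro e he
    exact (key p0 p hp0 h4).2 e0 e he0 he
  -- a side of `exy` with the other value
  obtain ⟨f, hf, hfs⟩ : ∃ f, Inc b f exy ∧ s f ≠ s (b e0).1 := by
    have h4 := hsZ exy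
    rw [hZ1] at h4
    unfold cutZ at h4
    by_cases h5 : s (b exy).1 = s (b e0).1
    · refine ⟨(b exy).2, Or.inr rfl, ?_⟩
      intro h6
      rw [h5, h6, z2_add_self] at h4
      exact absurd h4 (by decide)
    · exact ⟨(b exy).1, Or.inl rfl, h5⟩
  have hends : ∀ e, Inc b f e → ∀ v, Inc a v e → v = x ∨ v = y ∨ v = z := by
    intro e he v hv
    by_contra h4
    push Not at h4
    apply hfs
    rw [hval2 v h4 e e f hv hv he]
    exact hall v h4 e hv
  have hfall : ∀ e, Inc b f e → Jn a x y e ∨ Jn a y z e ∨ Jn a x z e := by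
    intro e he
    have h4 := hends e he (a e).1 (Or.inl rfl)
    have h5 := hends e he (a e).2 (Or.inr rfl)
    have h6 := hs.noloop e
    rcases h4 with h4 | h4 | h4 <;> rcases h5 with h5 | h5 | h5
    · exact absurd (h4.trans h5.symm) h6
    · exact Or.inl (Or.inl ⟨h4, h5⟩)
    · exact Or.inr (Or.inr (Or.inl ⟨h4, h5⟩))
    · exact Or.inl (Or.inr ⟨h4, h5⟩)
    · exact absurd (h4.trans h5.symm) h6
    · exact Or.inr (Or.inl (Or.inl ⟨h4, h5⟩))
    · exact Or.inr (Or.inr (Or.inr ⟨h4, h5⟩))
    · exact Or.inr (Or.inl (Or.inr ⟨h4, h5⟩))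
    · exact absurd (h4.trans h5.symm) h6
  have hfall' : ∀ e, Inc b f e → e = exy ∨ e = eyz ∨ e = exz := by
    intro e he
    rcases hfall e he with h4 | h4 | h4
    · exact Or.inl (h4.unique hs h1)
    · exact Or.inr (Or.inl (h4.unique hs h2))
    · exact Or.inr (Or.inr (h4.unique hs h3))
  have hne : (b exy).1 ≠ (b exy).2 := by
    intro h4
    have h5 := hsZ exy
    rw [hZ1] at h5
    unfold cutZ at h5
    rw [h4, z2_add_self] at h5
    exact absurd h5 (by decide)
  have hs1 : st b f exy = 1 := st_of_inc hne hf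
  -- orthogonality at `x` and `y`
  have hsum : ∀ v, ∑ e, st a v e * st b f e =
      st a v exy * st b f exy + st a v eyz * st b f eyz + st a v exz * st b f exz := by
    intro v
    have h4 : ∑ e, st a v e * st b f e = ∑ e ∈ ({exy, eyz, exz} : Finset E),
        st a v e * st b f e := by
      symm
      apply Finset.sum_subset (Finset.subset_univ _)
      intro e _ he
      have h5 : ¬ Inc b f e := by
        intro h6
        apply he
        rcases hfall' e h6 with h7 | h7 | h7
        · simp [h7]
        · simp [h7]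
        · simp [h7]
      rw [st_of_not_inc h5, mul_zero]
    rw [h4, Finset.sum_insert (by simp [n12, n13]), Finset.sum_insert (by simp [n23]),
      Finset.sum_singleton]
    ring
  have hs3 : st b f exz = 1 := by
    have h4 := h.orth x f
    rw [hsum x, st1, st2, st3, ind_true rfl, ind_false (Ne.symm hxy), ind_false (Ne.symm hxz),
      hs1] at h4
    rcases z2_cases (st b f exz) with h5 | h5
    · rw [h5] at h4; exact absurd h4 (by simp)
    · exact h5
  have hs2 : st b f eyz = 1 := by
    have h4 := h.orth y f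
    rw [hsum y, st1, st2, st3, ind_true rfl, ind_false hxy, ind_false (Ne.symm hyz), hs1] at h4
    rcases z2_cases (st b f eyz) with h5 | h5
    · rw [h5] at h4; exact absurd h4 (by simp)
    · exact h5
  refine ⟨f, hfall, ?_, ?_, ?_⟩
  · intro e he
    rw [he.unique hs h1, hs1]; decide
  · intro e he
    rw [he.unique hs h2, hs2]; decide
  · intro e he
    rw [he.unique hs h3, hs3]; decide

/-- Edges meeting `K`. -/
def EK (a : E → V × V) (K : V → Prop) (e : E) : Prop := K (a e).1 ∨ K (a e).2

/-- Faces meeting an edge at `K`. -/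
def FK (a : E → V × V) (b : E → F × F) (K : V → Prop) (f : F) : Prop := ∃ e, EK a K e ∧ Inc b f e

/-- Ends after the removal of `K`. -/
def remA (a : E → V × V) (K : V → Prop) (e : {e : E // ¬ EK a K e}) :
    {v : V // ¬ K v} × {v : V // ¬ K v} :=
  (⟨(a e).1, fun h => e.2 (Or.inl h)⟩, ⟨(a e).2, fun h => e.2 (Or.inr h)⟩)

open scoped Classical in
/-- The merged face. -/
noncomputable def mf (a : E → V × V) (b : E → F × F) (K : V → Prop) (f : F) :
    Option {f : F // ¬ FK a b K f} := if h : FK a b K f then none else some ⟨f, h⟩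

/-- Sides after the removal of `K`. -/
noncomputable def remB (a : E → V × V) (b : E → F × F) (K : V → Prop) (e : {e : E // ¬ EK a K e}) :
    Option {f : F // ¬ FK a b K f} × Option {f : F // ¬ FK a b K f} :=
  (mf a b K (b e).1, mf a b K (b e).2)

theorem mf_none {a : E → V × V} {b : E → F × F} {K : V → Prop} {f : F} :
    mf a b K f = none ↔ FK a b K f := by
  unfold mf
  by_cases h : FK a b K f
  · rw [dif_pos h]; simp [h]
  · rw [dif_neg h]; simp [h]

theorem mf_some {a : E → V × V} {b : E → F × F} {K : V → Prop} {f : F}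
    {g : {f : F // ¬ FK a b K f}} : mf a b K f = some g ↔ f = g.1 := by
  unfold mf
  by_cases h : FK a b K f
  · rw [dif_pos h]
    constructor
    · intro h1; simp at h1
    · intro h1; exact absurd (h1 ▸ h) g.2
  · rw [dif_neg h, Option.some_inj]
    exact ⟨fun h1 => congrArg Subtype.val h1, fun h1 => Subtype.ext h1⟩

/-- Removal of `K` when its faces form a disc. -/
theorem IsPl.remove [Fintype V] [Fintype F] [Fintype E] {a : E → V × V} {b : E → F × F}
    (h : IsPl a b) (K : V → Prop) [Fintype {v : V // ¬ K v}] [Fintype {e : E // ¬ EK a K e}]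
    [Fintype {f : F // ¬ FK a b K f}]
    (hcount : Nat.card {f : F // FK a b K f} + Nat.card {v : V // K v} =
      Nat.card {e : E // EK a K e} + 1)
    (hconn : ∀ x y, ¬ K x → ¬ K y → Relation.ReflTransGen (LkOn a (fun e => ¬ EK a K e)) x y)
    (hT : ∃ f, FK a b K f) {x0 : {v : V // ¬ K v}}
    {l : List (Tok {v : V // ¬ K v} {e : E // ¬ EK a K e})}
    (hpath : Path (remA a K) x0 l x0) (hnd : (sides l).Nodup)
    (hmem : ∀ s : {e : E // ¬ EK a K e} × Bool, s ∈ sides l ↔ FK a b K (sf b (s.1.1, s.2))) :
    IsPl (remA a K) (remB a b K) ∧ Trk (remA a K) (remB a b K) none x0 l := by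
  classical
  have htrk : Trk (remA a K) (remB a b K) none x0 l := by
    refine ⟨hpath, hnd, ?_⟩
    intro s
    rw [hmem s]
    have h1 : sf (remB a b K) s = mf a b K (sf b (s.1.1, s.2)) := by
      rcases s with ⟨e, c⟩
      cases c <;> rfl
    rw [h1, mf_none]
  refine ⟨⟨⟨?_, ?_, ?_, ?_⟩, ?_⟩, htrk⟩
  · -- connected
    rintro ⟨x, hx⟩ ⟨y, hy⟩
    have h1 := hconn x y hx hy
    have key : ∀ z, Relation.ReflTransGen (LkOn a (fun e => ¬ EK a K e)) x z → ∀ hz : ¬ K z,
        Relation.ReflTransGen (Lk (remA a K)) ⟨x, hx⟩ ⟨z, hz⟩ := by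
      intro z hz
      induction hz with
      | refl => intro _; exact Relation.ReflTransGen.refl
      | @tail w v _ h2 ih =>
        intro hv
        obtain ⟨e, he, he'⟩ := h2
        have hw : ¬ K w := by
          intro h3
          apply he
          rcases he' with h4 | h4
          · left; rw [h4.1]; exact h3
          · right; rw [h4.2]; exact h3
        refine (ih hw).tail ⟨⟨e, he⟩, ?_⟩
        rcases he' with h4 | h4
        · left; exact ⟨Subtype.ext h4.1, Subtype.ext h4.2⟩
        · right; exact ⟨Subtype.ext h4.1, Subtype.ext h4.2⟩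
    exact key y h1 hy
  · -- dual connected
    have key : ∀ f g, Relation.ReflTransGen (Lk b) f g →
        Relation.ReflTransGen (Lk (remB a b K)) (mf a b K f) (mf a b K g) := by
      intro f g hfg
      induction hfg with
      | refl => exact Relation.ReflTransGen.refl
      | @tail g g' _ h2 ih =>
        obtain ⟨e, he⟩ := h2
        by_cases hek : EK a K e
        · have h3 : mf a b K g = mf a b K g' := by
            rcases he with h4 | h4
            · rw [← h4.1, ← h4.2, mf_none.2 ⟨e, hek, Or.inl rfl⟩, mf_none.2 ⟨e, hek, Or.inr rfl⟩]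
            · rw [← h4.1, ← h4.2, mf_none.2 ⟨e, hek, Or.inl rfl⟩, mf_none.2 ⟨e, hek, Or.inr rfl⟩]
          rw [← h3]; exact ih
        · refine ih.tail ⟨⟨e, hek⟩, ?_⟩
          rcases he with h4 | h4
          · left; exact ⟨congrArg (mf a b K) h4.1, congrArg (mf a b K) h4.2⟩
          · right; exact ⟨congrArg (mf a b K) h4.1, congrArg (mf a b K) h4.2⟩
    have hsurj : ∀ g', ∃ g, mf a b K g = g' := by
      rintro (_ | g)
      · obtain ⟨f, hf⟩ := hT
        exact ⟨f, mf_none.2 hf⟩
      · exact ⟨g.1, mf_some.2 rfl⟩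
    intro f' g'
    obtain ⟨f, rfl⟩ := hsurj f'
    obtain ⟨g, rfl⟩ := hsurj g'
    exact key f g (h.dconn f g)
  · -- orthogonality
    rintro ⟨v, hv⟩ g'
    have hst : ∀ e : {e : E // ¬ EK a K e}, st (remA a K) ⟨v, hv⟩ e = st a v e.1 := by
      intro e
      unfold st remA
      congr 1
      · apply ind_congr
        exact ⟨fun h1 => congrArg Subtype.val h1, fun h1 => Subtype.ext h1⟩
      · apply ind_congr
        exact ⟨fun h1 => congrArg Subtype.val h1, fun h1 => Subtype.ext h1⟩
    -- sums over the remaining edges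
    have hsub : ∀ w : E → ZMod 2, ∑ e : {e : E // ¬ EK a K e}, w e.1 =
        ∑ e ∈ Finset.univ.filter (fun e => ¬ EK a K e), w e := by
      intro w
      symm
      apply Finset.sum_subtype
      intro e; simp
    rcases g' with _ | g
    · have h1 : ∀ e : {e : E // ¬ EK a K e}, st (remB a b K) none e =
          ∑ f ∈ Finset.univ.filter (FK a b K), st b f e.1 := by
        intro e
        rw [sum_st]
        unfold st remB
        congr 1
        · apply ind_congr
          rw [mf_none]; simp
        · apply ind_congr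
          rw [mf_none]; simp
      simp only [hst, h1]
      rw [hsub (fun e => st a v e * ∑ f ∈ Finset.univ.filter (FK a b K), st b f e)]
      have h2 : ∑ e, st a v e * ∑ f ∈ Finset.univ.filter (FK a b K), st b f e = 0 := by
        simp only [Finset.mul_sum]
        rw [Finset.sum_comm]
        exact Finset.sum_eq_zero fun f _ => h.orth v f
      rw [← h2, ← Finset.sum_filter_add_sum_filter_not Finset.univ (fun e => ¬ EK a K e)]
      have h3 : ∑ e ∈ Finset.univ.filter (fun e => ¬ ¬ EK a K e),
          st a v e * ∑ f ∈ Finset.univ.filter (FK a b K), st b f e = 0 := by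
        apply Finset.sum_eq_zero
        intro e he
        have he' : EK a K e := not_not.1 (Finset.mem_filter.1 he).2
        rw [sum_st, ind_true (Finset.mem_filter.2 ⟨Finset.mem_univ _, ⟨e, he', Or.inl rfl⟩⟩),
          ind_true (Finset.mem_filter.2 ⟨Finset.mem_univ _, ⟨e, he', Or.inr rfl⟩⟩)]
        have : (1 + 1 : ZMod 2) = 0 := by decide
        rw [this, mul_zero]
      rw [h3, add_zero]
    · have h1 : ∀ e : {e : E // ¬ EK a K e}, st (remB a b K) (some g) e = st b g.1 e.1 := by
        intro e
        unfold st remB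
        congr 1
        · apply ind_congr
          exact mf_some
        · apply ind_congr
          exact mf_some
      simp only [hst, h1]
      rw [hsub (fun e => st a v e * st b g.1 e), ← h.orth v g.1,
        ← Finset.sum_filter_add_sum_filter_not Finset.univ (fun e => ¬ EK a K e)]
      have h3 : ∑ e ∈ Finset.univ.filter (fun e => ¬ ¬ EK a K e), st a v e * st b g.1 e = 0 := by
        apply Finset.sum_eq_zero
        intro e he
        have he' : EK a K e := not_not.1 (Finset.mem_filter.1 he).2
        rw [st_of_not_inc (fun h4 => g.2 ⟨e, he', h4⟩), mul_zero]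
      rw [h3, add_zero]
  · -- Euler
    have h1 := h.euler
    rw [Nat.card_eq_fintype_card, Nat.card_eq_fintype_card, Nat.card_eq_fintype_card] at hcount
    have h2 := Fintype.card_subtype_compl K
    have h3 := Fintype.card_subtype_compl (EK a K)
    have h4 := Fintype.card_subtype_compl (FK a b K)
    have h5 := Fintype.card_subtype_le K
    have h6 := Fintype.card_subtype_le (EK a K)
    have h7 := Fintype.card_subtype_le (FK a b K)
    rw [Fintype.card_option]
    have e2 : Fintype.card {v : V // ¬ K v} = Fintype.card V - Fintype.card {v : V // K v} := by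
      rw [← h2]
    have e3 : Fintype.card {e : E // ¬ EK a K e} =
        Fintype.card E - Fintype.card {e : E // EK a K e} := by
      rw [← h3]
    have e4 : Fintype.card {f : F // ¬ FK a b K f} =
        Fintype.card F - Fintype.card {f : F // FK a b K f} := by
      rw [← h4]
    omega
  · -- connected boundaries
    intro g' e e' he he'
    rcases g' with _ | g
    · have hs : ∀ {x y}, Relation.ReflTransGen (LkOn (remA a K) (Inc (remB a b K) none)) x y →
          Relation.ReflTransGen (LkOn (remA a K) (Inc (remB a b K) none)) y x :=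
        fun h => rtg_symm (fun _ _ h => h.symm) h
      exact (hs (htrk.fc he)).trans (htrk.fc he')
    · have hi : ∀ d : {e : E // ¬ EK a K e}, Inc (remB a b K) (some g) d ↔ Inc b g.1 d.1 := by
        intro d
        unfold Inc remB
        exact or_congr mf_some mf_some
      have h1 := h.fc g.1 e.1 e'.1 ((hi e).1 he) ((hi e').1 he')
      have key : ∀ z, Relation.ReflTransGen (LkOn a (Inc b g.1)) (a e.1).1 z → ∀ hz : ¬ K z,
          Relation.ReflTransGen (LkOn (remA a K) (Inc (remB a b K) (some g)))
            (remA a K e).1 ⟨z, hz⟩ := by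
        intro z hz
        induction hz with
        | refl => intro _; exact Relation.ReflTransGen.refl
        | @tail w v _ h2 ih =>
          intro hv
          obtain ⟨d, hd, hd'⟩ := h2
          have hdk : ¬ EK a K d := fun h3 => g.2 ⟨d, h3, hd⟩
          have hw : ¬ K w := by
            intro h3
            apply hdk
            rcases hd' with h4 | h4
            · left; rw [h4.1]; exact h3
            · right; rw [h4.2]; exact h3
          refine (ih hw).tail ⟨⟨d, hdk⟩, (hi ⟨d, hdk⟩).2 hd, ?_⟩
          rcases hd' with h4 | h4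
          · left; exact ⟨Subtype.ext h4.1, Subtype.ext h4.2⟩
          · right; exact ⟨Subtype.ext h4.1, Subtype.ext h4.2⟩
      exact key _ h1 (fun h => e'.2 (Or.inl h))

end Pool.Agent.Helper1.PG
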