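import Mathlib
import Pool.Agent.Helper1.PG.Remove
import Pool.Agent.Helper1.PG.FillMain

/-!
The hexagonal window: a vertex of degree six and its six neighbours of degree six, in a graph of
the class `Pl` in which no triangle at these vertices separates. The ring around the window is a
tracked face of the rest, so all fillings have nonnegative value.
-/

set_option autoImplicit false

namespace Pool.Agent.Helper1.PG

open Pool.Agent.Helper36.BL (cp cnt cols cp_eval mem_cols IsMinor)
open Polynomial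

variable {V F E : Type}

/-- The hexagonal window with centre `c`, neighbours `h i` and ring
`rc 0, rm 0, rc 1, rm 1, ..., rc 5, rm 5`. -/
structure Hex (H : SimpleGraph V) (c : V) (h rc rm : ZMod 6 → V) : Prop where
  hinj : Function.Injective h
  nc : ∀ x, H.Adj c x ↔ ∃ i, x = h i
  nh : ∀ i x, H.Adj (h i) x ↔
    x = c ∨ x = h (i - 1) ∨ x = h (i + 1) ∨ x = rm (i - 1) ∨ x = rc i ∨ x = rm i
  rcc : ∀ i, rc i ≠ c
  rmc : ∀ i, rm i ≠ c
  rch : ∀ i j, rc i ≠ h j
  rmh : ∀ i j, rm i ≠ h j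
  d1 : ∀ i, rm (i - 1) ≠ rc i
  d2 : ∀ i, rc i ≠ rm i
  d3 : ∀ i, rm (i - 1) ≠ rm i
  a1 : ∀ i, H.Adj (rc i) (rm i)
  a2 : ∀ i, H.Adj (rm i) (rc (i + 1))

/-- The vertices of the window. -/
def HK (c : V) (h : ZMod 6 → V) (x : V) : Prop := x = c ∨ ∃ i, x = h i

/-- The neighbours of `h i` that are used to index the edges at the window. -/
def nb (c : V) (h rc rm : ZMod 6 → V) (i : ZMod 6) : Fin 5 → V :=
  ![c, h (i + 1), rm (i - 1), rc i, rm i]

/-- The edges at the window on the faces at the window. -/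
def tab (t : ZMod 6 × Fin 4) : List (ZMod 6 × Fin 5) :=
  match t.2 with
  | 0 => [(t.1, 0), (t.1 + 1, 0), (t.1, 1)]
  | 1 => [(t.1, 1), (t.1, 4), (t.1 + 1, 2)]
  | 2 => [(t.1, 2), (t.1, 3)]
  | 3 => [(t.1, 3), (t.1, 4)]

theorem tab_inj : ∀ s t : ZMod 6 × Fin 4, (∀ u, u ∈ tab s ↔ u ∈ tab t) → s = t := by
  decide

theorem tab_two : ∀ u : ZMod 6 × Fin 5, ∃ s t : ZMod 6 × Fin 4, s ≠ t ∧ u ∈ tab s ∧ u ∈ tab t := by
  decide

/-- The face index of a ring edge. -/
def fR (r : ZMod 6 × Bool) : ZMod 6 × Fin 4 := if r.2 then (r.1 + 1, 2) else (r.1, 3)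

theorem fR_inj : Function.Injective fR := by
  decide

namespace Hex

variable {H : SimpleGraph V} {c : V} {h rc rm : ZMod 6 → V}

theorem hc (X : Hex H c h rc rm) (i : ZMod 6) : h i ≠ c :=
  ((X.nc (h i)).2 ⟨i, rfl⟩).ne'

theorem hne (X : Hex H c h rc rm) (i : ZMod 6) : h i ≠ h (i + 1) := by
  intro h1
  have h2 := X.hinj h1
  have h3 : (1 : ZMod 6) = 0 := by linear_combination -h2
  exact absurd h3 (by decide)

theorem nb_inj (X : Hex H c h rc rm) (i : ZMod 6) : Function.Injective (nb c h rc rm i) := by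
  have e1 := X.hc (i + 1)
  have e2 := X.rmc (i - 1)
  have e3 := X.rcc i
  have e4 := X.rmc i
  have e5 := X.rmh (i - 1) (i + 1)
  have e6 := X.rch i (i + 1)
  have e7 := X.rmh i (i + 1)
  have e8 := X.d1 i
  have e9 := X.d3 i
  have e10 := X.d2 i
  intro k l hkl
  fin_cases k <;> fin_cases l <;>
    first
    | rfl
    | exact absurd hkl e1
    | exact absurd hkl.symm e1
    | exact absurd hkl e2
    | exact absurd hkl.symm e2
    | exact absurd hkl e3
    | exact absurd hkl.symm e3
    | exact absurd hkl e4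
    | exact absurd hkl.symm e4
    | exact absurd hkl e5
    | exact absurd hkl.symm e5
    | exact absurd hkl e6
    | exact absurd hkl.symm e6
    | exact absurd hkl e7
    | exact absurd hkl.symm e7
    | exact absurd hkl e8
    | exact absurd hkl.symm e8
    | exact absurd hkl e9
    | exact absurd hkl.symm e9
    | exact absurd hkl e10
    | exact absurd hkl.symm e10

theorem nb_eq_h (X : Hex H c h rc rm) (i j : ZMod 6) (k : Fin 5) (hk : nb c h rc rm i k = h j) :
    j = i + 1 := by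
  fin_cases k
  · exact absurd hk.symm (X.hc j)
  · exact (X.hinj hk).symm
  · exact absurd hk (X.rmh _ _)
  · exact absurd hk (X.rch _ _)
  · exact absurd hk (X.rmh _ _)

theorem adj_nb (X : Hex H c h rc rm) (i : ZMod 6) (k : Fin 5) :
    H.Adj (h i) (nb c h rc rm i k) := by
  rw [X.nh]
  fin_cases k
  · exact Or.inl rfl
  · exact Or.inr (Or.inr (Or.inl rfl))
  · exact Or.inr (Or.inr (Or.inr (Or.inl rfl)))
  · exact Or.inr (Or.inr (Or.inr (Or.inr (Or.inl rfl))))
  · exact Or.inr (Or.inr (Or.inr (Or.inr (Or.inr rfl))))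

end Hex

/-- A simple plane representation of a graph with a window, with chosen edges. -/
structure Rep (H : SimpleGraph V) (c : V) (h rc rm : ZMod 6 → V) [Fintype V] [Fintype F]
    [Fintype E] (a : E → V × V) (b : E → F × F) (eK : ZMod 6 × Fin 5 → E)
    (gR : ZMod 6 × Bool → E) (fK : ZMod 6 × Fin 4 → F) : Prop where
  X : Hex H c h rc rm
  pl : IsPl a b
  simp : Simp a
  adj : ∀ e, H.Adj (a e).1 (a e).2
  lk : ∀ u v, H.Adj u v → Lk a u v
  ek : ∀ t, Jn a (h t.1) (nb c h rc rm t.1 t.2) (eK t)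
  g0 : ∀ i, Jn a (rc i) (rm i) (gR (i, false))
  g1 : ∀ i, Jn a (rm i) (rc (i + 1)) (gR (i, true))
  f0 : ∀ i, TF a b (fK (i, 0)) (h i) c (h (i + 1))
  f1 : ∀ i, TF a b (fK (i, 1)) (h i) (h (i + 1)) (rm i)
  f2 : ∀ i, TF a b (fK (i, 2)) (h i) (rm (i - 1)) (rc i)
  f3 : ∀ i, TF a b (fK (i, 3)) (h i) (rc i) (rm i)

namespace Rep

variable [Fintype V] [Fintype F] [Fintype E] {H : SimpleGraph V} {c : V}
  {h rc rm : ZMod 6 → V} {a : E → V × V} {b : E → F × F} {eK : ZMod 6 × Fin 5 → E}
  {gR : ZMod 6 × Bool → E} {fK : ZMod 6 × Fin 4 → F}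

theorem eK_inj (R : Rep H c h rc rm a b eK gR fK) : Function.Injective eK := by
  rintro ⟨i, k⟩ ⟨j, l⟩ hh
  have h1 : Jn a (h i) (nb c h rc rm i k) (eK (i, k)) := R.ek (i, k)
  have h2 : Jn a (h j) (nb c h rc rm j l) (eK (i, k)) := by
    have := R.ek (j, l)
    rw [← hh] at this
    exact this
  by_cases hij : h i = h j
  · have hij' := R.X.hinj hij
    subst hij'
    have h3 := h1.eq_right R.simp.noloop h2
    rw [R.X.nb_inj i h3]
  · exfalso
    have h3 := Jn.of_inc h1.inc h2.inc hij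
    have h4 := R.X.nb_eq_h _ _ _ (h1.eq_right R.simp.noloop h3)
    have h5 := R.X.nb_eq_h _ _ _ (h2.eq_right R.simp.noloop h3.symm)
    have h6 : (2 : ZMod 6) = 0 := by linear_combination -h4 - h5
    exact absurd h6 (by decide)

theorem uniq (R : Rep H c h rc rm a b eK gR fK) {i : ZMod 6} {k : Fin 5} {u : ZMod 6 × Fin 5}
    (hj : Jn a (h i) (nb c h rc rm i k) (eK u)) : u = (i, k) :=
  R.eK_inj (hj.unique R.simp (R.ek (i, k)))

theorem not_ring (R : Rep H c h rc rm a b eK gR fK) {x y : V} {u : ZMod 6 × Fin 5}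
    (hx : ∀ j, x ≠ h j) (hy : ∀ j, y ≠ h j) : ¬ Jn a x y (eK u) := by
  intro hj
  have h1 := (R.ek u).inc
  rcases h1 with h1 | h1 <;> rcases hj with ⟨h2, h3⟩ | ⟨h2, h3⟩
  · exact hx _ (h2.symm.trans h1)
  · exact hy _ (h2.symm.trans h1)
  · exact hy _ (h3.symm.trans h1)
  · exact hx _ (h3.symm.trans h1)

theorem EK_iff (R : Rep H c h rc rm a b eK gR fK) (e : E) : EK a (HK c h) e ↔ ∃ u, e = eK u := by
  constructor
  · intro he
    -- an end in the window
    have key : ∀ x y, Jn a x y e → HK c h x → ∃ u, e = eK u := by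
      intro x y hj hx
      have hxy : H.Adj x y := by
        have := R.adj e
        rcases hj with ⟨h1, h2⟩ | ⟨h1, h2⟩
        · rw [h1, h2] at this; exact this
        · rw [h1, h2] at this; exact this.symm
      have hfin : ∀ i k, Jn a (h i) (nb c h rc rm i k) e → ∃ u, e = eK u :=
        fun i k hj => ⟨(i, k), hj.unique R.simp (R.ek (i, k))⟩
      rcases hx with hx | ⟨i, hx⟩
      · subst hx
        obtain ⟨i, hi⟩ := (R.X.nc y).1 hxy
        subst hi
        exact hfin i 0 hj.symm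
      · subst hx
        rcases (R.X.nh i y).1 hxy with hy | hy | hy | hy | hy | hy
        · subst hy; exact hfin i 0 hj
        · subst hy
          apply hfin (i - 1) 1
          show Jn a (h (i - 1)) (h (i - 1 + 1)) e
          rw [sub_add_cancel]
          exact hj.symm
        · subst hy; exact hfin i 1 hj
        · subst hy; exact hfin i 2 hj
        · subst hy; exact hfin i 3 hj
        · subst hy; exact hfin i 4 hj
    rcases he with he | he
    · exact key _ _ (Or.inl ⟨rfl, rfl⟩) he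
    · exact key _ _ (Or.inr ⟨rfl, rfl⟩) he
  · rintro ⟨u, rfl⟩
    rcases (R.ek u).inc with h1 | h1
    · exact Or.inl (Or.inr ⟨_, h1⟩)
    · exact Or.inr (Or.inr ⟨_, h1⟩)

theorem inc_iff (R : Rep H c h rc rm a b eK gR fK) (t : ZMod 6 × Fin 4) (u : ZMod 6 × Fin 5) :
    Inc b (fK t) (eK u) ↔ u ∈ tab t := by
  obtain ⟨i, k⟩ := t
  have hrc : ∀ i j, rc i ≠ h j := R.X.rch
  have hrm : ∀ i j, rm i ≠ h j := R.X.rmh
  have hsub : rm i = nb c h rc rm (i + 1) 2 := by
    show rm i = rm (i + 1 - 1)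
    rw [add_sub_cancel_right]
  fin_cases k
  · constructor
    · intro h1
      rcases (R.f0 i).all _ h1 with h2 | h2 | h2
      · have := R.uniq (i := i) (k := 0) h2
        subst this
        exact List.mem_cons_self ..
      · have := R.uniq (i := i + 1) (k := 0) h2.symm
        subst this
        exact List.mem_cons_of_mem _ (List.mem_cons_self ..)
      · have := R.uniq (i := i) (k := 1) h2
        subst this
        exact List.mem_cons_of_mem _ (List.mem_cons_of_mem _ (List.mem_cons_self ..))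
    · intro h1
      change u ∈ [(i, 0), (i + 1, 0), (i, 1)] at h1
      simp only [List.mem_cons, List.not_mem_nil, or_false] at h1
      rcases h1 with rfl | rfl | rfl
      · exact inc_of_st ((R.f0 i).xy _ (R.ek (i, 0)))
      · exact inc_of_st ((R.f0 i).yz _ (R.ek (i + 1, 0)).symm)
      · exact inc_of_st ((R.f0 i).xz _ (R.ek (i, 1)))
  · constructor
    · intro h1
      rcases (R.f1 i).all _ h1 with h2 | h2 | h2
      · have := R.uniq (i := i) (k := 1) h2
        subst this
        exact List.mem_cons_self ..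
      · rw [hsub] at h2
        have := R.uniq (i := i + 1) (k := 2) h2
        subst this
        exact List.mem_cons_of_mem _ (List.mem_cons_of_mem _ (List.mem_cons_self ..))
      · have := R.uniq (i := i) (k := 4) h2
        subst this
        exact List.mem_cons_of_mem _ (List.mem_cons_self ..)
    · intro h1
      change u ∈ [(i, 1), (i, 4), (i + 1, 2)] at h1
      simp only [List.mem_cons, List.not_mem_nil, or_false] at h1
      rcases h1 with rfl | rfl | rfl
      · exact inc_of_st ((R.f1 i).xy _ (R.ek (i, 1)))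
      · exact inc_of_st ((R.f1 i).xz _ (R.ek (i, 4)))
      · exact inc_of_st ((R.f1 i).yz _ (by rw [hsub]; exact R.ek (i + 1, 2)))
  · constructor
    · intro h1
      rcases (R.f2 i).all _ h1 with h2 | h2 | h2
      · have := R.uniq (i := i) (k := 2) h2
        subst this
        exact List.mem_cons_self ..
      · exact absurd h2 (R.not_ring (hrm _) (hrc _))
      · have := R.uniq (i := i) (k := 3) h2
        subst this
        exact List.mem_cons_of_mem _ (List.mem_cons_self ..)
    · intro h1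
      change u ∈ [(i, 2), (i, 3)] at h1
      simp only [List.mem_cons, List.not_mem_nil, or_false] at h1
      rcases h1 with rfl | rfl
      · exact inc_of_st ((R.f2 i).xy _ (R.ek (i, 2)))
      · exact inc_of_st ((R.f2 i).xz _ (R.ek (i, 3)))
  · constructor
    · intro h1
      rcases (R.f3 i).all _ h1 with h2 | h2 | h2
      · have := R.uniq (i := i) (k := 3) h2
        subst this
        exact List.mem_cons_self ..
      · exact absurd h2 (R.not_ring (hrc _) (hrm _))
      · have := R.uniq (i := i) (k := 4) h2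
        subst this
        exact List.mem_cons_of_mem _ (List.mem_cons_self ..)
    · intro h1
      change u ∈ [(i, 3), (i, 4)] at h1
      simp only [List.mem_cons, List.not_mem_nil, or_false] at h1
      rcases h1 with rfl | rfl
      · exact inc_of_st ((R.f3 i).xy _ (R.ek (i, 3)))
      · exact inc_of_st ((R.f3 i).xz _ (R.ek (i, 4)))

theorem fK_inj (R : Rep H c h rc rm a b eK gR fK) : Function.Injective fK := by
  intro s t hst
  apply tab_inj
  intro u
  rw [← R.inc_iff, ← R.inc_iff, hst]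

theorem FK_iff (R : Rep H c h rc rm a b eK gR fK) (f : F) : FK a b (HK c h) f ↔ ∃ t, f = fK t := by
  constructor
  · rintro ⟨e, he, hf⟩
    obtain ⟨u, rfl⟩ := (R.EK_iff e).1 he
    obtain ⟨s, t, hst, hs, ht⟩ := tab_two u
    have h1 := (R.inc_iff s u).2 hs
    have h2 := (R.inc_iff t u).2 ht
    have h3 : fK s ≠ fK t := fun h => hst (R.fK_inj h)
    rcases hf with hf | hf <;> rcases h1 with h1 | h1 <;> rcases h2 with h2 | h2
    · exact ⟨s, hf.symm.trans h1⟩
    · exact ⟨s, hf.symm.trans h1⟩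
    · exact ⟨t, hf.symm.trans h2⟩
    · exact absurd (h1.symm.trans h2) h3
    · exact absurd (h1.symm.trans h2) h3
    · exact ⟨t, hf.symm.trans h2⟩
    · exact ⟨s, hf.symm.trans h1⟩
    · exact ⟨s, hf.symm.trans h1⟩
  · rintro ⟨t, rfl⟩
    have : ∃ u, u ∈ tab t := by
      revert t; decide
    obtain ⟨u, hu⟩ := this
    exact ⟨eK u, (R.EK_iff _).2 ⟨u, rfl⟩, (R.inc_iff t u).2 hu⟩

theorem card_F (R : Rep H c h rc rm a b eK gR fK) :
    Nat.card {f : F // FK a b (HK c h) f} = 24 := by
  have e : ZMod 6 × Fin 4 ≃ {f : F // FK a b (HK c h) f} :=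
    Equiv.ofBijective (fun t => ⟨fK t, (R.FK_iff _).2 ⟨t, rfl⟩⟩) (by
      constructor
      · intro s t hst
        exact R.fK_inj (congrArg Subtype.val hst)
      · rintro ⟨f, hf⟩
        obtain ⟨t, rfl⟩ := (R.FK_iff f).1 hf
        exact ⟨t, rfl⟩)
  rw [← Nat.card_congr e, Nat.card_eq_fintype_card]
  decide

theorem card_E (R : Rep H c h rc rm a b eK gR fK) :
    Nat.card {e : E // EK a (HK c h) e} = 30 := by
  have e : ZMod 6 × Fin 5 ≃ {e : E // EK a (HK c h) e} :=
    Equiv.ofBijective (fun t => ⟨eK t, (R.EK_iff _).2 ⟨t, rfl⟩⟩) (by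
      constructor
      · intro s t hst
        exact R.eK_inj (congrArg Subtype.val hst)
      · rintro ⟨f, hf⟩
        obtain ⟨t, rfl⟩ := (R.EK_iff f).1 hf
        exact ⟨t, rfl⟩)
  rw [← Nat.card_congr e, Nat.card_eq_fintype_card]
  decide

end Rep

theorem Hex.card_K {H : SimpleGraph V} {c : V} {h rc rm : ZMod 6 → V} (X : Hex H c h rc rm) :
    Nat.card {v : V // HK c h v} = 7 := by
  have e : Option (ZMod 6) ≃ {v : V // HK c h v} :=
    Equiv.ofBijective (fun t => match t with
      | none => ⟨c, Or.inl rfl⟩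
      | some i => ⟨h i, Or.inr ⟨i, rfl⟩⟩) (by
      constructor
      · rintro (_ | i) (_ | j) hst
        · rfl
        · exact absurd (congrArg Subtype.val hst).symm (X.hc j)
        · exact absurd (congrArg Subtype.val hst) (X.hc i)
        · rw [X.hinj (congrArg Subtype.val hst)]
      · rintro ⟨v, hv | ⟨i, hi⟩⟩
        · exact ⟨none, Subtype.ext hv.symm⟩
        · exact ⟨some i, Subtype.ext hi.symm⟩)
  rw [← Nat.card_congr e, Nat.card_eq_fintype_card]
  decide

namespace Rep

variable [Fintype V] [Fintype F] [Fintype E] {H : SimpleGraph V} {c : V}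
  {h rc rm : ZMod 6 → V} {a : E → V × V} {b : E → F × F} {eK : ZMod 6 × Fin 5 → E}
  {gR : ZMod 6 × Bool → E} {fK : ZMod 6 × Fin 4 → F}

omit [Fintype V] in
theorem rc_not (X : Hex H c h rc rm) (i : ZMod 6) : ¬ HK c h (rc i) := by
  rintro (h1 | ⟨j, h1⟩)
  · exact X.rcc i h1
  · exact X.rch i j h1

omit [Fintype V] in
theorem rm_not (X : Hex H c h rc rm) (i : ZMod 6) : ¬ HK c h (rm i) := by
  rintro (h1 | ⟨j, h1⟩)
  · exact X.rmc i h1
  · exact X.rmh i j h1

omit [Fintype V] [Fintype E] in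
theorem ek_of_jn {x y : V} {e : E} (hj : Jn a x y e) (hx : HK c h x) : EK a (HK c h) e := by
  rcases hj with ⟨h1, h2⟩ | ⟨h1, h2⟩
  · left; rw [h1]; exact hx
  · right; rw [h2]; exact hx

omit [Fintype V] [Fintype E] in
theorem not_ek_of_jn {x y : V} {e : E} (hj : Jn a x y e) (hx : ¬ HK c h x) (hy : ¬ HK c h y) :
    ¬ EK a (HK c h) e := by
  rcases hj with ⟨h1, h2⟩ | ⟨h1, h2⟩
  · rintro (h3 | h3)
    · rw [h1] at h3; exact hx h3
    · rw [h2] at h3; exact hy h3
  · rintro (h3 | h3)
    · rw [h1] at h3; exact hy h3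
    · rw [h2] at h3; exact hx h3

theorem gR_not (R : Rep H c h rc rm a b eK gR fK) (r : ZMod 6 × Bool) :
    ¬ EK a (HK c h) (gR r) := by
  obtain ⟨i, _ | _⟩ := r
  · exact not_ek_of_jn (R.g0 i) (rc_not R.X i) (rm_not R.X i)
  · exact not_ek_of_jn (R.g1 i) (rm_not R.X i) (rc_not R.X (i + 1))

theorem incR (R : Rep H c h rc rm a b eK gR fK) {t : ZMod 6 × Fin 4} {e : E}
    (h1 : Inc b (fK t) e) (h2 : ¬ EK a (HK c h) e) : ∃ r, t = fR r ∧ e = gR r := by
  obtain ⟨i, k⟩ := t
  have hh : ∀ i, HK c h (h i) := fun i => Or.inr ⟨i, rfl⟩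
  fin_cases k
  · exfalso
    rcases (R.f0 i).all _ h1 with h3 | h3 | h3
    · exact h2 (ek_of_jn h3 (hh _))
    · exact h2 (ek_of_jn h3.symm (hh _))
    · exact h2 (ek_of_jn h3 (hh _))
  · exfalso
    rcases (R.f1 i).all _ h1 with h3 | h3 | h3
    · exact h2 (ek_of_jn h3 (hh _))
    · exact h2 (ek_of_jn h3 (hh _))
    · exact h2 (ek_of_jn h3 (hh _))
  · rcases (R.f2 i).all _ h1 with h3 | h3 | h3
    · exact absurd (ek_of_jn h3 (hh _)) h2
    · refine ⟨(i - 1, true), ?_, ?_⟩
      · show (i, (2 : Fin 4)) = (i - 1 + 1, 2)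
        rw [sub_add_cancel]
      · apply h3.unique R.simp
        have := R.g1 (i - 1)
        rw [sub_add_cancel] at this
        exact this
    · exact absurd (ek_of_jn h3 (hh _)) h2
  · rcases (R.f3 i).all _ h1 with h3 | h3 | h3
    · exact absurd (ek_of_jn h3 (hh _)) h2
    · exact ⟨(i, false), rfl, h3.unique R.simp (R.g0 i)⟩
    · exact absurd (ek_of_jn h3 (hh _)) h2

theorem st_gR (R : Rep H c h rc rm a b eK gR fK) (r : ZMod 6 × Bool) :
    st b (fK (fR r)) (gR r) ≠ 0 := by
  obtain ⟨i, _ | _⟩ := r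
  · exact (R.f3 i).yz _ (R.g0 i)
  · have := (R.f2 (i + 1)).yz (gR (i, true)) (by
      rw [add_sub_cancel_right]; exact R.g1 i)
    exact this

/-- The side of a ring edge. -/
theorem exists_sd (R : Rep H c h rc rm a b eK gR fK) (r : ZMod 6 × Bool) :
    ∃ s, sf b (gR r, s) = fK (fR r) ∧ ∀ s', sf b (gR r, s') = fK (fR r) → s' = s := by
  have h1 := R.st_gR r
  have h2 := inc_of_st h1
  have h3 : (b (gR r)).1 ≠ (b (gR r)).2 := by
    intro h4
    apply h1
    unfold st
    rw [h4, z2_add_self]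
  rcases h2 with h2 | h2
  · refine ⟨false, h2, ?_⟩
    rintro (_ | _) h4
    · rfl
    · exact absurd (h2.trans h4.symm) h3
  · refine ⟨true, h2, ?_⟩
    rintro (_ | _) h4
    · exact absurd (h4.trans h2.symm) h3
    · rfl

/-- Connectedness of the rest. -/
theorem conn_rest (R : Rep H c h rc rm a b eK gR fK) (x y : V) (hx : ¬ HK c h x)
    (hy : ¬ HK c h y) : Relation.ReflTransGen (LkOn a (fun e => ¬ EK a (HK c h) e)) x y := by
  set Q := LkOn a (fun e => ¬ EK a (HK c h) e) with hQ
  have hs : ∀ {x y}, Relation.ReflTransGen Q x y → Relation.ReflTransGen Q y x :=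
    fun h => rtg_symm (fun _ _ h => h.symm) h
  have s0 : ∀ i, Q (rc i) (rm i) := fun i => ⟨gR (i, false), R.gR_not _, R.g0 i⟩
  have s1 : ∀ i, Q (rm i) (rc (i + 1)) := fun i => ⟨gR (i, true), R.gR_not _, R.g1 i⟩
  have hn : ∀ n : ℕ, Relation.ReflTransGen Q (rc 0) (rc (n : ZMod 6)) := by
    intro n
    induction n with
    | zero => rw [Nat.cast_zero]
    | succ n ih =>
      rw [Nat.cast_succ]
      exact (ih.tail (s0 _)).tail (s1 _)
  have hrc : ∀ i, Relation.ReflTransGen Q (rc 0) (rc i) := by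
    intro i
    have := hn i.val
    rw [ZMod.natCast_val, ZMod.cast_id] at this
    exact this
  have hrm : ∀ i, Relation.ReflTransGen Q (rc 0) (rm i) := fun i => (hrc i).tail (s0 i)
  have hstay : ∀ {p z}, Relation.ReflTransGen Q p z → ¬ HK c h p → ¬ HK c h z := by
    intro p z hpz hp
    induction hpz with
    | refl => exact hp
    | tail _ h2 _ =>
      obtain ⟨e, he, he'⟩ := h2
      intro h3
      exact he (ek_of_jn (Jn.symm he') h3)
  have key : ∀ p, ¬ HK c h p → Relation.ReflTransGen Q (rc 0) p := by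
    intro p hp
    obtain ⟨u, w, ⟨e, he⟩, h1, h2⟩ := exists_step_ne
      (p := fun z => Relation.ReflTransGen Q p z) (R.pl.conn p c) Relation.ReflTransGen.refl
      (fun h3 => hstay h3 hp (Or.inl rfl))
    have he : Jn a u w e := he
    have hu : ¬ HK c h u := hstay h1 hp
    have hek : EK a (HK c h) e := by
      by_contra h3
      exact h2 (Relation.ReflTransGen.tail h1 ⟨e, h3, he⟩)
    have hw : HK c h w := by
      by_contra h3
      exact not_ek_of_jn he hu h3 hek
    have hadj : H.Adj w u := by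
      have := R.adj e
      rcases he with ⟨h3, h4⟩ | ⟨h3, h4⟩
      · rw [h3, h4] at this; exact this.symm
      · rw [h3, h4] at this; exact this
    have hur : Relation.ReflTransGen Q (rc 0) u := by
      rcases hw with rfl | ⟨i, rfl⟩
      · obtain ⟨i, hi⟩ := (R.X.nc u).1 hadj
        exact absurd (Or.inr ⟨i, hi⟩) hu
      · rcases (R.X.nh i u).1 hadj with h3 | h3 | h3 | h3 | h3 | h3
        · exact absurd (Or.inl h3) hu
        · exact absurd (Or.inr ⟨_, h3⟩) hu
        · exact absurd (Or.inr ⟨_, h3⟩) hu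
        · rw [h3]; exact hrm _
        · rw [h3]; exact hrc _
        · rw [h3]; exact hrm _
    exact hur.trans (hs h1)
  exact (hs (key x hx)).trans (key y hy)

end Rep

/-- The ring of the window. -/
def ringL {C : Type} (rc rm : ZMod 6 → C) : List C :=
  [rc 0, rm 0, rc 1, rm 1, rc 2, rm 2, rc 3, rm 3, rc 4, rm 4, rc 5, rm 5]

theorem ringL_map {C D : Type} (g : C → D) (rc rm : ZMod 6 → C) :
    (ringL rc rm).map g = ringL (g ∘ rc) (g ∘ rm) := rfl

/-- The indices of the ring edges. -/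
def rix : List (ZMod 6 × Bool) :=
  [(0, false), (0, true), (1, false), (1, true), (2, false), (2, true), (3, false), (3, true),
    (4, false), (4, true), (5, false), (5, true)]

theorem rix_nodup : rix.Nodup := by decide

theorem mem_rix : ∀ r, r ∈ rix := by decide

section word

variable {V' E' : Type} (R0 R1 : ZMod 6 → V') (G : ZMod 6 × Bool → E' × Bool)

/-- One sixth of the ring. -/
def wd (i : ZMod 6) : List (Tok V' E') :=
  [Sum.inl (R0 i), Sum.inr (G (i, false), R1 i), Sum.inl (R1 i), Sum.inr (G (i, true), R0 (i + 1))]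

/-- The ring. -/
def wring : List (Tok V' E') :=
  wd R0 R1 G 0 ++ (wd R0 R1 G 1 ++ (wd R0 R1 G 2 ++ (wd R0 R1 G 3 ++ (wd R0 R1 G 4 ++
    wd R0 R1 G 5))))

theorem sides_wring : sides (wring R0 R1 G) = rix.map G := rfl

theorem marks_wring : marks (wring R0 R1 G) = ringL R0 R1 := rfl

variable {R0 R1 G}

theorem path_wd {a : E' → V' × V'} (h0 : ∀ i, Jn a (R0 i) (R1 i) (G (i, false)).1)
    (h1 : ∀ i, Jn a (R1 i) (R0 (i + 1)) (G (i, true)).1) (i : ZMod 6) :
    Path a (R0 i) (wd R0 R1 G i) (R0 (i + 1)) :=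
  ⟨rfl, h0 i, rfl, h1 i, rfl⟩

theorem path_wring {a : E' → V' × V'} (h0 : ∀ i, Jn a (R0 i) (R1 i) (G (i, false)).1)
    (h1 : ∀ i, Jn a (R1 i) (R0 (i + 1)) (G (i, true)).1) :
    Path a (R0 0) (wring R0 R1 G) (R0 0) := by
  unfold wring
  have hp := path_wd h0 h1
  exact (path_append _ _ _ _ _).2 ⟨_, hp 0, (path_append _ _ _ _ _).2 ⟨_, hp 1,
    (path_append _ _ _ _ _).2 ⟨_, hp 2, (path_append _ _ _ _ _).2 ⟨_, hp 3,
    (path_append _ _ _ _ _).2 ⟨_, hp 4, hp 5⟩⟩⟩⟩⟩

end word

end Pool.Agent.Helper1.PG
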