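import Mathlib
import Pool.Agent.Helper1.PG.Hex

/-!
Nonnegativity of all fillings of the ring of a hexagonal window.
-/

set_option autoImplicit false

namespace Pool.Agent.Helper1.PG

open Pool.Agent.Helper36.BL (cp cnt cols cp_eval mem_cols IsMinor)
open Polynomial

variable {V F E : Type}

/-- No triangle with a vertex in the window separates. -/
def NoSep (H : SimpleGraph V) (K : V → Prop) : Prop :=
  ∀ x y z, K x → H.Adj x y → H.Adj y z → H.Adj x z →
    ∀ p r, (∃ p', H.Adj p p') → (∃ r', H.Adj r r') → (p ≠ x ∧ p ≠ y ∧ p ≠ z) →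
      (r ≠ x ∧ r ≠ y ∧ r ≠ z) →
      Relation.ReflTransGen (fun s t => H.Adj s t ∧ (s ≠ x ∧ s ≠ y ∧ s ≠ z) ∧
        (t ≠ x ∧ t ≠ y ∧ t ≠ z)) p r

theorem Hex.exists_rep [Fintype V] {H : SimpleGraph V} {c : V} {h rc rm : ZMod 6 → V}
    (X : Hex H c h rc rm) (hPl : Pl H) (hH : ∀ p r, Relation.ReflTransGen H.Adj p r)
    (hsep : NoSep H (HK c h)) :
    ∃ (F E : Type) (_ : Fintype F) (_ : Fintype E) (a : E → V × V) (b : E → F × F)
      (eK : ZMod 6 × Fin 5 → E) (gR : ZMod 6 × Bool → E) (fK : ZMod 6 × Fin 4 → F),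
      Rep H c h rc rm a b eK gR fK := by
  classical
  have : Nonempty V := ⟨c⟩
  obtain ⟨F0, E0, i1, i2, a0, b0, hp0, hl0⟩ := hPl.exists_spanning
  obtain ⟨F, E, i3, i4, a, b, hp, hs, hl, hQ⟩ := IsPl.exists_simple H.Adj (fun u v => by
      have := hH u v
      induction this with
      | refl => exact Relation.ReflTransGen.refl
      | tail _ h2 ih => exact ih.tail (Or.inl h2))
    (Fintype.card E0) F0 E0 a0 b0 rfl hp0 (fun u v huv _ => hl0 u v huv)
  have hadj : ∀ e, H.Adj (a e).1 (a e).2 := by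
    intro e
    rcases hQ e with h1 | h1
    · exact h1
    · exact h1.symm
  have hlk : ∀ u v, H.Adj u v → ∃ e, Jn a u v e := by
    intro u v huv
    obtain ⟨e, he⟩ := hl u v huv huv.ne
    exact ⟨e, he⟩
  have h1 : ∀ t : ZMod 6 × Fin 5, ∃ e, Jn a (h t.1) (nb c h rc rm t.1 t.2) e :=
    fun t => hlk _ _ (X.adj_nb t.1 t.2)
  choose eK heK using h1
  have h2 : ∀ r : ZMod 6 × Bool, ∃ e, if r.2 then Jn a (rm r.1) (rc (r.1 + 1)) e else
      Jn a (rc r.1) (rm r.1) e := by
    rintro ⟨i, _ | _⟩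
    · exact hlk _ _ (X.a1 i)
    · exact hlk _ _ (X.a2 i)
  choose gR hgR using h2
  -- triangles
  have htri : ∀ i y z, H.Adj (h i) y → H.Adj y z → H.Adj (h i) z → ∃ f, TF a b f (h i) y z := by
    intro i y z hy hyz hz
    obtain ⟨e1, he1⟩ := hlk _ _ hy
    obtain ⟨e2, he2⟩ := hlk _ _ hyz
    obtain ⟨e3, he3⟩ := hlk _ _ hz
    refine hp.tri_face hs hy.ne hyz.ne hz.ne he1 he2 he3 ?_ ?_
    · intro p r hp' hr
      have hnp : ∀ p, (p ≠ h i ∧ p ≠ y ∧ p ≠ z) → ∃ p', H.Adj p p' := by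
        intro p hp1
        obtain ⟨u, w, h4, h5, _⟩ := exists_step_ne (p := fun v => v = p) (hH p (h i)) rfl
          (Ne.symm hp1.1)
        exact ⟨w, h5 ▸ h4⟩
      have h3 := hsep (h i) y z (Or.inr ⟨i, rfl⟩) hy hyz hz p r (hnp p hp') (hnp r hr) hp' hr
      clear hp' hr
      induction h3 with
      | refl => exact Relation.ReflTransGen.refl
      | @tail s t _ h4 ih =>
        obtain ⟨e, he⟩ := hlk s t h4.1
        refine ih.tail ⟨e, ?_, he⟩
        have key : ∀ v, s ≠ v → t ≠ v → ¬ Inc a v e := by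
          intro v hv1 hv2 hv
          rcases he with ⟨h5, h6⟩ | ⟨h5, h6⟩ <;> rcases hv with h7 | h7
          · exact hv1 (h5.symm.trans h7)
          · exact hv2 (h6.symm.trans h7)
          · exact hv2 (h5.symm.trans h7)
          · exact hv1 (h6.symm.trans h7)
        exact ⟨key _ h4.2.1.1 h4.2.2.1, key _ h4.2.1.2.1 h4.2.2.2.1,
          key _ h4.2.1.2.2 h4.2.2.2.2⟩
    · by_contra hno
      push Not at hno
      have h4 : (Finset.univ.image h) ⊆ ({h i, y, z} : Finset V) := by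
        intro v _
        by_cases h5 : v = h i
        · simp [h5]
        · by_cases h6 : v = y
          · simp [h6]
          · simp [hno v h5 h6]
      have h5 := Finset.card_le_card h4
      rw [Finset.card_image_of_injective _ X.hinj, Finset.card_univ, ZMod.card] at h5
      have h6 := Finset.card_le_three (a := h i) (b := y) (c := z)
      omega
  have hrm : ∀ i, H.Adj (rm (i - 1)) (rc i) := by
    intro i
    have := X.a2 (i - 1)
    rw [sub_add_cancel] at this
    exact this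
  have hhrm : ∀ i, H.Adj (h (i + 1)) (rm i) := by
    intro i
    have := X.adj_nb (i + 1) 2
    change H.Adj (h (i + 1)) (rm (i + 1 - 1)) at this
    rw [add_sub_cancel_right] at this
    exact this
  choose F0' hF0 using fun i => htri i c (h (i + 1)) (X.adj_nb i 0) ((X.nc _).2 ⟨_, rfl⟩)
    (X.adj_nb i 1)
  choose F1' hF1 using fun i => htri i (h (i + 1)) (rm i) (X.adj_nb i 1) (hhrm i) (X.adj_nb i 4)
  choose F2' hF2 using fun i => htri i (rm (i - 1)) (rc i) (X.adj_nb i 2) (hrm i) (X.adj_nb i 3)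
  choose F3' hF3 using fun i => htri i (rc i) (rm i) (X.adj_nb i 3) (X.a1 i) (X.adj_nb i 4)
  refine ⟨F, E, i3, i4, a, b, eK, gR, fun t => (![F0', F1', F2', F3'] t.2) t.1, X, hp, hs, hadj,
    hlk, heK, fun i => hgR (i, false), fun i => hgR (i, true), hF0, hF1, hF2, hF3⟩

open scoped Classical in
/-- The weighted number of colourings off `K`. -/
noncomputable def wsum [Fintype V] (H : SimpleGraph V) (K : V → Prop) (l : List V) (T : Fill)
    (n : ℕ) : ℕ :=
  ∑ c : V → Fin n, if (∀ u v, H.Adj u v → ¬ K u → ¬ K v → c u ≠ c v) then T.val (l.map c) else 0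

theorem sum_comp_inj {O : Type} [Fintype O] [Fintype V] (g : O → V)
    (hg : Function.Injective g) (n : ℕ) [Fintype (V → Fin n)] [Fintype (O → Fin n)]
    (f : (O → Fin n) → ℕ) :
    ∑ c : V → Fin n, f (c ∘ g) =
      n ^ (Fintype.card V - Fintype.card O) * ∑ c : O → Fin n, f c := by
  classical
  rw [← Finset.sum_fiberwise_of_maps_to (s := Finset.univ) (t := Finset.univ)
    (g := fun c : V → Fin n => c ∘ g) (fun _ _ => Finset.mem_univ _), Finset.mul_sum]
  apply Finset.sum_congr rfl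
  intro c' _
  have h1 : ∑ c ∈ Finset.univ.filter (fun c : V → Fin n => c ∘ g = c'), f (c ∘ g) =
      ∑ c ∈ Finset.univ.filter (fun c : V → Fin n => c ∘ g = c'), f c' := by
    apply Finset.sum_congr rfl
    intro c hc
    rw [(Finset.mem_filter.1 hc).2]
  rw [h1, Finset.sum_const, smul_eq_mul]
  congr 1
  have e : {c : V → Fin n // c ∘ g = c'} ≃ ({v : V // v ∉ Set.range g} → Fin n) :=
    { toFun := fun c v => c.1 v.1
      invFun := fun d => ⟨fun v => if hv : v ∈ Set.range g then c' hv.choose else d ⟨v, hv⟩, by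
        funext o
        have hv : g o ∈ Set.range g := ⟨o, rfl⟩
        show (if hv : g o ∈ Set.range g then c' hv.choose else d ⟨g o, hv⟩) = c' o
        rw [dif_pos hv, hg hv.choose_spec]⟩
      left_inv := by
        rintro ⟨c, hc⟩
        apply Subtype.ext
        funext v
        by_cases hv : v ∈ Set.range g
        · show (if hv : v ∈ Set.range g then c' hv.choose else c v) = c v
          rw [dif_pos hv, ← hc]
          show c (g hv.choose) = c v
          rw [hv.choose_spec]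
        · show (if hv : v ∈ Set.range g then c' hv.choose else c v) = c v
          rw [dif_neg hv]
      right_inv := by
        intro d
        funext v
        show (if hv : v.1 ∈ Set.range g then c' hv.choose else d ⟨v.1, hv⟩) = d v
        rw [dif_neg v.2] }
  have h2 : (Finset.univ.filter (fun c : V → Fin n => c ∘ g = c')).card =
      Fintype.card {c : V → Fin n // c ∘ g = c'} := by
    rw [Fintype.card_subtype]
  rw [h2, Fintype.card_congr e, Fintype.card_fun, Fintype.card_fin]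
  congr 1
  have h3 : Fintype.card {v : V // v ∉ Set.range g} =
      Fintype.card V - Fintype.card {v : V // v ∈ Set.range g} :=
    Fintype.card_subtype_compl (fun v => v ∈ Set.range g)
  rw [h3]
  congr 1
  exact (Fintype.card_congr (Equiv.ofInjective g hg)).symm

theorem wsum_inj {O : Type} [Fintype O] [Fintype V] (H : SimpleGraph V) (K : V → Prop)
    (g : O → V) (hg : Function.Injective g)
    (hr : ∀ u v, H.Adj u v → ¬ K u → ¬ K v → ∃ o, g o = u) (l : List O) (T : Fill) (n : ℕ) :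
    wsum H K (l.map g) T n = n ^ (Fintype.card V - Fintype.card O) *
      wsum (H.comap g) (fun o => K (g o)) l T n := by
  classical
  unfold wsum
  rw [← sum_comp_inj g hg]
  apply Finset.sum_congr rfl
  intro c _
  have h1 : (∀ u v, H.Adj u v → ¬ K u → ¬ K v → c u ≠ c v) ↔
      (∀ u v, (H.comap g).Adj u v → ¬ K (g u) → ¬ K (g v) → (c ∘ g) u ≠ (c ∘ g) v) := by
    constructor
    · intro h u v huv hu hv
      exact h _ _ huv hu hv
    · intro h u v huv hu hv
      obtain ⟨o, rfl⟩ := hr u v huv hu hv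
      obtain ⟨o', rfl⟩ := hr v (g o) huv.symm hv hu
      exact h o o' huv hu hv
  rw [List.map_map]
  by_cases h2 : ∀ u v, H.Adj u v → ¬ K u → ¬ K v → c u ≠ c v
  · rw [if_pos h2, if_pos (h1.1 h2)]
  · rw [if_neg h2, if_neg (fun h3 => h2 (h1.2 h3))]

/-- The connected case. -/
theorem Hex.nonneg_conn [Fintype V] {H : SimpleGraph V} {c : V} {h rc rm : ZMod 6 → V}
    (X : Hex H c h rc rm) (hPl : Pl H) (hH : ∀ p r, Relation.ReflTransGen H.Adj p r)
    (hsep : NoSep H (HK c h)) {q : ℝ} (hq : 0 ≤ q)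
    (hyp : ∀ (W : Type) [Fintype W] (Y : SimpleGraph W), Pl Y →
      Fintype.card W < Fintype.card V → 0 ≤ (cp Y).eval q) (T : Fill) :
    ∃ p : ℝ[X], (∀ n : ℕ, p.eval (n : ℝ) = (wsum H (HK c h) (ringL rc rm) T n : ℝ)) ∧
      0 ≤ p.eval q := by
  classical
  obtain ⟨F, E, i3, i4, a, b, eK, gR, fK, R⟩ := X.exists_rep hPl hH hsep
  choose sd hsd1 hsd2 using R.exists_sd
  set R0 : ZMod 6 → {v : V // ¬ HK c h v} := fun i => ⟨rc i, Rep.rc_not X i⟩ with hR0
  set R1 : ZMod 6 → {v : V // ¬ HK c h v} := fun i => ⟨rm i, Rep.rm_not X i⟩ with hR1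
  set G : ZMod 6 × Bool → {e : E // ¬ EK a (HK c h) e} × Bool :=
    fun r => (⟨gR r, R.gR_not r⟩, sd r) with hG
  have hjn : ∀ {x y : {v : V // ¬ HK c h v}} {e : {e : E // ¬ EK a (HK c h) e}},
      Jn a x.1 y.1 e.1 → Jn (remA a (HK c h)) x y e := by
    intro x y e hj
    rcases hj with ⟨h1, h2⟩ | ⟨h1, h2⟩
    · exact Or.inl ⟨Subtype.ext h1, Subtype.ext h2⟩
    · exact Or.inr ⟨Subtype.ext h1, Subtype.ext h2⟩
  have hpath : Path (remA a (HK c h)) (R0 0) (wring R0 R1 G) (R0 0) :=
    path_wring (fun i => hjn (R.g0 i)) (fun i => hjn (R.g1 i))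
  obtain ⟨hpl, htrk⟩ := R.pl.remove (HK c h) (by rw [R.card_F, R.card_E, X.card_K]) R.conn_rest
    ⟨fK (0, 0), (R.FK_iff _).2 ⟨_, rfl⟩⟩ hpath (by
      rw [sides_wring]
      apply rix_nodup.map
      intro r s hrs
      apply fR_inj
      apply R.fK_inj
      have h1 : gR r = gR s := congrArg (fun z => z.1.1) hrs
      have h2 : sd r = sd s := congrArg (fun z => z.2) hrs
      rw [← hsd1 r, ← hsd1 s, h1, h2]) (by
      intro s
      rw [sides_wring, List.mem_map]
      constructor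
      · rintro ⟨r, _, rfl⟩
        exact (R.FK_iff _).2 ⟨fR r, hsd1 r⟩
      · intro h1
        obtain ⟨t, ht⟩ := (R.FK_iff _).1 h1
        have h2 : Inc b (fK t) s.1.1 := by
          rw [← ht]
          unfold sf
          split_ifs
          · exact Or.inr rfl
          · exact Or.inl rfl
        obtain ⟨r, hr, hr'⟩ := R.incR h2 s.1.2
        refine ⟨r, mem_rix r, ?_⟩
        have h3 : s.2 = sd r := by
          apply hsd2 r
          rw [← hr', ht, hr]
        exact Prod.ext (Subtype.ext hr'.symm) h3.symm)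
  have hcard : Fintype.card {v : V // ¬ HK c h v} < Fintype.card V :=
    Fintype.card_subtype_lt (x := c) (fun h1 => h1 (Or.inl rfl))
  obtain ⟨p, hp1, hp2⟩ := fills_nonneg (q := q) (N := Fintype.card {v : V // ¬ HK c h v})
    (fun W _ Y hY hW => hyp W Y hY (lt_of_le_of_lt hW hcard)) _ {v : V // ¬ HK c h v} _ _
    (remA a (HK c h)) (remB a b (HK c h)) (H.comap Subtype.val)
    [⟨none, R0 0, wring R0 R1 G, T⟩] rfl hpl (by
      intro u v huv
      have huv' : H.Adj u.1 v.1 := huv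
      obtain ⟨e, he⟩ := R.lk _ _ huv'
      have hek := Rep.not_ek_of_jn (c := c) (h := h) he u.2 v.2
      exact ⟨⟨e, hek⟩, hjn (e := ⟨e, hek⟩) he⟩) le_rfl (by simp) (by
      intro t ht
      rw [List.mem_singleton] at ht
      subst ht
      exact htrk)
  refine ⟨Polynomial.X ^ (Fintype.card V - Fintype.card {v : V // ¬ HK c h v}) * p, ?_, ?_⟩
  · intro n
    rw [eval_mul, eval_pow, eval_X, hp1 n]
    have h1 := wsum_inj H (HK c h) (Subtype.val : {v : V // ¬ HK c h v} → V)
      Subtype.val_injective (fun u v _ hu _ => ⟨⟨u, hu⟩, rfl⟩) (ringL R0 R1) T n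
    have h2 : (ringL R0 R1).map Subtype.val = ringL rc rm := rfl
    rw [h2] at h1
    rw [h1, Nat.cast_mul, Nat.cast_pow]
    congr 2
    rw [wcnt_eq]
    unfold wsum
    apply Finset.sum_congr rfl
    intro c' _
    have h3 : (∀ u v : {v : V // ¬ HK c h v}, (H.comap Subtype.val).Adj u v →
        ¬ HK c h u.1 → ¬ HK c h v.1 → c' u ≠ c' v) ↔ Prp (H.comap Subtype.val) c' :=
      ⟨fun h4 u v huv => h4 u v huv u.2 v.2, fun h4 u v huv _ _ => h4 u v huv⟩
    have h4 : wt ([⟨none, R0 0, wring R0 R1 G, T⟩] : List (Task {v : V // ¬ HK c h v}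
        (Option {f : F // ¬ FK a b (HK c h) f}) {e : E // ¬ EK a (HK c h) e})) c' =
        T.val ((ringL R0 R1).map c') := by
      rw [wt_cons]
      show T.val ((marks (wring R0 R1 G)).map c') * 1 = _
      rw [mul_one, marks_wring]
    rw [h4]
    by_cases h5 : Prp (H.comap Subtype.val) c'
    · rw [if_pos h5, if_pos (h3.2 h5)]
    · rw [if_neg h5, if_neg (fun h6 => h5 (h3.1 h6))]
  · rw [eval_mul, eval_pow, eval_X]
    exact mul_nonneg (pow_nonneg hq _) hp2

/-- The window in the graph of the vertices which are not isolated. -/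
theorem Hex.restrict {H : SimpleGraph V} {c : V} {h rc rm : ZMod 6 → V}
    (X : Hex H c h rc rm) :
    Hex (H.comap (Subtype.val : {x : V // ∃ y, H.Adj x y} → V)) ⟨c, h 0, (X.nc _).2 ⟨0, rfl⟩⟩
      (fun i => ⟨h i, c, ((X.nc _).2 ⟨i, rfl⟩).symm⟩) (fun i => ⟨rc i, rm i, X.a1 i⟩)
      (fun i => ⟨rm i, rc (i + 1), X.a2 i⟩) where
  hinj := fun i j hij => X.hinj (congrArg Subtype.val hij)
  nc := by
    rintro ⟨x, hx⟩
    show H.Adj c x ↔ _
    rw [X.nc]
    exact exists_congr fun i => ⟨fun h => Subtype.ext h, fun h => congrArg Subtype.val h⟩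
  nh := by
    rintro i ⟨x, hx⟩
    show H.Adj (h i) x ↔ _
    rw [X.nh]
    simp only [Subtype.mk.injEq]
  rcc := fun i hi => X.rcc i (congrArg Subtype.val hi)
  rmc := fun i hi => X.rmc i (congrArg Subtype.val hi)
  rch := fun i j hi => X.rch i j (congrArg Subtype.val hi)
  rmh := fun i j hi => X.rmh i j (congrArg Subtype.val hi)
  d1 := fun i hi => X.d1 i (congrArg Subtype.val hi)
  d2 := fun i hi => X.d2 i (congrArg Subtype.val hi)
  d3 := fun i hi => X.d3 i (congrArg Subtype.val hi)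
  a1 := X.a1
  a2 := X.a2

/-- Nonnegativity of all fillings of the ring of a hexagonal window: `wsum` counts the colourings
of all vertices, the vertices of the window being isolated. -/
theorem Hex.nonneg [Fintype V] {H : SimpleGraph V} {c : V} {h rc rm : ZMod 6 → V}
    (X : Hex H c h rc rm) (hPl : Pl H)
    (hH : ∀ p r, (∃ p', H.Adj p p') → (∃ r', H.Adj r r') → Relation.ReflTransGen H.Adj p r)
    (hsep : NoSep H (HK c h)) {q : ℝ} (hq : 0 ≤ q)
    (hyp : ∀ (W : Type) [Fintype W] (Y : SimpleGraph W), Pl Y →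
      Fintype.card W < Fintype.card V → 0 ≤ (cp Y).eval q) (T : Fill) :
    ∃ p : ℝ[X], (∀ n : ℕ, p.eval (n : ℝ) = (wsum H (HK c h) (ringL rc rm) T n : ℝ)) ∧
      0 ≤ p.eval q := by
  classical
  set U := {x : V // ∃ y, H.Adj x y} with hU
  have hlift : ∀ (P : V → Prop) (p r : V) (hp : ∃ y, H.Adj p y) (hr : ∃ y, H.Adj r y),
      Relation.ReflTransGen (fun s t => H.Adj s t ∧ P s ∧ P t) p r →
      Relation.ReflTransGen (fun s t : U => (H.comap Subtype.val).Adj s t ∧ P s.1 ∧ P t.1)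
        ⟨p, hp⟩ ⟨r, hr⟩ := by
    intro P p r hp hr hpr
    induction hpr with
    | refl => exact Relation.ReflTransGen.refl
    | @tail s t _ h2 ih => exact (ih ⟨t, h2.1⟩).tail ⟨h2.1, h2.2⟩
  obtain ⟨p, hp1, hp2⟩ := X.restrict.nonneg_conn (q := q)
    (hPl.minor (IsMinor.of_inj Subtype.val Subtype.val_injective fun _ _ h => h)) (by
      rintro ⟨p, hp⟩ ⟨r, hr⟩
      have h1 := hlift (fun _ => True) p r hp hr (by
        have := hH p r hp hr
        clear hr
        induction this with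
        | refl => exact Relation.ReflTransGen.refl
        | tail _ h2 ih => exact ih.tail ⟨h2, trivial, trivial⟩)
      generalize (⟨r, hr⟩ : U) = r' at h1
      induction h1 with
      | refl => exact Relation.ReflTransGen.refl
      | tail _ h2 ih => exact ih.tail h2.1) (by
      rintro ⟨x, hx⟩ ⟨y, hy⟩ ⟨z, hz⟩ hK hxy hyz hxz ⟨p, hp⟩ ⟨r, hr⟩ _ _ hpx hrx
      have hK' : HK c h x := by
        rcases hK with h1 | ⟨i, h1⟩
        · exact Or.inl (congrArg Subtype.val h1)
        · exact Or.inr ⟨i, congrArg Subtype.val h1⟩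
      have h2 := hsep x y z hK' hxy hyz hxz p r hp hr
        ⟨fun h3 => hpx.1 (Subtype.ext h3), fun h3 => hpx.2.1 (Subtype.ext h3),
          fun h3 => hpx.2.2 (Subtype.ext h3)⟩
        ⟨fun h3 => hrx.1 (Subtype.ext h3), fun h3 => hrx.2.1 (Subtype.ext h3),
          fun h3 => hrx.2.2 (Subtype.ext h3)⟩
      have h4 := hlift (fun s => s ≠ x ∧ s ≠ y ∧ s ≠ z) p r hp hr h2
      have hne : ∀ (s w : U), s.1 ≠ w.1 → s ≠ w := fun s w h5 h6 => h5 (congrArg Subtype.val h6)
      generalize (⟨r, hr⟩ : U) = r' at h4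
      induction h4 with
      | refl => exact Relation.ReflTransGen.refl
      | tail _ h5 ih =>
        exact ih.tail ⟨h5.1, ⟨hne _ _ h5.2.1.1, hne _ _ h5.2.1.2.1, hne _ _ h5.2.1.2.2⟩,
          ⟨hne _ _ h5.2.2.1, hne _ _ h5.2.2.2.1, hne _ _ h5.2.2.2.2⟩⟩) hq
    (fun W _ Y hY hW => hyp W Y hY (lt_of_lt_of_le hW (Fintype.card_subtype_le _))) T
  refine ⟨Polynomial.X ^ (Fintype.card V - Fintype.card U) * p, ?_, ?_⟩
  · intro n
    rw [eval_mul, eval_pow, eval_X, hp1 n]
    have h1 := wsum_inj H (HK c h) (Subtype.val : U → V) Subtype.val_injective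
      (fun u v huv _ _ => ⟨⟨u, v, huv⟩, rfl⟩) (ringL (fun i => ⟨rc i, rm i, X.a1 i⟩)
      (fun i => ⟨rm i, rc (i + 1), X.a2 i⟩)) T n
    have h2 : (ringL (fun i => (⟨rc i, rm i, X.a1 i⟩ : U))
      (fun i => ⟨rm i, rc (i + 1), X.a2 i⟩)).map Subtype.val = ringL rc rm := rfl
    rw [h2] at h1
    rw [h1, Nat.cast_mul, Nat.cast_pow]
    congr 3
    have h3 : ∀ u : U, HK (⟨c, h 0, (X.nc _).2 ⟨0, rfl⟩⟩ : U)
        (fun i => ⟨h i, c, ((X.nc _).2 ⟨i, rfl⟩).symm⟩) u ↔ HK c h u.1 := by
      intro u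
      unfold HK
      exact or_congr ⟨fun h => congrArg Subtype.val h, fun h => Subtype.ext h⟩
        (exists_congr fun i => ⟨fun h => congrArg Subtype.val h, fun h => Subtype.ext h⟩)
    funext u
    exact propext (h3 u)
  · rw [eval_mul, eval_pow, eval_X]
    exact mul_nonneg (pow_nonneg hq _) hp2

end Pool.Agent.Helper1.PG

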