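import Mathlib
import Pool.Agent.Helper1.PG.HexMain
import Pool.Agent.Helper42.U5.Dev

/-!
Hexagonal windows from the developing map of a flat region.
-/

set_option autoImplicit false

namespace Pool.Agent.Helper1.PG

open Pool.Agent.U5 (Lab Loc ex ey)

variable {V : Type}

theorem z6_cases : ∀ i j : ZMod 6, j = i ∨ j = i + 1 ∨ j = i + 2 ∨ j = i + 3 ∨ j = i + 4 ∨
    j = i - 1 := by decide

/-- A hexagonal window from labelled links. -/
theorem Hex.of_lab {H : SimpleGraph V} {c : V} {h rc rm : ZMod 6 → V} {m : ZMod 6 → ZMod 6 → V}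
    (L : Lab H c h) (M : ∀ i, Lab H (h i) (m i)) (m0 : ∀ i, m i i = rc i)
    (m1 : ∀ i, m i (i + 1) = rm i) (m2 : ∀ i, m i (i + 2) = h (i + 1))
    (m3 : ∀ i, m i (i + 3) = c) (m4 : ∀ i, m i (i + 4) = h (i - 1))
    (m5 : ∀ i, m i (i - 1) = rm (i - 1)) : Hex H c h rc rm where
  hinj := L.inj
  nc := L.adj
  nh := by
    intro i x
    rw [(M i).adj]
    constructor
    · rintro ⟨j, rfl⟩
      rcases z6_cases i j with h1 | h1 | h1 | h1 | h1 | h1
      · subst h1; rw [m0]; simp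
      · subst h1; rw [m1]; simp
      · subst h1; rw [m2]; simp
      · subst h1; rw [m3]; simp
      · subst h1; rw [m4]; simp
      · subst h1; rw [m5]; simp
    · rintro (h1 | h1 | h1 | h1 | h1 | h1)
      · exact ⟨_, h1.trans (m3 i).symm⟩
      · exact ⟨_, h1.trans (m4 i).symm⟩
      · exact ⟨_, h1.trans (m2 i).symm⟩
      · exact ⟨_, h1.trans (m5 i).symm⟩
      · exact ⟨_, h1.trans (m0 i).symm⟩
      · exact ⟨_, h1.trans (m1 i).symm⟩
  rcc := by
    intro i hi
    rw [← m0, ← m3 i] at hi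
    exact absurd ((M i).inj hi) ((by decide : ∀ i : ZMod 6, ¬ (i = i + 3)) i)
  rmc := by
    intro i hi
    rw [← m1, ← m3 i] at hi
    exact absurd ((M i).inj hi) ((by decide : ∀ i : ZMod 6, ¬ (i + 1 = i + 3)) i)
  rch := by
    intro i j hi
    have h1 : H.Adj (h i) (h j) := by
      rw [← hi, ← m0]; exact ((M i).adj _).2 ⟨_, rfl⟩
    rcases (L.cyc _ _).1 h1 with h2 | h2
    · subst h2
      rw [← m0, ← m2 i] at hi
      exact absurd ((M i).inj hi) ((by decide : ∀ i : ZMod 6, ¬ (i = i + 2)) i)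
    · subst h2
      rw [← m0, ← m4 i] at hi
      exact absurd ((M i).inj hi) ((by decide : ∀ i : ZMod 6, ¬ (i = i + 4)) i)
  rmh := by
    intro i j hi
    have h1 : H.Adj (h i) (h j) := by
      rw [← hi, ← m1]; exact ((M i).adj _).2 ⟨_, rfl⟩
    rcases (L.cyc _ _).1 h1 with h2 | h2
    · subst h2
      rw [← m1, ← m2 i] at hi
      exact absurd ((M i).inj hi) ((by decide : ∀ i : ZMod 6, ¬ (i + 1 = i + 2)) i)
    · subst h2
      rw [← m1, ← m4 i] at hi
      exact absurd ((M i).inj hi) ((by decide : ∀ i : ZMod 6, ¬ (i + 1 = i + 4)) i)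
  d1 := by
    intro i hi
    rw [← m5, ← m0 i] at hi
    exact absurd ((M i).inj hi) ((by decide : ∀ i : ZMod 6, ¬ (i - 1 = i)) i)
  d2 := by
    intro i hi
    rw [← m0, ← m1 i] at hi
    exact absurd ((M i).inj hi) ((by decide : ∀ i : ZMod 6, ¬ (i = i + 1)) i)
  d3 := by
    intro i hi
    rw [← m5, ← m1 i] at hi
    exact absurd ((M i).inj hi) ((by decide : ∀ i : ZMod 6, ¬ (i - 1 = i + 1)) i)
  a1 := by
    intro i
    rw [← m0, ← m1]
    exact ((M i).cyc _ _).2 (Or.inl rfl)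
  a2 := by
    intro i
    have h1 := m5 (i + 1)
    rw [add_sub_cancel_right] at h1
    rw [← m0, ← h1]
    exact ((M (i + 1)).cyc _ _).2 (Or.inl rfl)

theorem exy : ∀ i : ZMod 6, (ex i + ex (i + 2) = ex (i + 1) ∧ ey i + ey (i + 2) = ey (i + 1)) ∧
    (ex i + ex (i + 3) = 0 ∧ ey i + ey (i + 3) = 0) ∧
    (ex i + ex (i + 4) = ex (i - 1) ∧ ey i + ey (i + 4) = ey (i - 1)) := by
  decide

/-- A hexagonal window from the developing map. -/
theorem Hex.of_loc {H : SimpleGraph V} {φ : ℤ → ℤ → V} {a b : ℤ} (h0 : Loc H φ a b)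
    (h1 : ∀ i, Loc H φ (a + ex i) (b + ey i)) :
    Hex H (φ a b) (fun i => φ (a + ex i) (b + ey i))
      (fun i => φ (a + ex i + ex i) (b + ey i + ey i))
      (fun i => φ (a + ex i + ex (i + 1)) (b + ey i + ey (i + 1))) := by
  refine Hex.of_lab (m := fun i j => φ (a + ex i + ex j) (b + ey i + ey j)) h0 h1
    (fun i => rfl) (fun i => rfl) ?_ ?_ ?_ ?_
  · intro i
    show φ (a + ex i + ex (i + 2)) (b + ey i + ey (i + 2)) = φ (a + ex (i + 1)) (b + ey (i + 1))
    rw [add_assoc, add_assoc, (exy i).1.1, (exy i).1.2]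
  · intro i
    show φ (a + ex i + ex (i + 3)) (b + ey i + ey (i + 3)) = φ a b
    rw [add_assoc, add_assoc, (exy i).2.1.1, (exy i).2.1.2, add_zero, add_zero]
  · intro i
    show φ (a + ex i + ex (i + 4)) (b + ey i + ey (i + 4)) = φ (a + ex (i - 1)) (b + ey (i - 1))
    rw [add_assoc, add_assoc, (exy i).2.2.1, (exy i).2.2.2]
  · intro i
    show φ (a + ex i + ex (i - 1)) (b + ey i + ey (i - 1)) =
      φ (a + ex (i - 1) + ex (i - 1 + 1)) (b + ey (i - 1) + ey (i - 1 + 1))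
    rw [sub_add_cancel, add_assoc, add_assoc, add_assoc, add_assoc, add_comm (ex i),
      add_comm (ey i)]

end Pool.Agent.Helper1.PG
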