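import Mathlib
import Pool.Agent.Helper1.PG.HexLoc
import Pool.Agent.U5.Core
import Pool.Agent.U5.PlIso

/-!
Windows in critical graphs: no triangle at a deep vertex separates.
-/

set_option autoImplicit false

namespace Pool.Agent.Helper1.PG

open Pool.Agent.Helper36.BL (cp cnt cols cp_eval mem_cols IsMinor)
open Pool.Agent.U5 (Data CutFree act plCls P Loc ex ey FlatB)
open Polynomial

variable {V : Type} {B H : SimpleGraph V} {S : Finset V}

/-- Two vertices outside of `S` are joined outside of any subset of `S`. -/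
theorem base_joined (hd : Data B H S) (T : Finset V) (hT : T ⊆ S) {p r : V} (hp : p ∉ S)
    (hr : r ∉ S) :
    Relation.ReflTransGen (fun s t => H.Adj s t ∧ s ∉ T ∧ t ∉ T) p r := by
  obtain ⟨w⟩ := hd.conn.preconnected ⟨p, hp⟩ ⟨r, hr⟩
  have key : ∀ x y : {x | x ∉ S}, (B.induce {x | x ∉ S}).Walk x y →
      Relation.ReflTransGen (fun s t => H.Adj s t ∧ s ∉ T ∧ t ∉ T) x.1 y.1 := by
    intro x y w
    induction w with
    | nil => exact Relation.ReflTransGen.refl
    | @cons x y z hxy _ ih =>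
      exact Relation.ReflTransGen.head ⟨hd.le hxy, fun h => x.2 (hT h), fun h => y.2 (hT h)⟩ ih
  exact key _ _ w

/-- A clique with at most three vertices inside `S` does not separate. -/
theorem clique_joined (hd : Data B H S) (hcut : CutFree 3 H S) (T : Finset V) (hT : T ⊆ S)
    (hc : T.card ≤ 3) (hcl : ∀ x ∈ T, ∀ y ∈ T, x ≠ y → H.Adj x y) {p r : V}
    (hp : ∃ y, H.Adj p y) (hr : ∃ y, H.Adj r y) (hpT : p ∉ T) (hrT : r ∉ T) :
    Relation.ReflTransGen (fun s t => H.Adj s t ∧ s ∉ T ∧ t ∉ T) p r := by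
  classical
  obtain ⟨v0, hv0⟩ := hd.conn.nonempty
  set Q : V → V → Prop := Relation.ReflTransGen (fun s t => H.Adj s t ∧ s ∉ T ∧ t ∉ T) with hQ
  have hs : ∀ {x y}, Q x y → Q y x :=
    fun h => rtg_symm (fun _ _ h => ⟨h.1.symm, h.2.2, h.2.1⟩) h
  have main : ∀ p, (∃ y, H.Adj p y) → p ∉ T → Q p v0 := by
    intro p hp hpT
    by_cases hpS : p ∈ S
    · by_contra hcon
      refine hcut T ((act H S).filter (fun s => s ∉ T ∧ ¬ Q s v0)) (Finset.filter_subset _ _)
        ?_ ⟨p, Finset.mem_filter.2 ⟨?_, hpT, hcon⟩⟩ hc hcl ?_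
      · rw [Finset.disjoint_left]
        intro s hs'
        exact (Finset.mem_filter.1 hs').2.1
      · exact Finset.mem_filter.2 ⟨hpS, hp⟩
      · intro s hs' y hy
        obtain ⟨h1, h2, h3⟩ := Finset.mem_filter.1 hs'
        by_cases hyT : y ∈ T
        · exact Or.inr hyT
        · left
          have h4 : ¬ Q y v0 := fun h => h3 (Relation.ReflTransGen.head ⟨hy, h2, hyT⟩ h)
          by_cases hyS : y ∈ S
          · exact Finset.mem_filter.2 ⟨Finset.mem_filter.2 ⟨hyS, s, hy.symm⟩, hyT, h4⟩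
          · exact absurd (base_joined hd T hT hyS hv0) h4
    · exact base_joined hd T hT hpS hv0
  exact (main p hp hpT).trans (hs (main r hr hrT))

theorem joined_of_cutFree (hd : Data B H S) (hcut : CutFree 3 H S) (p r : V)
    (hp : ∃ y, H.Adj p y) (hr : ∃ y, H.Adj r y) : Relation.ReflTransGen H.Adj p r := by
  have := clique_joined hd hcut ∅ (by simp) (by simp) (by simp) hp hr (by simp) (by simp)
  clear hr hp
  induction this with
  | refl => exact Relation.ReflTransGen.refl
  | tail _ h2 ih => exact ih.tail h2.1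

theorem noSep_of_cutFree (hd : Data B H S) (hcut : CutFree 3 H S) {K : V → Prop}
    (hK : ∀ x, K x → x ∈ S ∧ ∀ y, H.Adj x y → y ∈ S) : NoSep H K := by
  classical
  intro x y z hx hxy hyz hxz p r hp hr hpx hrx
  have h1 : ∀ s, s ∉ ({x, y, z} : Finset V) ↔ (s ≠ x ∧ s ≠ y ∧ s ≠ z) := by
    intro s; simp
  have := clique_joined hd hcut {x, y, z} (by
    intro s hs
    simp only [Finset.mem_insert, Finset.mem_singleton] at hs
    rcases hs with rfl | rfl | rfl
    · exact (hK _ hx).1
    · exact (hK _ hx).2 _ hxy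
    · exact (hK _ hx).2 _ hxz) Finset.card_le_three (by
    intro s hs t ht hst
    simp only [Finset.mem_insert, Finset.mem_singleton] at hs ht
    rcases hs with rfl | rfl | rfl <;> rcases ht with rfl | rfl | rfl
    · exact absurd rfl hst
    · exact hxy
    · exact hxz
    · exact hxy.symm
    · exact absurd rfl hst
    · exact hyz
    · exact hxz.symm
    · exact hyz.symm
    · exact absurd rfl hst) hp hr ((h1 p).2 hpx) ((h1 r).2 hrx)
  clear hp hr hpx hrx
  induction this with
  | refl => exact Relation.ReflTransGen.refl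
  | tail _ h2 ih => exact ih.tail ⟨h2.1, (h1 _).1 h2.2.1, (h1 _).1 h2.2.2⟩

/-- Nonnegativity of all fillings of a window in a critical graph of the class `Pl`. -/
theorem Hex.nonneg_crt [Fintype V] {c0 q : ℝ} (hpar : Pool.Agent.U5.Par plCls c0 q V) (hPl : Pl H)
    (hd : Data B H S) (hcut : CutFree 3 H S) (hq : 0 ≤ q) {c : V} {h rc rm : ZMod 6 → V}
    (X : Hex H c h rc rm) (hcS : c ∈ S) (hhS : ∀ i, h i ∈ S) (hrcS : ∀ i, rc i ∈ S)
    (hrmS : ∀ i, rm i ∈ S) (T : Fill) :
    ∃ p : ℝ[X], (∀ n : ℕ, p.eval (n : ℝ) = (wsum H (HK c h) (ringL rc rm) T n : ℝ)) ∧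
      0 ≤ p.eval q := by
  refine X.nonneg hPl (joined_of_cutFree hd hcut) (noSep_of_cutFree hd hcut ?_) hq ?_ T
  · rintro x (rfl | ⟨i, rfl⟩)
    · refine ⟨hcS, ?_⟩
      intro y hy
      obtain ⟨i, rfl⟩ := (X.nc y).1 hy
      exact hhS i
    · refine ⟨hhS i, ?_⟩
      intro y hy
      rcases (X.nh i y).1 hy with rfl | rfl | rfl | rfl | rfl | rfl
      · exact hcS
      · exact hhS _
      · exact hhS _
      · exact hrmS _
      · exact hrcS _
      · exact hrmS _
  · intro W _ Y hY hW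
    exact (hpar.hyp W Y hY hW).le

end Pool.Agent.Helper1.PG
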