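import Mathlib
import Pool.Agent.Helper1.PG.Api

/-!
Separation by cycles through a vertex.
-/

set_option autoImplicit false

namespace Pool.Agent.Helper1.PG

/-- Path sums in a simple graph. -/
theorem exists_pathZ {V : Type} [Fintype V] {G : SimpleGraph V} {P : V → Prop} {x y : V}
    (h : Relation.ReflTransGen (fun p q => G.Adj p q ∧ P p ∧ P q) x y) :
    ∃ Z : V → V → ZMod 2, (∀ u v, Z u v = Z v u) ∧ (∀ u v, Z u v ≠ 0 → G.Adj u v ∧ P u ∧ P v) ∧
      ∀ v, ∑ w, Z v w = ind (x = v) + ind (y = v) := by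
  classical
  induction h with
  | refl =>
    refine ⟨fun _ _ => 0, fun _ _ => rfl, fun _ _ h => absurd rfl h, fun v => ?_⟩
    rw [z2_add_self]
    simp
  | @tail p q _ h2 ih =>
    obtain ⟨Z, hZ1, hZ2, hZ3⟩ := ih
    obtain ⟨hpq, hp, hq⟩ := h2
    refine ⟨fun u v => Z u v + (ind (u = p ∧ v = q) + ind (u = q ∧ v = p)), ?_, ?_, ?_⟩
    · intro u v
      show Z u v + (ind (u = p ∧ v = q) + ind (u = q ∧ v = p)) =
        Z v u + (ind (v = p ∧ u = q) + ind (v = q ∧ u = p))
      rw [hZ1 u v, ind_congr (and_comm : (u = p ∧ v = q) ↔ _),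
        ind_congr (and_comm : (u = q ∧ v = p) ↔ _), add_comm (ind (v = q ∧ u = p))]
    · intro u v huv
      by_cases h1 : u = p ∧ v = q
      · rw [h1.1, h1.2]; exact ⟨hpq, hp, hq⟩
      · by_cases h2 : u = q ∧ v = p
        · rw [h2.1, h2.2]; exact ⟨hpq.symm, hq, hp⟩
        · apply hZ2
          intro h3
          apply huv
          show Z u v + (ind (u = p ∧ v = q) + ind (u = q ∧ v = p)) = 0
          rw [h3, ind_false h1, ind_false h2]
          decide
    · intro v
      rw [Finset.sum_add_distrib, hZ3 v, Finset.sum_add_distrib]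
      have e1 : ∑ w, ind (v = p ∧ w = q) = ind (p = v) := by
        by_cases h1 : v = p
        · rw [ind_true h1.symm, Finset.sum_eq_single q, ind_true ⟨h1, rfl⟩]
          · intro w _ hw; exact ind_false (fun h => hw h.2)
          · intro h; exact absurd (Finset.mem_univ _) h
        · rw [ind_false (Ne.symm h1)]
          exact Finset.sum_eq_zero fun w _ => ind_false (fun h => h1 h.1)
      have e2 : ∑ w, ind (v = q ∧ w = p) = ind (q = v) := by
        by_cases h1 : v = q
        · rw [ind_true h1.symm, Finset.sum_eq_single p, ind_true ⟨h1, rfl⟩]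
          · intro w _ hw; exact ind_false (fun h => hw h.2)
          · intro h; exact absurd (Finset.mem_univ _) h
        · rw [ind_false (Ne.symm h1)]
          exact Finset.sum_eq_zero fun w _ => ind_false (fun h => h1 h.1)
      rw [e1, e2]
      linear_combination z2_add_self (ind (p = v))

namespace PlaneData

variable {V F : Type} [Fintype V] [Fintype F] {G : SimpleGraph V} (D : PlaneData G F)

/-- All faces at a vertex off the cycle are on the same side. -/
theorem side_vertex {Z : V → V → ZMod 2} {s : F → ZMod 2}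
    (hs : ∀ f g u v, f ≠ g → D.on f u v → D.on g u v → s f + s g = Z u v) {x : V}
    (hx : ∀ w, Z x w = 0) {f g : F} (hf : D.Von f x) (hg : D.Von g x) : s f = s g := by
  have hstep : ∀ i, s (D.fc x i) = s (D.fc x (i - 1)) := by
    intro i
    have h1 := hs _ _ x (D.nb x i) (D.fc_ne x i) ((D.on_iff x i _).2 (Or.inl rfl))
      ((D.on_iff x i _).2 (Or.inr rfl))
    rw [hx] at h1
    linear_combination h1 - z2_add_self (s (D.fc x (i - 1)))
  have hall : ∀ t : ℕ, s (D.fc x (t : ZMod (D.deg x))) = s (D.fc x 0) := by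
    intro t
    induction t with
    | zero => simp
    | succ t ih =>
      rw [hstep, ← ih]
      congr 2
      push_cast
      ring
  obtain ⟨i, rfl⟩ := (D.Von_iff _ _).1 hf
  obtain ⟨j, rfl⟩ := (D.Von_iff _ _).1 hg
  rw [← zmod_val_lt_cast i, ← zmod_val_lt_cast j, hall, hall]

/-- Connected vertices off the cycle are on the same side. -/
theorem side_conn {Z : V → V → ZMod 2} {s : F → ZMod 2}
    (hs : ∀ f g u v, f ≠ g → D.on f u v → D.on g u v → s f + s g = Z u v) {Q : V → Prop}
    (hQ : ∀ x, Q x → ∀ w, Z x w = 0) {x y : V} (hx : Q x)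
    (h : Relation.ReflTransGen (fun p q => G.Adj p q ∧ Q p ∧ Q q) x y) {f g : F}
    (hf : D.Von f x) (hg : D.Von g y) : s f = s g := by
  induction h generalizing g with
  | refl => exact D.side_vertex hs (hQ x hx) hf hg
  | @tail p q _ h2 ih =>
    obtain ⟨hpq, hp, hq⟩ := h2
    obtain ⟨f', g', _, hk⟩ := D.exists_two hpq
    have h3 := (hk f').2 (Or.inl rfl)
    exact (ih (D.on_Von h3)).trans (D.side_vertex hs (hQ q hq) (D.on_Von' h3) hg)

/-- A cycle through the vertex `u`, given by a path between two neighbours of `u`. -/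
theorem exists_sep {u : V} {i j : ZMod (D.deg u)} (hij : i ≠ j) {P : V → Prop} (hPu : ¬ P u)
    (hi : P (D.nb u i)) (hj : P (D.nb u j))
    (hpath : Relation.ReflTransGen (fun p q => G.Adj p q ∧ P p ∧ P q) (D.nb u i) (D.nb u j)) :
    ∃ s : F → ZMod 2, (∀ k, k ≠ i → k ≠ j → s (D.fc u k) = s (D.fc u (k - 1))) ∧
      s (D.fc u i) = s (D.fc u (i - 1)) + 1 ∧ s (D.fc u j) = s (D.fc u (j - 1)) + 1 ∧
      ∀ (Q : V → Prop), (∀ x, Q x → x ≠ u ∧ ¬ P x) → ∀ x y, Q x →
        Relation.ReflTransGen (fun p q => G.Adj p q ∧ Q p ∧ Q q) x y →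
        ∀ f g, D.Von f x → D.Von g y → s f = s g := by
  classical
  obtain ⟨Z, hZ1, hZ2, hZ3⟩ := exists_pathZ hpath
  have hZu : ∀ w, Z u w = 0 := by
    intro w
    by_contra h
    exact hPu (hZ2 u w h).2.1
  have hZu' : ∀ w, Z w u = 0 := fun w => by rw [hZ1]; exact hZu w
  have hui : D.nb u i ≠ u := (D.adj_nb u i).ne'
  have huj : D.nb u j ≠ u := (D.adj_nb u j).ne'
  have hnij : D.nb u i ≠ D.nb u j := fun h => hij (D.nb_inj u h)
  set N : V → Prop := fun w => w = D.nb u i ∨ w = D.nb u j with hN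
  set Y : V → V → ZMod 2 := fun v w => Z v w + (ind (v = u ∧ N w) + ind (w = u ∧ N v)) with hY
  have hYeven : ∀ v, ∑ w, Y v w = 0 := by
    intro v
    rw [hY]
    simp only
    rw [Finset.sum_add_distrib, hZ3 v, Finset.sum_add_distrib]
    have e1 : ∑ w, ind (v = u ∧ N w) = 0 := by
      by_cases hv : v = u
      · have e2 : ∀ w, ind (v = u ∧ N w) = ind (D.nb u i = w) + ind (D.nb u j = w) := by
          intro w
          by_cases h1 : w = D.nb u i
          · rw [ind_true ⟨hv, Or.inl h1⟩, ind_true h1.symm,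
              ind_false (fun h2 => hnij (h1.symm.trans h2.symm)), add_zero]
          · by_cases h2 : w = D.nb u j
            · rw [ind_true ⟨hv, Or.inr h2⟩, ind_false (Ne.symm h1), ind_true h2.symm, zero_add]
            · rw [ind_false (by rintro ⟨_, h3 | h3⟩; exacts [h1 h3, h2 h3]),
                ind_false (Ne.symm h1), ind_false (Ne.symm h2), add_zero]
        rw [Finset.sum_congr rfl fun w _ => e2 w, Finset.sum_add_distrib, sum_ind, sum_ind,
          ind_true (Finset.mem_univ _), ind_true (Finset.mem_univ _)]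
        decide
      · exact Finset.sum_eq_zero fun w _ => ind_false (fun h => hv h.1)
    have e3 : ∑ w, ind (w = u ∧ N v) = ind (D.nb u i = v) + ind (D.nb u j = v) := by
      have e4 : ∑ w, ind (w = u ∧ N v) = ind (N v) := by
        by_cases h1 : N v
        · rw [ind_true h1, Finset.sum_eq_single u, ind_true ⟨rfl, h1⟩]
          · intro w _ hw; exact ind_false (fun h => hw h.1)
          · intro h; exact absurd (Finset.mem_univ _) h
        · rw [ind_false h1]
          exact Finset.sum_eq_zero fun w _ => ind_false (fun h => h1 h.2)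
      rw [e4]
      by_cases h1 : v = D.nb u i
      · rw [ind_true (Or.inl h1), ind_true h1.symm,
          ind_false (fun h2 => hnij (h1.symm.trans h2.symm)), add_zero]
      · by_cases h2 : v = D.nb u j
        · rw [ind_true (Or.inr h2), ind_false (Ne.symm h1), ind_true h2.symm, zero_add]
        · rw [ind_false (by rintro (h3 | h3); exacts [h1 h3, h2 h3]),
            ind_false (Ne.symm h1), ind_false (Ne.symm h2), add_zero]
    rw [e1, e3, zero_add, z2_add_self]
  have hYsymm : ∀ v w, Y v w = Y w v := by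
    intro v w
    show Z v w + (ind (v = u ∧ N w) + ind (w = u ∧ N v)) =
      Z w v + (ind (w = u ∧ N v) + ind (v = u ∧ N w))
    rw [hZ1 v w, add_comm (ind (v = u ∧ N w))]
  have hYadj : ∀ v w, ¬ G.Adj v w → Y v w = 0 := by
    intro v w hvw
    show Z v w + (ind (v = u ∧ N w) + ind (w = u ∧ N v)) = 0
    have h1 : Z v w = 0 := by
      by_contra h; exact hvw (hZ2 v w h).1
    have h2 : ¬ (v = u ∧ N w) := by
      rintro ⟨rfl, h3 | h3⟩
      · rw [h3] at hvw; exact hvw (D.adj_nb _ _)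
      · rw [h3] at hvw; exact hvw (D.adj_nb _ _)
    have h3 : ¬ (w = u ∧ N v) := by
      rintro ⟨rfl, h3 | h3⟩
      · rw [h3] at hvw; exact hvw (D.adj_nb _ _).symm
      · rw [h3] at hvw; exact hvw (D.adj_nb _ _).symm
    rw [h1, ind_false h2, ind_false h3]
    decide
  obtain ⟨s, hs⟩ := D.jordan Y hYsymm hYadj hYeven
  have hYu : ∀ k, Y u (D.nb u k) = ind (k = i ∨ k = j) := by
    intro k
    show Z u (D.nb u k) + (ind (u = u ∧ N (D.nb u k)) + ind (D.nb u k = u ∧ N u)) = _
    rw [hZu, ind_false (p := D.nb u k = u ∧ N u) (fun h => (D.adj_nb u k).ne' h.1), zero_add,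
      add_zero]
    apply ind_congr
    constructor
    · rintro ⟨_, h1 | h1⟩
      · exact Or.inl (D.nb_inj u h1)
      · exact Or.inr (D.nb_inj u h1)
    · rintro (h1 | h1)
      · exact ⟨rfl, Or.inl (by rw [h1])⟩
      · exact ⟨rfl, Or.inr (by rw [h1])⟩
  have hstep : ∀ k, s (D.fc u k) + s (D.fc u (k - 1)) = ind (k = i ∨ k = j) := by
    intro k
    rw [← hYu k]
    exact hs _ _ u (D.nb u k) (D.fc_ne u k) ((D.on_iff u k _).2 (Or.inl rfl))
      ((D.on_iff u k _).2 (Or.inr rfl))
  refine ⟨s, ?_, ?_, ?_, ?_⟩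
  · intro k hki hkj
    have h1 := hstep k
    rw [ind_false (by rintro (h | h); exacts [hki h, hkj h])] at h1
    linear_combination h1 - z2_add_self (s (D.fc u (k - 1)))
  · have h1 := hstep i
    rw [ind_true (Or.inl rfl)] at h1
    linear_combination h1 - z2_add_self (s (D.fc u (i - 1)))
  · have h1 := hstep j
    rw [ind_true (Or.inr rfl)] at h1
    linear_combination h1 - z2_add_self (s (D.fc u (j - 1)))
  · intro Q hQ x y hx hxy f g hf hg
    refine D.side_conn hs (Q := Q) ?_ hx hxy hf hg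
    intro x hx w
    obtain ⟨h1, h2⟩ := hQ x hx
    show Z x w + (ind (x = u ∧ N w) + ind (w = u ∧ N x)) = 0
    have h3 : Z x w = 0 := by
      by_contra h; exact h2 (hZ2 x w h).2.1
    have h4 : ¬ (w = u ∧ N x) := by
      rintro ⟨_, h5 | h5⟩
      · rw [h5] at h2; exact h2 hi
      · rw [h5] at h2; exact h2 hj
    rw [h3, ind_false (fun h => h1 h.1), ind_false h4]
    decide

/-- Constancy along an arc. -/
theorem arc_const {u : V} {s : F → ZMod 2} (j : ZMod (D.deg u)) (t : ℕ)
    (h : ∀ r : ℕ, 1 ≤ r → r ≤ t → s (D.fc u (j + r)) = s (D.fc u (j + r - 1))) :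
    s (D.fc u (j + t)) = s (D.fc u j) := by
  induction t with
  | zero => simp
  | succ t ih =>
    rw [h (t + 1) (by omega) le_rfl, ← ih fun r h1 h2 => h r h1 (by omega)]
    congr 2
    push_cast
    ring

theorem exists_arc {n : ℕ} [NeZero n] (j k : ZMod n) : ∃ t : ℕ, t < n ∧ k = j + t := by
  refine ⟨(k - j).val, ZMod.val_lt _, ?_⟩
  rw [zmod_val_lt_cast]
  ring

/-- The sides of the two arcs are different. -/
theorem arc_diff {u : V} {i j : ZMod (D.deg u)} (hij : i ≠ j) {s : F → ZMod 2}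
    (h1 : ∀ k, k ≠ i → k ≠ j → s (D.fc u k) = s (D.fc u (k - 1)))
    (h2 : s (D.fc u j) = s (D.fc u (j - 1)) + 1) : s (D.fc u j) = s (D.fc u i) + 1 := by
  obtain ⟨t, ht, hj⟩ := exists_arc i j
  have ht0 : 1 ≤ t := by
    by_contra h
    have : t = 0 := by omega
    rw [this] at hj
    exact hij (by simpa using hj.symm)
  have hc : s (D.fc u (i + (t - 1 : ℕ))) = s (D.fc u i) := by
    apply D.arc_const
    intro r hr1 hr2
    apply h1
    · intro h3
      have : ((r : ℕ) : ZMod (D.deg u)) = 0 := by linear_combination h3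
      exact zmod_cast_ne_zero hr1 (by omega) this
    · intro h3
      rw [hj] at h3
      have h4 : ((t - r : ℕ) : ZMod (D.deg u)) = 0 := by
        rw [Nat.cast_sub (by omega)]
        linear_combination -h3
      exact zmod_cast_ne_zero (by omega) (by omega) h4
  rw [h2, ← hc]
  congr 3
  rw [hj, Nat.cast_sub ht0]
  push_cast
  ring

/-- Separation I: three consecutive neighbours `z₁, z₂, z₃` of `u`, a connected set `X` containing
`z₂`, and a path from `z₁` to `z₃` avoiding `X` and `u`: the set `X` contains no other neighbour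
of `u`. -/
theorem sepI {X : V → Prop} {u : V} {m : ZMod (D.deg u)} (hXu : ¬ X u)
    (h1 : ¬ X (D.nb u (m - 1))) (h3 : ¬ X (D.nb u (m + 1)))
    (h13 : D.nb u (m - 1) ≠ D.nb u (m + 1))
    (hpath : Relation.ReflTransGen (fun p q => G.Adj p q ∧ (p ≠ u ∧ ¬ X p) ∧ (q ≠ u ∧ ¬ X q))
      (D.nb u (m - 1)) (D.nb u (m + 1)))
    (hX : ∀ x y, X x → X y → Relation.ReflTransGen (fun p q => G.Adj p q ∧ X p ∧ X q) x y)
    (h2 : X (D.nb u m)) : ∀ w, X w → G.Adj u w → w = D.nb u m := by
  intro w hw huw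
  have hij : m - 1 ≠ m + 1 := fun h => h13 (by rw [h])
  obtain ⟨s, hs1, hs2, hs3, hs4⟩ := D.exists_sep (P := fun w => w ≠ u ∧ ¬ X w) hij
    (fun h => h.1 rfl) ⟨(D.adj_nb u _).ne', h1⟩ ⟨(D.adj_nb u _).ne', h3⟩ hpath
  obtain ⟨k, rfl⟩ := (D.adj_iff u w).1 huw
  by_contra hne
  have hkm : k ≠ m := fun h => hne (by rw [h])
  have hkm1 : k ≠ m - 1 := fun h => h1 (by rw [← h]; exact hw)
  have hkm2 : k ≠ m + 1 := fun h => h3 (by rw [← h]; exact hw)
  have hXs := hs4 X (fun x hx => ⟨fun h => hXu (h ▸ hx), fun h => h.2 hx⟩) _ _ h2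
    (hX _ _ h2 hw) (D.fc u m) (D.fc u k) (D.Von_nb u m) (D.Von_nb u k)
  have hd := D.arc_diff hij hs1 hs3
  have hm : s (D.fc u m) = s (D.fc u (m - 1)) :=
    hs1 m (fun h => D.one_ne u (by linear_combination h)) (fun h => D.one_ne u
      (by linear_combination -h))
  obtain ⟨t, ht, hk⟩ := exists_arc (m + 1) k
  have hc : s (D.fc u k) = s (D.fc u (m + 1)) := by
    rw [hk]
    apply D.arc_const
    intro r hr1 hr2
    apply hs1
    · intro h4
      -- `m + 1 + r = m - 1`
      have h5 : ((r + 2 : ℕ) : ZMod (D.deg u)) = 0 := by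
        push_cast
        linear_combination h4
      have h6 := (ZMod.natCast_eq_zero_iff _ _).1 h5
      have h7 := Nat.le_of_dvd (by omega) h6
      -- so `t ∈ {n-2, n-1}`
      have hn := D.two_le_deg u
      have h8 : t = D.deg u - 2 ∨ t = D.deg u - 1 := by omega
      rcases h8 with h8 | h8
      · apply hkm1
        rw [hk, h8, Nat.cast_sub hn, ZMod.natCast_self]
        push_cast
        ring
      · apply hkm
        rw [hk, h8, Nat.cast_sub (by omega), ZMod.natCast_self]
        push_cast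
        ring
    · intro h4
      have h5 : ((r : ℕ) : ZMod (D.deg u)) = 0 := by linear_combination h4
      exact zmod_cast_ne_zero hr1 (by omega) h5
  rw [hm, hc, hd] at hXs
  exact absurd (by linear_combination -hXs : (1 : ZMod 2) = 0) (by decide)

/-- Separation III: a corner `(a, u, b)` of a face `f`, a connected set `X` containing a vertex of
`f`, and a path from `a` to `b` avoiding `X` and `u`: then `X` contains no neighbour of `u`. -/
theorem sepIII {X : V → Prop} {u : V} {m : ZMod (D.deg u)} (hXu : ¬ X u)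
    (h1 : ¬ X (D.nb u m)) (h3 : ¬ X (D.nb u (m + 1)))
    (hpath : Relation.ReflTransGen (fun p q => G.Adj p q ∧ (p ≠ u ∧ ¬ X p) ∧ (q ≠ u ∧ ¬ X q))
      (D.nb u m) (D.nb u (m + 1)))
    (hX : ∀ x y, X x → X y → Relation.ReflTransGen (fun p q => G.Adj p q ∧ X p ∧ X q) x y)
    {x : V} (hx : X x) (hxf : D.Von (D.fc u m) x) : ∀ w, X w → ¬ G.Adj u w := by
  intro w hw huw
  have hij : m ≠ m + 1 := fun h => D.one_ne u (by linear_combination -h)
  obtain ⟨s, hs1, hs2, hs3, hs4⟩ := D.exists_sep (P := fun w => w ≠ u ∧ ¬ X w) hij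
    (fun h => h.1 rfl) ⟨(D.adj_nb u _).ne', h1⟩ ⟨(D.adj_nb u _).ne', h3⟩ hpath
  obtain ⟨k, rfl⟩ := (D.adj_iff u w).1 huw
  have hkm : k ≠ m := fun h => h1 (by rw [← h]; exact hw)
  have hkm2 : k ≠ m + 1 := fun h => h3 (by rw [← h]; exact hw)
  have hXs := hs4 X (fun x hx => ⟨fun h => hXu (h ▸ hx), fun h => h.2 hx⟩) _ _ hx
    (hX _ _ hx hw) (D.fc u m) (D.fc u k) hxf (D.Von_nb u k)
  have hd := D.arc_diff hij hs1 hs3
  obtain ⟨t, ht, hk⟩ := exists_arc (m + 1) k
  have hc : s (D.fc u k) = s (D.fc u (m + 1)) := by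
    rw [hk]
    apply D.arc_const
    intro r hr1 hr2
    apply hs1
    · intro h4
      have h5 : ((r + 1 : ℕ) : ZMod (D.deg u)) = 0 := by
        push_cast
        linear_combination h4
      have h6 := (ZMod.natCast_eq_zero_iff _ _).1 h5
      have h7 := Nat.le_of_dvd (by omega) h6
      have h8 : t = D.deg u - 1 := by omega
      apply hkm
      rw [hk, h8, Nat.cast_sub (by have := D.two_le_deg u; omega), ZMod.natCast_self]
      push_cast
      ring
    · intro h4
      have h5 : ((r : ℕ) : ZMod (D.deg u)) = 0 := by linear_combination h4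
      exact zmod_cast_ne_zero hr1 (by omega) h5
  rw [hc, hd] at hXs
  exact absurd (by linear_combination -hXs : (1 : ZMod 2) = 0) (by decide)

end PlaneData

/-- No triangle avoiding `o` separates two vertices. -/
def TriOK {V : Type} (G : SimpleGraph V) (o : V) : Prop :=
  ∀ x y z, G.Adj x y → G.Adj y z → G.Adj x z → x ≠ o → y ≠ o → z ≠ o →
    ∀ p q, (p ≠ x ∧ p ≠ y ∧ p ≠ z) → (q ≠ x ∧ q ≠ y ∧ q ≠ z) →
    Relation.ReflTransGen
      (fun r t => G.Adj r t ∧ (r ≠ x ∧ r ≠ y ∧ r ≠ z) ∧ (t ≠ x ∧ t ≠ y ∧ t ≠ z)) p q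

namespace PlaneData

variable {V F : Type} [Fintype V] [Fintype F] {G : SimpleGraph V} (D : PlaneData G F)

/-- (3.1) The neighbours at a corner of a long face are not adjacent. -/
theorem not_adj_of_long {o : V} (hT : TriOK G o) {u : V} (hu : u ≠ o) {m : ZMod (D.deg u)}
    (hm : D.nb u m ≠ o) (hm1 : D.nb u (m + 1) ≠ o) (hlen : 4 ≤ D.len (D.fc u m))
    (hdeg : 3 ≤ D.deg u) : ¬ G.Adj (D.nb u m) (D.nb u (m + 1)) := by
  intro hadj
  have hij : m ≠ m + 1 := fun h => D.one_ne u (by linear_combination -h)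
  set P : V → Prop := fun w => w = D.nb u m ∨ w = D.nb u (m + 1) with hP
  obtain ⟨s, hs1, hs2, hs3, hs4⟩ := D.exists_sep (P := P) hij
    (by rintro (h | h)
        · exact (D.adj_nb u m).ne h
        · exact (D.adj_nb u (m + 1)).ne h) (Or.inl rfl) (Or.inr rfl)
    (Relation.ReflTransGen.single ⟨hadj, Or.inl rfl, Or.inr rfl⟩)
  obtain ⟨y, hy, hy1, hy2, hy3⟩ := D.exists_Von_of_four_le hlen
  have h2 : (m + 2) ≠ m := fun h => zmod_cast_ne_zero (n := D.deg u) (r := 2) (by omega)
    (by omega) (by push_cast; linear_combination h)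
  have h21 : (m + 2) ≠ m + 1 := fun h => D.one_ne u (by linear_combination h)
  have hw2 : D.nb u (m + 2) ≠ D.nb u m := fun h => h2 (D.nb_inj u h)
  have hw3 : D.nb u (m + 2) ≠ D.nb u (m + 1) := fun h => h21 (D.nb_inj u h)
  have hconn := hT u (D.nb u m) (D.nb u (m + 1)) (D.adj_nb u m) hadj (D.adj_nb u _) hu hm hm1
    y (D.nb u (m + 2)) ⟨hy1, hy2, hy3⟩ ⟨(D.adj_nb u _).ne', hw2, hw3⟩
  have h4 := hs4 (fun x => x ≠ u ∧ x ≠ D.nb u m ∧ x ≠ D.nb u (m + 1))
    (fun x hx => ⟨hx.1, fun h => by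
      rcases h with h | h
      · exact hx.2.1 h
      · exact hx.2.2 h⟩) _ _ ⟨hy1, hy2, hy3⟩ hconn (D.fc u m) (D.fc u (m + 1)) hy (by
        have := D.Von_nb' u (m + 1)
        rwa [show m + 1 + 1 = m + 2 by ring] at this)
  have hd := D.arc_diff hij hs1 hs3
  rw [hd] at h4
  exact absurd (by linear_combination -h4 : (1 : ZMod 2) = 0) (by decide)

/-- (3.1) Neighbours which are not consecutive are not adjacent. -/
theorem not_adj_of_far {o : V} (hT : TriOK G o) {u : V} (hu : u ≠ o) {i j : ZMod (D.deg u)}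
    (hij : i ≠ j) (h1 : i + 1 ≠ j) (h2 : j + 1 ≠ i)
    (hi : D.nb u i ≠ o) (hj : D.nb u j ≠ o) : ¬ G.Adj (D.nb u i) (D.nb u j) := by
  intro hadj
  set P : V → Prop := fun w => w = D.nb u i ∨ w = D.nb u j with hP
  obtain ⟨s, hs1, hs2, hs3, hs4⟩ := D.exists_sep (P := P) hij
    (by rintro (h | h)
        · exact (D.adj_nb u i).ne h
        · exact (D.adj_nb u j).ne h) (Or.inl rfl) (Or.inr rfl)
    (Relation.ReflTransGen.single ⟨hadj, Or.inl rfl, Or.inr rfl⟩)
  have hi1 : i + 1 ≠ i := fun h => D.one_ne u (by linear_combination h)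
  have hj1 : j + 1 ≠ j := fun h => D.one_ne u (by linear_combination h)
  have hconn := hT u (D.nb u i) (D.nb u j) (D.adj_nb u i) hadj (D.adj_nb u _) hu hi hj
    (D.nb u (i + 1)) (D.nb u (j + 1))
    ⟨(D.adj_nb u _).ne', fun h => hi1 (D.nb_inj u h), fun h => h1 (D.nb_inj u h)⟩
    ⟨(D.adj_nb u _).ne', fun h => h2 (D.nb_inj u h), fun h => hj1 (D.nb_inj u h)⟩
  have h4 := hs4 (fun x => x ≠ u ∧ x ≠ D.nb u i ∧ x ≠ D.nb u j)
    (fun x hx => ⟨hx.1, fun h => by
      rcases h with h | h
      · exact hx.2.1 h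
      · exact hx.2.2 h⟩) _ _
    ⟨(D.adj_nb u _).ne', fun h => hi1 (D.nb_inj u h), fun h => h1 (D.nb_inj u h)⟩ hconn
    (D.fc u i) (D.fc u j) (D.Von_nb' u i) (D.Von_nb' u j)
  have hd := D.arc_diff hij hs1 hs3
  rw [hd] at h4
  exact absurd (by linear_combination -h4 : (1 : ZMod 2) = 0) (by decide)

/-- Adjacent neighbours at a corner: the face is a triangle. -/
theorem len_eq_three {o : V} (hT : TriOK G o) {u : V} (hu : u ≠ o) {m : ZMod (D.deg u)}
    (hm : D.nb u m ≠ o) (hm1 : D.nb u (m + 1) ≠ o) (hdeg : 3 ≤ D.deg u)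
    (h : G.Adj (D.nb u m) (D.nb u (m + 1))) : D.len (D.fc u m) = 3 := by
  by_contra h1
  have := D.three_le_len (D.fc u m)
  exact D.not_adj_of_long hT hu hm hm1 (by omega) hdeg h

end PlaneData

end Pool.Agent.Helper1.PG
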